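import Pool.Agent.H53.TPS.CombT
import Pool.Agent.H53.TPS.MsF
import Pool.Agent.H53.MID.Base
import Pool.Agent.H53.MIX.ContraQ
import Pool.Agent.H53.MID.Lfu

/-!
# TPS Lfu2: local Fourier uniformity of `Fp f P` for general `f` and all `N^e1 ≤ P ≤ H N^(-e2)`

Copy and adapt `Pool.Agent.H53.MIX.lfu_x` (file `H53/MIX/LfuX.lean`, complete; or `H53/MID/Lfu.lean`) with `comb_t` in place of `CombX`, `ms_f` in place of `ms_w`.
Proof.  `L = log N`, `n = N/H`, `w0 = ⌊N^(e2/2)⌋`, `g = cut (N/(16P)) (12N/P) f` (`SqB g w0 (N^4) L` since `g^2 ≤ f^2`).  Suppose the set `F0 = badB (Fp f P) N H (H/L^A)` has more than `(N/H)/L^A` elements, choose `α_i`; on the blocks `Bs (Fp f P) = Bs (Fp g P)`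
(all `m ∈ [iH, (i+1)H)`, `i ∈ [N/(2H), 4N/H]`, satisfy `N/(16P) < m/p ≤ 5N/P`).  `base 10 A` (`X = N^4`, `2 w0 P L^(A+5) ≤ H` as `P N^e2 ≤ H`): `Rel 30 n P (η P) F0 G0 α β R0`, `η = 2 L^(A+5)/H`, `|R0| ≥ n P/L^(5A+14)`.
`comb_t` with `C = 30`, `δ = L^(-(5A+14))`, `k = 3 + ⌈2/e2⌉`, `Jm = ⌈1/e1⌉` (`n ≤ N ≤ P^Jm`): `D (η P) ≤ 2 D L^(A+5) N^(-e2) ≤ δ^e`; `D (η P)^(k-1) P ≤ D (2 L^(A+5))^(k-1) N^(-e2 (k-1)) N ≤ D (2 L^(A+5))^(k-1) N^(-1) ≤ δ^e`; `D ≤ δ^e N^e1`.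
With a suitable `C1` (`D L^((5A+14) e) ≤ L^C1`): `d ≤ L^C1`, `|T'| ≤ L^C1 η n^2`, `|F1| ≥ n/L^C1`, `nz (α i - b/d - T'/i) ≤ L^C1 η`.  `T = T' H`, `Q2 = 2 L^(C1 + A + 5)`: `|T| ≤ Q2 n^2`, `nz (α i - b/d - T/(iH)) ≤ Q2/H`.
`contra_q 10 A C1` (`w0 P (Q2 L^(A+4)) ≤ H`; `X = 64 N`), `θ = 1/(n Q2 L^(A+3))`; `ms_f hVK (2A + 2C1 + 3) C1 e1` (`C' = C1`): `P L^C4 ≤ θ N` since `θ N ≥ H/(Q2 L^(A+3)) ≥ P N^e2/(Q2 L^(A+3))`, `|T| ≤ N^2`, `P^2 ≤ N` (`P ≤ H`), `w0 ≤ N^(1/2) ≤ 12N/P` if `e2 ≤ 1`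
(if `e2 > 1/2` the hypotheses `P N^e2 ≤ H`, `H^2 ≤ N`, `P ≥ 1` are contradictory).  So `θ^2 (n H)^2/L^(2A+2C1+1) ≤ θ^2 N^2/L^(2A+2C1+3)` with `n H ≥ N/2`: a contradiction for `L > 2`.
-/

set_option autoImplicit false

namespace Pool.Agent.H53.TPS

open Finset MeasureTheory
open Pool.Agent.H91.PK (ee)
open Pool.Agent.H53.MID

/-- the indices of the blocks -/
private theorem Lfu2_range {N H i : ℕ} (hH : 8 ≤ H) (hHN : H ^ 2 ≤ N)
    (hi : i ∈ Icc (N / (2 * H)) (4 * N / H)) :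
    ((N / H : ℕ) : ℝ) / 10 ≤ i ∧ (i : ℝ) ≤ 10 * ((N / H : ℕ) : ℝ) ∧ N ≤ 4 * (i * H) ∧
      (i + 1) * H ≤ 5 * N := by
  rw [mem_Icc] at hi
  obtain ⟨h1, h2⟩ := hi
  have hH0 : 0 < H := by omega
  have e1 : N / (2 * H) = N / H / 2 := by
    rw [Nat.div_div_eq_div_mul, mul_comm]
  rw [e1] at h1
  have h8 : 8 * H ≤ N := by nlinarith
  have hn8 : 8 ≤ N / H := (Nat.le_div_iff_mul_le hH0).mpr h8
  have hnH : N / H * H ≤ N := Nat.div_mul_le_self N H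
  have hnH2 : N < (N / H + 1) * H := by
    have := Nat.lt_mul_div_succ N hH0
    rw [mul_comm]
    exact this
  have h3 : N / H ≤ 2 * i + 1 := by omega
  have h4 : 4 * N / H ≤ 4 * (N / H) + 3 := by
    have h5 : 4 * N < (4 * (N / H) + 4) * H := by nlinarith
    have h6 : 4 * N / H < 4 * (N / H) + 4 := by
      rw [Nat.div_lt_iff_lt_mul hH0]
      exact h5
    omega
  have h5 : 4 * N / H * H ≤ 4 * N := Nat.div_mul_le_self _ _
  refine ⟨?_, ?_, ?_, ?_⟩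
  · have h6 : ((N / H : ℕ) : ℝ) ≤ 2 * i + 1 := by exact_mod_cast h3
    have h7 : (8 : ℝ) ≤ ((N / H : ℕ) : ℝ) := by exact_mod_cast hn8
    linarith
  · have h6 : i ≤ 10 * (N / H) := by omega
    exact_mod_cast h6
  · have h6 : (N / H + 1) * H ≤ (2 * i + 2) * H := Nat.mul_le_mul_right H (by omega)
    nlinarith
  · have h6 : i * H ≤ 4 * N / H * H := Nat.mul_le_mul_right H h2
    nlinarith

/-- cutting off the coefficients does not change the values on the blocks -/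
private theorem Lfu2_cut {N P m : ℕ} (g : ℕ → ℝ) (hN : 0 < N) (hP : 0 < P) (h1 : N ≤ 4 * m)
    (h2 : m ≤ 5 * N) :
    Fp (cut (N / (16 * P)) (12 * N / P) g) P m = Fp g P m := by
  unfold Fp
  apply Finset.sum_congr rfl
  intro p hp
  rw [Finset.mem_filter] at hp
  obtain ⟨hp1, k, rfl⟩ := hp
  unfold Pool.Agent.H35.W.pb at hp1
  rw [Finset.mem_filter, mem_Ioc] at hp1
  obtain ⟨⟨hp2, hp3⟩, -⟩ := hp1
  have hp0 : 0 < p := by omega
  rw [Nat.mul_div_cancel_left k hp0]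
  unfold cut
  rw [if_pos]
  rw [mem_Ioc]
  have hk : 0 < k := by
    rcases Nat.eq_zero_or_pos k with h | h
    · rw [h] at h1
      omega
    · exact h
  constructor
  · have h3 : N / (16 * P) * (16 * P) ≤ N := Nat.div_mul_le_self _ _
    have h4 : 4 * (p * k) ≤ 8 * (P * k) := by
      have : p * k ≤ 2 * P * k := Nat.mul_le_mul_right k hp3
      nlinarith
    have h5 : P * (2 * (N / (16 * P))) ≤ P * k := by nlinarith
    have h6 := Nat.le_of_mul_le_mul_left h5 hP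
    omega
  · rw [Nat.le_div_iff_mul_le hP]
    calc k * P ≤ k * p := Nat.mul_le_mul_left k hp2.le
      _ = p * k := mul_comm _ _
      _ ≤ 12 * N := h2.trans (by omega)

private theorem Lfu2_Bs {N P H i : ℕ} (g : ℕ → ℝ) (hN : 0 < N) (hP : 0 < P) (h1 : N ≤ 4 * (i * H))
    (h2 : (i + 1) * H ≤ 5 * N) (α : ℝ) :
    Bs (Fp (cut (N / (16 * P)) (12 * N / P) g) P) H i α = Bs (Fp g P) H i α := by
  unfold Bs
  apply Finset.sum_congr rfl
  intro m hm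
  rw [mem_Ico] at hm
  rw [Lfu2_cut g hN hP (by omega) (by omega)]

open Classical in
private theorem Lfu2_mem_badB (g : ℕ → ℝ) (N H : ℕ) (M : ℝ) (i : ℕ) : i ∈ badB g N H M ↔
    i ∈ Icc (N / (2 * H)) (4 * N / H) ∧ ∃ α : ℝ, M < ‖Bs g H i α‖ := by
  unfold badB
  rw [Finset.mem_filter]

private theorem Lfu2_pow {L P D : ℝ} {E k : ℕ} (hL : 1 ≤ L) (hD : 1 ≤ D)
    (h : 10 * D * L ^ E ≤ P) (hk : k ≤ E) : 10 * D * L ^ k ≤ P := by
  refine le_trans ?_ h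
  exact mul_le_mul_of_nonneg_left (pow_le_pow_right₀ hL hk) (by linarith)

private theorem Lfu2_log : Filter.Tendsto (fun N : ℕ => Real.log N) Filter.atTop Filter.atTop :=
  Real.tendsto_log_atTop.comp tendsto_natCast_atTop_atTop

private theorem Lfu2_small (c : ℝ) (hc : 1 ≤ c) (E : ℕ) (s : ℝ) (hs : 0 < s) :
    ∀ᶠ N : ℕ in Filter.atTop, c * Real.log N ^ E ≤ (N : ℝ) ^ s := by
  have h1 := isLittleO_log_rpow_rpow_atTop (s := s) (E : ℝ) hs
  have h2 := (h1.comp_tendsto tendsto_natCast_atTop_atTop).def (c := 1 / c) (by positivity)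
  filter_upwards [h2, Lfu2_log.eventually_ge_atTop 1] with N hN hN1
  simp only [Function.comp_apply] at hN
  rw [Real.rpow_natCast, Real.norm_eq_abs, Real.norm_eq_abs, abs_of_nonneg (by positivity),
    abs_of_nonneg (by positivity), one_div_mul_eq_div, le_div_iff₀ (by positivity)] at hN
  linarith

/-- the second condition of `comb_t` -/
private theorem Lfu2_gpow {L D N x Y P : ℝ} {A j F E' : ℕ} (hL : 100 ≤ L) (hD : 1 ≤ D) (hN : 0 < N)
    (hx : 0 ≤ x) (hxY : x * Y ^ 2 ≤ 2 * L ^ (A + 5)) (hY : N ^ 2 ≤ (Y ^ 2) ^ j)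
    (hG : D * L ^ E' ≤ N ^ (1 : ℝ)) (hE' : E' = (A + 6) * j + F) (hPN : P ≤ N) (hP : 0 ≤ P) :
    D * x ^ j * P * L ^ F ≤ 1 := by
  have hL0 : 0 < L := by linarith
  rw [Real.rpow_one] at hG
  have h1 : x ^ j * N ^ 2 ≤ L ^ ((A + 6) * j) := by
    calc x ^ j * N ^ 2 ≤ x ^ j * (Y ^ 2) ^ j := mul_le_mul_of_nonneg_left hY (by positivity)
      _ = (x * Y ^ 2) ^ j := (mul_pow _ _ _).symm
      _ ≤ (2 * L ^ (A + 5)) ^ j := pow_le_pow_left₀ (by positivity) hxY j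
      _ ≤ (L ^ (A + 6)) ^ j := by
          apply pow_le_pow_left₀ (by positivity)
          rw [pow_succ L (A + 5), mul_comm]
          exact mul_le_mul_of_nonneg_left (by linarith) (by positivity)
      _ = L ^ ((A + 6) * j) := (pow_mul _ _ _).symm
  have h2 : D * x ^ j * P * L ^ F * N ^ 2 ≤ N ^ 2 := by
    calc D * x ^ j * P * L ^ F * N ^ 2 = D * L ^ F * P * (x ^ j * N ^ 2) := by ring
      _ ≤ D * L ^ F * P * L ^ ((A + 6) * j) := mul_le_mul_of_nonneg_left h1 (by positivity)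
      _ = (D * L ^ E') * P := by
          rw [hE', pow_add]
          ring
      _ ≤ N * N := mul_le_mul hG hPN hP hN.le
      _ = N ^ 2 := by ring
  have h3 : 0 < N ^ 2 := by positivity
  by_contra hcon
  push Not at hcon
  have h4 : 1 * N ^ 2 < D * x ^ j * P * L ^ F * N ^ 2 := mul_lt_mul_of_pos_right hcon h3
  linarith

/-- consequences of `P` and `Y` being larger than all powers of the logarithm -/
private theorem Lfu2_num {L D Y : ℝ} {A C2 C4 E F N H P n w0 : ℕ} (hL : 100 ≤ L) (hD : 1 ≤ D)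
    (hY : 10 * D * L ^ E ≤ Y) (hP : 10 * D * L ^ E ≤ P) (hE : E = A + C2 + C4 + F + 10)
    (hPH : P * Y ^ 2 ≤ H) (hHN : H ^ 2 ≤ N) (hn : n = N / H) (hw0 : (w0 : ℝ) ≤ Y) :
    100 ≤ P ∧ 1000 ≤ n ∧ 8 ≤ H ∧ n * H ≤ N ∧ N ≤ 2 * (n * H) ∧
      2 * (w0 : ℝ) * P * L ^ (A + 5) ≤ H ∧
      (w0 : ℝ) * P * L ^ (A + C2 + 4) ≤ H ∧
      2 * D * L ^ (A + 5 + F) * P ≤ H ∧ D * L ^ F ≤ P ∧
      L ^ C2 * (n : ℝ) ^ 2 ≤ (N : ℝ) ^ 2 ∧ (P : ℝ) * L ^ C4 * (n * L ^ (A + C2 + 3)) ≤ N ∧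
      P ^ 2 ≤ N ∧ w0 * P ≤ N ∧ P ≤ N := by
  have hL1 : 1 ≤ L := by linarith
  have hpow := fun k hk => Lfu2_pow (k := k) hL1 hD hP hk
  have hpowY : ∀ k : ℕ, k ≤ E → 10 * D * L ^ k ≤ Y := by
    intro k hk
    refine le_trans ?_ hY
    exact mul_le_mul_of_nonneg_left (pow_le_pow_right₀ hL1 hk) (by linarith)
  have hP100r : (100 : ℝ) ≤ P := by
    have h1 := hpow 1 (by omega)
    rw [pow_one] at h1
    nlinarith
  have hY100 : (100 : ℝ) ≤ Y := by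
    have h1 := hpowY 1 (by omega)
    rw [pow_one] at h1
    nlinarith
  have hP100 : 100 ≤ P := by exact_mod_cast hP100r
  have hP1 : (1 : ℝ) ≤ P := by linarith
  have hP0 : (0 : ℝ) < P := by linarith
  have hY0 : 0 < Y := by linarith
  -- x ≤ Y implies x P Y ≤ H
  have hPY : ∀ x : ℝ, 0 ≤ x → x ≤ Y → x * (P * Y) ≤ H := by
    intro x hx hxY
    refine le_trans ?_ hPH
    have h1 : x * (P * Y) ≤ Y * (P * Y) := mul_le_mul_of_nonneg_right hxY (by positivity)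
    calc x * (P * Y) ≤ Y * (P * Y) := h1
      _ = P * Y ^ 2 := by ring
  have hPYH : (P : ℝ) * Y ≤ H := by
    have h1 := hPY 1 (by norm_num) (by linarith)
    linarith
  have hHr1 : (1000 : ℝ) ≤ H := by
    have h1 : (100 : ℝ) * 100 ≤ P * Y := mul_le_mul hP100r hY100 (by norm_num) hP0.le
    linarith
  have hH1000 : 1000 ≤ H := by exact_mod_cast hHr1
  have hH0 : 0 < H := by omega
  have hPHr : (P : ℝ) ≤ H := by
    have h1 : (P : ℝ) * 1 ≤ P * Y := mul_le_mul_of_nonneg_left (by linarith) hP0.le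
    linarith
  have hPHn : P ≤ H := by exact_mod_cast hPHr
  have hHn : H ≤ n := by
    rw [hn, Nat.le_div_iff_mul_le hH0]
    calc H * H = H ^ 2 := by ring
      _ ≤ N := hHN
  have hnH : n * H ≤ N := by
    rw [hn]
    exact Nat.div_mul_le_self N H
  have hnH2 : N < (n + 1) * H := by
    have := Nat.lt_mul_div_succ N hH0
    rw [← hn] at this
    rw [mul_comm]
    exact this
  have hNn : N ≤ 2 * (n * H) := by nlinarith
  have hHN1 : H ≤ N := (Nat.le_self_pow (by norm_num) H).trans hHN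
  have hw00 : (0 : ℝ) ≤ w0 := Nat.cast_nonneg _
  refine ⟨hP100, hH1000.trans hHn, by omega, hnH, hNn, ?_, ?_, ?_, ?_, ?_, ?_, ?_, ?_, ?_⟩
  · have h1 := hpowY (A + 5) (by omega)
    have h2 : 2 * L ^ (A + 5) ≤ Y := by
      have h3 : 0 ≤ L ^ (A + 5) := by positivity
      nlinarith
    have h5 := hPY _ (by positivity) h2
    calc 2 * (w0 : ℝ) * P * L ^ (A + 5) = (2 * L ^ (A + 5) * P) * w0 := by ring
      _ ≤ (2 * L ^ (A + 5) * P) * Y := mul_le_mul_of_nonneg_left hw0 (by positivity)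
      _ = 2 * L ^ (A + 5) * (P * Y) := by ring
      _ ≤ H := h5
  · have h1 := hpowY (A + C2 + 4) (by omega)
    have h2 : L ^ (A + C2 + 4) ≤ Y := by
      have h3 : 0 ≤ L ^ (A + C2 + 4) := by positivity
      nlinarith
    have h5 := hPY _ (by positivity) h2
    calc (w0 : ℝ) * P * L ^ (A + C2 + 4) = (L ^ (A + C2 + 4) * P) * w0 := by ring
      _ ≤ (L ^ (A + C2 + 4) * P) * Y := mul_le_mul_of_nonneg_left hw0 (by positivity)
      _ = L ^ (A + C2 + 4) * (P * Y) := by ring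
      _ ≤ H := h5
  · have h1 := hpowY (A + 5 + F) (by omega)
    have h2 : 2 * D * L ^ (A + 5 + F) ≤ Y := by
      have : 0 ≤ D * L ^ (A + 5 + F) := by positivity
      linarith
    have h5 := hPY _ (by positivity) h2
    refine le_trans ?_ h5
    apply mul_le_mul_of_nonneg_left _ (by positivity)
    nlinarith
  · have h1 := hpow F (by omega)
    have : 0 ≤ D * L ^ F := by positivity
    linarith
  · have h1 := hpow C2 (by omega)
    have h2 : L ^ C2 ≤ P := by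
      have h3 : 0 ≤ L ^ C2 := by positivity
      nlinarith
    have h4 : (H : ℝ) ≤ (H : ℝ) ^ 2 := le_self_pow₀ (by linarith) (by norm_num)
    have h5 : ((n * H : ℕ) : ℝ) ≤ N := Nat.cast_le.mpr hnH
    rw [Nat.cast_mul] at h5
    calc L ^ C2 * (n : ℝ) ^ 2 ≤ (H : ℝ) ^ 2 * (n : ℝ) ^ 2 :=
          mul_le_mul_of_nonneg_right (h2.trans (hPHr.trans h4)) (by positivity)
      _ = ((n : ℝ) * H) ^ 2 := by ring
      _ ≤ (N : ℝ) ^ 2 := pow_le_pow_left₀ (by positivity) h5 2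
  · have h1 := hpowY (C4 + (A + C2 + 3)) (by omega)
    rw [pow_add] at h1
    have h2 : L ^ C4 * L ^ (A + C2 + 3) ≤ Y := by
      have h3 : 0 ≤ L ^ C4 * L ^ (A + C2 + 3) := by positivity
      nlinarith
    have h5 := hPY _ (by positivity) h2
    have h6 : ((n * H : ℕ) : ℝ) ≤ N := Nat.cast_le.mpr hnH
    rw [Nat.cast_mul] at h6
    have h7 : L ^ C4 * L ^ (A + C2 + 3) * P ≤ H := by
      refine le_trans ?_ h5
      apply mul_le_mul_of_nonneg_left _ (by positivity)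
      nlinarith
    calc (P : ℝ) * L ^ C4 * (n * L ^ (A + C2 + 3)) = n * (L ^ C4 * L ^ (A + C2 + 3) * P) := by ring
      _ ≤ n * H := mul_le_mul_of_nonneg_left h7 (Nat.cast_nonneg n)
      _ ≤ N := h6
  · exact (Nat.pow_le_pow_left hPHn 2).trans hHN
  · have h1 : (w0 : ℝ) * P ≤ H := by
      refine le_trans (mul_le_mul_of_nonneg_right hw0 hP0.le) ?_
      linarith
    have h2 : w0 * P ≤ H := by exact_mod_cast h1
    exact h2.trans hHN1
  · exact hPHn.trans hHN1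

/-- the numbers which come out of `comb` -/
private theorem Lfu2_out {L D δ η d T n c x : ℝ} {A C0 e H : ℕ} (hL : 100 ≤ L) (hD : 1 ≤ D)
    (hDL : 2 * D ≤ L) (hH : (0 : ℝ) < H) (hδ : δ = 1 / L ^ C0) (hη : η = 2 * L ^ (A + 5) / H)
    (_hn : 0 ≤ n) (hc : 0 ≤ c) (h1 : d * δ ^ e ≤ D) (h2 : |T| * δ ^ e ≤ D * η * n ^ 2) (h3 : δ ^ e * n ≤ D * c)
    (h4 : x * δ ^ e ≤ D * η) :
    d ≤ L ^ (A + 6 + C0 * e) ∧ |T * H| ≤ L ^ (A + 6 + C0 * e) * n ^ 2 ∧ n / L ^ (C0 * e + 1) ≤ c ∧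
      x ≤ L ^ (A + 6 + C0 * e) / H := by
  have hL0 : 0 < L := by linarith
  have hL1 : 1 ≤ L := by linarith
  have hδe : δ ^ e = 1 / L ^ (C0 * e) := by rw [hδ, div_pow, one_pow, ← pow_mul]
  have hF : 0 < L ^ (C0 * e) := by positivity
  rw [hδe] at h1 h2 h3 h4
  rw [mul_one_div, div_le_iff₀ hF] at h1 h2 h4
  rw [one_div_mul_eq_div, div_le_iff₀ hF] at h3
  have e1 : L ^ (A + 6 + C0 * e) = L ^ (A + 5) * L * L ^ (C0 * e) := by
    rw [← pow_succ, ← pow_add]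
  have hA5 : 1 ≤ L ^ (A + 5) := one_le_pow₀ hL1
  have hkey : 2 * D * L ^ (A + 5) * L ^ (C0 * e) ≤ L ^ (A + 6 + C0 * e) := by
    rw [e1]
    apply mul_le_mul_of_nonneg_right _ hF.le
    rw [mul_comm (L ^ (A + 5)) L]
    exact mul_le_mul_of_nonneg_right hDL (by positivity)
  refine ⟨?_, ?_, ?_, ?_⟩
  · refine h1.trans (le_trans ?_ hkey)
    have h5 : D * L ^ (C0 * e) * 1 ≤ D * L ^ (C0 * e) * L ^ (A + 5) :=
      mul_le_mul_of_nonneg_left hA5 (by positivity)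
    have h6 : 0 ≤ D * L ^ (C0 * e) * L ^ (A + 5) := by positivity
    nlinarith
  · rw [abs_mul, abs_of_pos hH]
    have h5 : |T| * H ≤ D * η * n ^ 2 * L ^ (C0 * e) * H := mul_le_mul_of_nonneg_right h2 hH.le
    have h6 : D * η * n ^ 2 * L ^ (C0 * e) * H = 2 * D * L ^ (A + 5) * L ^ (C0 * e) * n ^ 2 := by
      rw [hη]
      field_simp
    rw [h6] at h5
    exact h5.trans (mul_le_mul_of_nonneg_right hkey (by positivity))
  · rw [div_le_iff₀ (by positivity)]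
    refine h3.trans ?_
    rw [pow_succ]
    have h5 : D * c ≤ L * c := mul_le_mul_of_nonneg_right (by linarith) hc
    have h6 : D * c * L ^ (C0 * e) ≤ L * c * L ^ (C0 * e) := mul_le_mul_of_nonneg_right h5 hF.le
    linarith
  · rw [le_div_iff₀ hH]
    have h5 : x * H ≤ D * η * L ^ (C0 * e) * H := mul_le_mul_of_nonneg_right h4 hH.le
    have h6 : D * η * L ^ (C0 * e) * H = 2 * D * L ^ (A + 5) * L ^ (C0 * e) := by
      rw [hη]
      field_simp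
    rw [h6] at h5
    exact h5.trans hkey

/-- the final contradiction -/
private theorem Lfu2_end {L θ I : ℝ} {n H N k : ℕ} (hL : 100 ≤ L) (hθ : 0 < θ) (hN : 0 < N)
    (hNn : N ≤ 2 * (n * H)) (h1 : θ ^ 2 * ((n : ℝ) * H) ^ 2 / L ^ (k + 1) ≤ I)
    (h2 : I ≤ θ ^ 2 * (N : ℝ) ^ 2 / L ^ (k + 3)) : False := by
  have hL0 : 0 < L := by linarith
  have hNr : (0 : ℝ) < N := by exact_mod_cast hN
  have h3 := h1.trans h2
  rw [div_le_div_iff₀ (by positivity) (by positivity)] at h3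
  have e1 : L ^ (k + 3) = L ^ (k + 1) * L ^ 2 := by rw [← pow_add]
  rw [e1] at h3
  have h4 : (θ ^ 2 * L ^ (k + 1)) * (((n : ℝ) * H) ^ 2 * L ^ 2) ≤ (θ ^ 2 * L ^ (k + 1)) * (N : ℝ) ^ 2 := by
    linarith
  have h5 : ((n : ℝ) * H) ^ 2 * L ^ 2 ≤ (N : ℝ) ^ 2 := le_of_mul_le_mul_left h4 (by positivity)
  have h6 : (N : ℝ) ≤ 2 * (n * H) := by exact_mod_cast hNn
  have h7 : (N : ℝ) ^ 2 ≤ 4 * ((n : ℝ) * H) ^ 2 := by
    have := pow_le_pow_left₀ hNr.le h6 2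
    linarith
  have h8 : 0 < ((n : ℝ) * H) ^ 2 := by
    by_contra hcon
    have : (N : ℝ) ^ 2 ≤ 0 := by linarith
    have : 0 < (N : ℝ) ^ 2 := by positivity
    linarith
  have h9 : (10000 : ℝ) ≤ L ^ 2 := by nlinarith
  have h10 : ((n : ℝ) * H) ^ 2 * 10000 ≤ ((n : ℝ) * H) ^ 2 * L ^ 2 :=
    mul_le_mul_of_nonneg_left h9 h8.le
  linarith

theorem lfu2 (hVK : VKp) (e1 e2 : ℝ) (h1 : 0 < e1) (h2 : 0 < e2) (A : ℕ) : ∃ C' m k N0 : ℕ, ∀ N : ℕ, N0 ≤ N →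
    ∀ (H P : ℕ) (f : ℕ → ℝ), (N : ℝ) ^ e1 ≤ P → P * (N : ℝ) ^ e2 ≤ H → H ^ 2 ≤ N →
    SqB f ⌊(N : ℝ) ^ (e2 / 2)⌋₊ (N ^ 4) (Real.log N) → SWf f N P C' m k →
    ((badB (Fp f P) N H (H / Real.log N ^ A)).card : ℝ) ≤ (N / H : ℝ) / Real.log N ^ A := by
  obtain ⟨kk, hkk⟩ : ∃ kk, kk = 3 + ⌈2 / e2⌉₊ := ⟨_, rfl⟩
  obtain ⟨D, e, hD, hcomb⟩ := comb_t 30 (by norm_num) kk (by omega) ⌈1 / e1⌉₊
  obtain ⟨C0, hC0⟩ : ∃ C0, C0 = 5 * A + 14 := ⟨_, rfl⟩
  obtain ⟨C2, hC2⟩ : ∃ C2, C2 = A + 6 + C0 * e := ⟨_, rfl⟩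
  obtain ⟨C1, hC1⟩ : ∃ C1, C1 = C0 * e + 1 := ⟨_, rfl⟩
  obtain ⟨C4, m, k, N1, hms1⟩ := ms_f hVK (2 * A + 2 * C1 + 3) C2 e1 h1
  obtain ⟨L0, hL0, hcon⟩ := contra 10 (by norm_num) A C1 C2
  obtain ⟨E, hE⟩ : ∃ E, E = A + C2 + C4 + C0 * e + 10 := ⟨_, rfl⟩
  obtain ⟨E', hE'⟩ : ∃ E', E' = (A + 6) * (kk - 1) + C0 * e := ⟨_, rfl⟩
  obtain ⟨N0, hN0⟩ := Filter.eventually_atTop.mp ((Lfu2_small (10 * D) (by linarith) E e1 h1).and
    ((Lfu2_small (10 * D) (by linarith) E (e2 / 2) (by linarith)).and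
    ((Lfu2_small D hD E' 1 one_pos).and
    ((Lfu2_log.eventually_ge_atTop (max (max 100 L0) (2 * D))).and
    (Filter.eventually_ge_atTop (max N1 100))))))
  refine ⟨C2, m, k, N0, fun N hN H P f0 hP1 hPH hHN hSq0 hSW => ?_⟩
  obtain ⟨hP2, hY2, hG2, hLL, hNN⟩ := hN0 N hN
  have hL100 : 100 ≤ Real.log N := le_trans (le_trans (le_max_left _ _) (le_max_left _ _)) hLL
  have hLL0 : L0 ≤ Real.log N := le_trans (le_trans (le_max_right _ _) (le_max_left _ _)) hLL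
  have hDL : 2 * D ≤ Real.log N := le_trans (le_max_right _ _) hLL
  have hNN1 : N1 ≤ N := le_trans (le_max_left _ _) hNN
  have hN100 : 100 ≤ N := le_trans (le_max_right _ _) hNN
  have hms2 := hms1 N hNN1
  obtain ⟨L, hL⟩ : ∃ L, L = Real.log N := ⟨_, rfl⟩
  rw [← hL] at hP2 hY2 hG2 hL100 hLL0 hDL hms2 hSq0
  rw [← hL]
  have hNpos : 0 < N := by omega
  have hNr : (100 : ℝ) ≤ N := by exact_mod_cast hN100
  have hN0r : (0 : ℝ) < N := by linarith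
  have hL1 : 1 ≤ L := by linarith
  have hLpos : 0 < L := by linarith
  obtain ⟨Y, hYdef⟩ : ∃ Y, Y = (N : ℝ) ^ (e2 / 2) := ⟨_, rfl⟩
  have hYsq : Y ^ 2 = (N : ℝ) ^ e2 := by
    rw [hYdef, ← Real.rpow_natCast, ← Real.rpow_mul hN0r.le]
    congr 1
    push_cast
    ring
  have hYpow : (N : ℝ) ^ 2 ≤ (Y ^ 2) ^ (kk - 1) := by
    rw [hYsq, ← Real.rpow_natCast ((N : ℝ) ^ e2), ← Real.rpow_mul hN0r.le, ← Real.rpow_natCast (N : ℝ) 2]
    apply Real.rpow_le_rpow_of_exponent_le (by linarith)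
    have h3 := Nat.le_ceil (2 / e2)
    rw [div_le_iff₀ h2] at h3
    have h4 : kk - 1 = 2 + ⌈2 / e2⌉₊ := by omega
    rw [h4]
    push_cast
    nlinarith
  rw [← hYdef] at hY2 hSq0
  rw [← hYsq] at hPH
  have hY100 : (1 : ℝ) ≤ Y := by
    have h3 : (1 : ℝ) ≤ L ^ E := one_le_pow₀ hL1
    nlinarith
  obtain ⟨w0, hw0def⟩ : ∃ w0, w0 = ⌊Y⌋₊ := ⟨_, rfl⟩
  rw [← hw0def] at hSq0
  have hw0Y : (w0 : ℝ) ≤ Y := by
    rw [hw0def]
    exact Nat.floor_le (by linarith)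
  have hw01 : 1 ≤ w0 := by
    rw [hw0def]
    exact Nat.le_floor (by exact_mod_cast hY100)
  obtain ⟨n, hn⟩ : ∃ n, n = N / H := ⟨_, rfl⟩
  obtain ⟨hP100, hn1000, hH8, hnH, hNn, hw1, hw2, hη3, hDP, hT2, hθN, hPP, hw0P, hPN⟩ :=
    Lfu2_num (F := C0 * e) hL100 hD hY2 (hP2.trans hP1) hE hPH hHN hn hw0Y
  have hPpos : 0 < P := by omega
  have hPr : (0 : ℝ) < P := by exact_mod_cast hPpos
  have hHpos : 0 < H := by omega
  have hHr : (0 : ℝ) < H := by exact_mod_cast hHpos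
  by_contra hbad
  push Not at hbad
  obtain ⟨F0, hF0⟩ : ∃ F0, F0 = badB (Fp f0 P) N H (H / L ^ A) := ⟨_, rfl⟩
  rw [← hF0] at hbad
  have hmemF : ∀ i ∈ F0, i ∈ Icc (N / (2 * H)) (4 * N / H) ∧
      ∃ α : ℝ, H / L ^ A < ‖Bs (Fp f0 P) H i α‖ := by
    intro i hi
    rw [hF0] at hi
    exact (Lfu2_mem_badB _ _ _ _ _).mp hi
  choose! α hα using fun i hi => (hmemF i hi).2
  obtain ⟨f, hf⟩ : ∃ f, f = cut (N / (16 * P)) (12 * N / P) f0 := ⟨_, rfl⟩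
  have hrange := fun i hi => Lfu2_range hH8 hHN (hmemF i hi).1
  rw [← hn] at hrange
  have hbig : ∀ i ∈ F0, H / L ^ A ≤ ‖Bs (Fp f P) H i (α i)‖ := by
    intro i hi
    obtain ⟨-, -, h3, h4⟩ := hrange i hi
    rw [hf, Lfu2_Bs f0 hNpos hPpos h3 h4]
    exact (hα i hi).le
  have hSq : SqB f w0 (N ^ 4) L := by
    intro u w hw huw
    refine le_trans (Finset.sum_le_sum (fun x _ => ?_)) (hSq0 u w hw huw)
    rw [hf]
    unfold cut
    split_ifs with hx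
    · exact le_refl _
    · rw [zero_pow (by norm_num)]
      exact sq_nonneg _
  have hN4 : N ≤ N ^ 4 := Nat.le_self_pow (by norm_num) N
  have hnHr : (n : ℝ) * H ≤ N := by exact_mod_cast hnH
  have hX : 8 * 10 * (n : ℝ) * H ≤ ((N ^ 4 : ℕ) : ℝ) := by
    push_cast
    have h1 : 100 * (N : ℝ) ≤ (N : ℝ) ^ 4 := by
      have h2 : (N : ℝ) ^ 4 = N ^ 2 * (N * N) := by ring
      rw [h2]
      have h3 : (1 : ℝ) ≤ N ^ 2 := one_le_pow₀ (by linarith)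
      have h4 : 100 * (N : ℝ) ≤ N * N := by nlinarith
      nlinarith
    linarith
  have hcard : n / L ^ A ≤ (F0.card : ℝ) := by
    refine le_trans ?_ hbad.le
    apply div_le_div_of_nonneg_right _ (by positivity)
    rw [le_div_iff₀ hHr]
    exact hnHr
  have hn1000r : (1000 : ℝ) ≤ n := by exact_mod_cast hn1000
  obtain ⟨G0, β, R0, hRel, hR0⟩ := base 10 (by norm_num) A L n H P w0 (N ^ 4) f F0 α hL100
    (by linarith) hw01 (by omega) hw1 hSq hX (fun i hi => ⟨(hrange i hi).1, (hrange i hi).2.1⟩)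
    hcard hbig
  rw [← hC0] at hR0
  obtain ⟨δ, hδ⟩ : ∃ δ, δ = 1 / L ^ C0 := ⟨_, rfl⟩
  obtain ⟨η, hη⟩ : ∃ η, η = 2 * L ^ (A + 5) / H := ⟨_, rfl⟩
  have hδe : δ ^ e = 1 / L ^ (C0 * e) := by rw [hδ, div_pow, one_pow, ← pow_mul]
  have hF : 0 < L ^ (C0 * e) := by positivity
  have h30 : (3 : ℝ) * 10 = 30 := by norm_num
  rw [h30, ← hη] at hRel
  have hηP0 : 0 ≤ η * P := by rw [hη]; positivity
  have hηY : η * P * Y ^ 2 ≤ 2 * L ^ (A + 5) := by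
    rw [hη]
    have e3 : 2 * L ^ (A + 5) / H * P * Y ^ 2 = 2 * L ^ (A + 5) * (P * Y ^ 2) / H := by ring
    rw [e3, div_le_iff₀ hHr]
    exact mul_le_mul_of_nonneg_left hPH (by positivity)
  obtain ⟨d, b, T, F1, hd1, hd2, hT1, hF1, hF1c, hnz⟩ := hcomb n P δ η F0 G0 α β R0 hRel
    (by rw [hδ]; positivity)
    (by
      rw [hδ, div_le_one (by positivity)]
      exact one_le_pow₀ hL1)
    (by rw [hη]; positivity)
    (by
      rw [hδe, hη, le_div_iff₀ hF]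
      have h1 : D * (2 * L ^ (A + 5) / H * P) * L ^ (C0 * e) =
          (2 * D * L ^ (A + 5 + C0 * e) * (P : ℝ)) / H := by
        rw [pow_add L (A + 5) (C0 * e)]
        field_simp
      rw [h1, div_le_one hHr]
      exact hη3)
    (by
      rw [hδe, le_div_iff₀ hF]
      exact Lfu2_gpow hL100 hD hN0r hηP0 hηY hYpow hG2 hE' (by exact_mod_cast hPN) hPr.le)
    (by
      rw [hδe, one_div_mul_eq_div, le_div_iff₀ hF]
      exact hDP)
    (by omega)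
    (by
      have h1 : (N : ℝ) ≤ (P : ℝ) ^ ⌈1 / e1⌉₊ := by
        have h2 : (N : ℝ) ^ (1 : ℝ) ≤ (N : ℝ) ^ (e1 * (⌈1 / e1⌉₊ : ℝ)) := by
          apply Real.rpow_le_rpow_of_exponent_le (by linarith)
          have h3 := Nat.le_ceil (1 / e1)
          rw [div_le_iff₀ h1] at h3
          linarith
        rw [Real.rpow_one, Real.rpow_mul (by linarith), Real.rpow_natCast] at h2
        exact h2.trans (pow_le_pow_left₀ (by positivity) hP1 _)
      have h2 : N ≤ P ^ ⌈1 / e1⌉₊ := by exact_mod_cast h1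
      have h3 : n ≤ N := by
        rw [hn]
        exact Nat.div_le_self N H
      exact h3.trans h2)
    (by
      rw [hδ]
      refine le_trans (le_of_eq ?_) hR0
      ring)
  have hF1ne : F1.Nonempty := by
    rw [← Finset.card_pos]
    have h1 : 0 < D * (F1.card : ℝ) := by
      refine lt_of_lt_of_le ?_ hF1c
      rw [hδe]
      positivity
    have h2 : (0 : ℝ) < F1.card := by
      by_contra hcon2
      have h3 : (F1.card : ℝ) = 0 := le_antisymm (not_lt.mp hcon2) (Nat.cast_nonneg _)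
      rw [h3, mul_zero] at h1
      exact lt_irrefl _ h1
    exact_mod_cast h2
  have hout := fun i (hi : i ∈ F1) => Lfu2_out (x := nz (α i - b / d - T / i)) hL100 hD hDL hHr hδ hη
    (Nat.cast_nonneg n) (Nat.cast_nonneg F1.card) hd2 hT1 hF1c (hnz i hi)
  rw [← hC2, ← hC1] at hout
  obtain ⟨i1, hi1⟩ := hF1ne
  obtain ⟨hdL, hTL, hF1L, -⟩ := hout i1 hi1
  obtain ⟨θ, hθ⟩ : ∃ θ, θ = 1 / ((n : ℝ) * L ^ (A + C2 + 3)) := ⟨_, rfl⟩
  have hθden : (0 : ℝ) < n * L ^ (A + C2 + 3) := by positivity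
  have hθ0 : 0 < θ := by rw [hθ]; positivity
  obtain ⟨hint, hle⟩ := hms2 P (60 * N) d b w0 f0 (T * H) θ hP1
    hPP hd1 hdL (hTL.trans hT2) (by omega) (by omega) hθ0
    (by
      rw [hθ, div_le_one hθden]
      have h1 : (1 : ℝ) ≤ L ^ (A + C2 + 3) := one_le_pow₀ hL1
      nlinarith)
    (by
      rw [hθ, one_div_mul_eq_div, le_div_iff₀ hθden]
      exact hθN)
    (by
      rw [Nat.le_div_iff_mul_le hPpos]
      omega)
    hSq0 hSW
  rw [← hf] at hint hle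
  have hcon3 := hcon L n H P w0 (60 * N) (N ^ 4) f ((b : ℝ) / d) (T * H) F1 α hLL0
    (by linarith) hw01 (by omega) hw2 hSq hX
    (by
      push_cast
      linarith)
    (fun i hi => ⟨(hrange i (hF1 hi)).1, (hrange i (hF1 hi)).2.1⟩)
    hF1L hTL
    (fun i hi => by
      have h1 := (hout i hi).2.2.2
      have h2 : T * H / ((i : ℝ) * H) = T / i := mul_div_mul_right _ _ hHr.ne'
      rw [h2]
      exact h1)
    (fun i hi => hbig i (hF1 hi))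
    (by
      rw [← hθ]
      exact hint)
  rw [← hθ] at hcon3
  exact Lfu2_end hL100 hθ0 hNpos hNn hcon3 hle

end Pool.Agent.H53.TPS
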