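import Pool.Agent.H53.TPS.Defs

/-!
# TPS BadT: few bad tuples

Proof.  Let `p : Fin (k+1) → ℕ` be a bad tuple of primes of `(P, 2P]`: there is `t` with `nz (p_j t) ≤ κ` for all `j` and `nz t > κ/P`.  `p_0 t = c + f`, `c ∈ ℤ`, `|f| ≤ κ`.  If `p_0 ∣ c` then `nz t ≤ |f|/p_0 ≤ κ/P`, a contradiction.  So `c' := c mod p_0 ∈ {1..p_0 - 1}`, and
`nz (p_j c'/p_0) ≤ nz (p_j t) + p_j |f|/p_0 ≤ 3 κ` for all `j`.  For fixed `p_0` and `c'` (at most `P · 2P` pairs) and `j ≥ 1`: `p_j c' mod p_0` is at distance `≤ 3 κ p_0 ≤ 6 κ P` from `0` modulo `p_0`: at most `12 κ P + 1` residues; `c'` is invertible mod `p_0`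
and `p_j ∈ (P, 2P]`, `p_0 > P`: different `p_j` have different residues mod `p_0`.  So at most `12 κ P + 1` values of `p_j`.
Formalization hint: bound the set of bad tuples by the `Finset.biUnion` over `(p_0, c')` of the image of `Fintype.piFinset`; or `Fin.consEquiv`.
-/

set_option autoImplicit false

namespace Pool.Agent.H53.TPS

open Finset
open Pool.Agent.H53.MID (nz)

open Classical in
/-- the bad tuples -/
noncomputable def BadS (k P : ℕ) (κ : ℝ) : Finset (Fin k → ℕ) :=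
  (Fintype.piFinset (fun _ : Fin k => (Ioc P (2 * P)).filter Nat.Prime)).filter (fun p => ¬ GoodT P κ p)

theorem mem_BadS {k P : ℕ} {κ : ℝ} {p : Fin k → ℕ} :
    p ∈ BadS k P κ ↔ (∀ j, P < p j ∧ p j ≤ 2 * P ∧ (p j).Prime) ∧ ¬ GoodT P κ p := by
  classical
  unfold BadS
  rw [Finset.mem_filter, Fintype.mem_piFinset]
  simp only [Finset.mem_filter, Finset.mem_Ioc, and_assoc]

open Classical in
/-- the possible values of `p_j` for given `p_0 = q` and `c` -/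
private noncomputable def BadT_V (P : ℕ) (κ : ℝ) (q c : ℕ) : Finset ℕ :=
  (Ioc P (2 * P)).filter (fun r => nz ((r : ℝ) * c / q) ≤ 3 * κ)

private theorem BadT_mem_V {P : ℕ} {κ : ℝ} {q c r : ℕ} :
    r ∈ BadT_V P κ q c ↔ (P < r ∧ r ≤ 2 * P) ∧ nz ((r : ℝ) * c / q) ≤ 3 * κ := by
  classical
  unfold BadT_V
  rw [Finset.mem_filter, Finset.mem_Ioc]

private theorem BadT_card_V {P : ℕ} {κ : ℝ} {q c : ℕ} (hκ : 0 ≤ κ) (hq : q.Prime) (h1 : P < q)
    (h2 : q ≤ 2 * P) (hc : ¬ q ∣ c) : ((BadT_V P κ q c).card : ℝ) ≤ 12 * κ * P + 1 := by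
  have hq0 : (0 : ℝ) < q := by exact_mod_cast hq.pos
  set M : ℕ := ⌊3 * κ * q⌋₊ with hM
  have hMle : (M : ℝ) ≤ 3 * κ * q := Nat.floor_le (by positivity)
  have hcard : (BadT_V P κ q c).card ≤ (Finset.Icc (-(M : ℤ)) (M : ℤ)).card := by
    refine Finset.card_le_card_of_injOn
      (fun r => (r : ℤ) * c - q * round ((r : ℝ) * c / q)) ?_ ?_
    · intro r hr
      have hr' := (BadT_mem_V.mp hr).2
      have habs : |((r : ℝ) * c - q * (round ((r : ℝ) * c / q) : ℤ))| ≤ 3 * κ * q := by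
        have e : ((r : ℝ) * c - q * (round ((r : ℝ) * c / q) : ℤ))
            = q * ((r : ℝ) * c / q - (round ((r : ℝ) * c / q) : ℤ)) := by
          field_simp
        rw [e, abs_mul, abs_of_pos hq0]
        have : |((r : ℝ) * c / q - (round ((r : ℝ) * c / q) : ℤ))| ≤ 3 * κ := hr'
        nlinarith
      have hcast : (((((r : ℤ) * c - q * round ((r : ℝ) * c / q)).natAbs : ℕ) : ℝ)) ≤ 3 * κ * q := by
        rw [Nat.cast_natAbs, Int.cast_abs]
        push_cast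
        exact habs
      have hN : (((r : ℤ) * c - q * round ((r : ℝ) * c / q)).natAbs : ℕ) ≤ M :=
        Nat.le_floor hcast
      simp only [Finset.coe_Icc, Set.mem_Icc]
      constructor <;> omega
    · intro r hr s hs hrs
      simp only at hrs
      have hr' := (BadT_mem_V.mp hr).1
      have hs' := (BadT_mem_V.mp hs).1
      have hdvd : (q : ℤ) ∣ ((r : ℤ) - s) * c :=
        ⟨round ((r : ℝ) * c / q) - round ((s : ℝ) * c / q), by linarith⟩
      have hqp : Prime (q : ℤ) := Nat.prime_iff_prime_int.mp hq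
      rcases hqp.dvd_or_dvd hdvd with h | h
      · have h0 : (r : ℤ) - s = 0 := by
          apply Int.eq_zero_of_abs_lt_dvd h
          rw [abs_lt]
          constructor <;> omega
        omega
      · exact absurd (by exact_mod_cast h) hc
  have hcard2 : (Finset.Icc (-(M : ℤ)) (M : ℤ)).card = 2 * M + 1 := by
    rw [Int.card_Icc]
    omega
  rw [hcard2] at hcard
  have h3 : ((BadT_V P κ q c).card : ℝ) ≤ 2 * M + 1 := by exact_mod_cast hcard
  have h4 : (q : ℝ) ≤ 2 * P := by exact_mod_cast h2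
  have h5 : κ * q ≤ κ * (2 * P) := mul_le_mul_of_nonneg_left h4 hκ
  nlinarith

private theorem BadT_exists {k P : ℕ} {κ : ℝ} (hP : 1 ≤ P) (hκ : 0 ≤ κ) {p : Fin (k + 1) → ℕ}
    (h : p ∈ BadS (k + 1) P κ) : ∃ c : ℕ, c < 2 * P ∧ ¬ p 0 ∣ c ∧ ∀ j, p j ∈ BadT_V P κ (p 0) c := by
  obtain ⟨hp, hbad⟩ := mem_BadS.mp h
  unfold GoodT at hbad
  push Not at hbad
  obtain ⟨t, ht, hnz⟩ := hbad
  have hP0 : (0 : ℝ) < P := by exact_mod_cast hP
  have hq1 : P < p 0 := (hp 0).1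
  have hq2 : p 0 ≤ 2 * P := (hp 0).2.1
  have hq0 : (0 : ℝ) < p 0 := by exact_mod_cast (hp 0).2.2.pos
  have hPq : (P : ℝ) < p 0 := by exact_mod_cast hq1
  obtain ⟨c, hc⟩ := Pool.Agent.H53.MID.nz_exists ((p 0 : ℝ) * t)
  have hf : |(p 0 : ℝ) * t - c| ≤ κ := hc.le.trans (ht 0)
  have hnd : ¬ ((p 0 : ℕ) : ℤ) ∣ c := by
    rintro ⟨m, hm⟩
    have h1 : nz t ≤ |t - m| := Pool.Agent.H53.MID.nz_le_of t m
    have h2 : |t - m| * (p 0 : ℝ) ≤ κ := by
      rw [← abs_of_pos hq0, ← abs_mul]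
      have : (t - m) * (p 0 : ℝ) = (p 0 : ℝ) * t - c := by
        rw [hm]; push_cast; ring
      rw [this]; exact hf
    have h3 : |t - m| * (P : ℝ) ≤ κ :=
      (mul_le_mul_of_nonneg_left hPq.le (abs_nonneg _)).trans h2
    have h4 : nz t ≤ κ / P := by
      rw [le_div_iff₀ hP0]
      exact (mul_le_mul_of_nonneg_right h1 hP0.le).trans h3
    exact absurd hnz (not_lt.mpr h4)
  have hpos : (0 : ℤ) < ((p 0 : ℕ) : ℤ) := by exact_mod_cast (hp 0).2.2.pos
  obtain ⟨c', hc'⟩ : ∃ c' : ℕ, (c' : ℤ) = c % ((p 0 : ℕ) : ℤ) :=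
    ⟨(c % ((p 0 : ℕ) : ℤ)).toNat, Int.toNat_of_nonneg (Int.emod_nonneg _ hpos.ne')⟩
  have hlt : (c' : ℤ) < ((p 0 : ℕ) : ℤ) := hc' ▸ Int.emod_lt_of_pos _ hpos
  refine ⟨c', by omega, ?_, ?_⟩
  · intro hd
    apply hnd
    have : ((p 0 : ℕ) : ℤ) ∣ c % ((p 0 : ℕ) : ℤ) := by
      rw [← hc']; exact_mod_cast hd
    exact (Int.dvd_iff_dvd_of_dvd_sub (Int.dvd_self_sub_emod)).mpr this
  · intro j
    rw [BadT_mem_V]
    refine ⟨⟨(hp j).1, (hp j).2.1⟩, ?_⟩
    have hdec : (c : ℝ) = (p 0 : ℝ) * ((c / ((p 0 : ℕ) : ℤ) : ℤ) : ℝ) + (c' : ℝ) := by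
      have : (c : ℤ) = ((p 0 : ℕ) : ℤ) * (c / ((p 0 : ℕ) : ℤ)) + (c' : ℤ) := by
        rw [hc']; exact (Int.mul_ediv_add_emod c _).symm
      exact_mod_cast this
    have e : (p j : ℝ) * c' / p 0
        = ((p j : ℝ) * t - (p j : ℝ) / p 0 * ((p 0 : ℝ) * t - c))
          - (((p j : ℤ) * (c / ((p 0 : ℕ) : ℤ)) : ℤ) : ℝ) := by
      push_cast
      rw [show (c' : ℝ) = (c : ℝ) - (p 0 : ℝ) * ((c / ((p 0 : ℕ) : ℤ) : ℤ) : ℝ) by linarith]
      field_simp
      ring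
    rw [e, Pool.Agent.H53.MID.nz_sub_int]
    refine (Pool.Agent.H53.MID.nz_sub _ _).trans ?_
    have h1 := ht j
    have h2 : nz ((p j : ℝ) / p 0 * ((p 0 : ℝ) * t - c)) ≤ 2 * κ := by
      refine (Pool.Agent.H53.MID.nz_le_abs _).trans ?_
      rw [abs_mul, abs_of_nonneg (by positivity)]
      have h3 : (p j : ℝ) / p 0 ≤ 2 := by
        rw [div_le_iff₀ hq0]
        have : (p j : ℝ) ≤ 2 * P := by exact_mod_cast (hp j).2.1
        linarith
      exact mul_le_mul h3 hf (abs_nonneg _) (by norm_num)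
    linarith

theorem badS_card (k P : ℕ) (κ : ℝ) (hP : 1 ≤ P) (hκ : 0 ≤ κ) (hκ1 : κ ≤ 1 / 10) :
    ((BadS (k + 1) P κ).card : ℝ) ≤ 2 * P ^ 2 * (12 * κ * P + 1) ^ k := by
  classical
  set S : Finset (ℕ × ℕ) := (Ioc P (2 * P) ×ˢ range (2 * P)).filter
    (fun x => x.1.Prime ∧ ¬ x.1 ∣ x.2) with hS
  have hsub : BadS (k + 1) P κ ⊆ S.biUnion (fun x =>
      (Fintype.piFinset (fun _ : Fin k => BadT_V P κ x.1 x.2)).image
        (fun f => (Fin.cons x.1 f : Fin (k + 1) → ℕ))) := by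
    intro p hpb
    obtain ⟨c, hc1, hc2, hc3⟩ := BadT_exists hP hκ hpb
    obtain ⟨hp, -⟩ := mem_BadS.mp hpb
    rw [Finset.mem_biUnion]
    refine ⟨(p 0, c), ?_, ?_⟩
    · rw [hS, Finset.mem_filter, Finset.mem_product, Finset.mem_Ioc, Finset.mem_range]
      exact ⟨⟨⟨(hp 0).1, (hp 0).2.1⟩, hc1⟩, (hp 0).2.2, hc2⟩
    · rw [Finset.mem_image]
      refine ⟨fun j => p j.succ, ?_, ?_⟩
      · rw [Fintype.mem_piFinset]
        intro j
        exact hc3 j.succ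
      · exact Fin.cons_self_tail p
  have hV0 : (0 : ℝ) ≤ 12 * κ * P + 1 := by positivity
  have hb : ∀ x ∈ S, ((((Fintype.piFinset (fun _ : Fin k => BadT_V P κ x.1 x.2)).image
        (fun f => (Fin.cons x.1 f : Fin (k + 1) → ℕ))).card : ℕ) : ℝ) ≤ (12 * κ * P + 1) ^ k := by
    intro x hx
    rw [hS, Finset.mem_filter, Finset.mem_product, Finset.mem_Ioc] at hx
    have h1 := BadT_card_V (P := P) (κ := κ) hκ hx.2.1 hx.1.1.1 hx.1.1.2 hx.2.2
    have h2 : ((((Fintype.piFinset (fun _ : Fin k => BadT_V P κ x.1 x.2)).image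
        (fun f => (Fin.cons x.1 f : Fin (k + 1) → ℕ))).card : ℕ) : ℝ)
        ≤ ((BadT_V P κ x.1 x.2).card : ℝ) ^ k := by
      have h3 := Finset.card_image_le (s := Fintype.piFinset (fun _ : Fin k => BadT_V P κ x.1 x.2))
        (f := fun f => (Fin.cons x.1 f : Fin (k + 1) → ℕ))
      rw [Fintype.card_piFinset, Finset.prod_const, Finset.card_univ, Fintype.card_fin] at h3
      exact_mod_cast h3
    exact h2.trans (pow_le_pow_left₀ (by positivity) h1 k)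
  have hScard : (S.card : ℝ) ≤ 2 * P ^ 2 := by
    have h1 : S.card ≤ (Ioc P (2 * P) ×ˢ range (2 * P)).card := Finset.card_filter_le _ _
    rw [Finset.card_product, Nat.card_Ioc, Finset.card_range] at h1
    have h2 : S.card ≤ 2 * P ^ 2 := by
      calc S.card ≤ (2 * P - P) * (2 * P) := h1
        _ = 2 * P ^ 2 := by
          rw [show 2 * P - P = P by omega]; ring
    exact_mod_cast h2
  calc ((BadS (k + 1) P κ).card : ℝ)
      ≤ ((S.biUnion (fun x =>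
      (Fintype.piFinset (fun _ : Fin k => BadT_V P κ x.1 x.2)).image
        (fun f => (Fin.cons x.1 f : Fin (k + 1) → ℕ)))).card : ℝ) := by
        exact_mod_cast Finset.card_le_card hsub
    _ ≤ ∑ x ∈ S, ((((Fintype.piFinset (fun _ : Fin k => BadT_V P κ x.1 x.2)).image
        (fun f => (Fin.cons x.1 f : Fin (k + 1) → ℕ))).card : ℕ) : ℝ) := by
        exact_mod_cast Finset.card_biUnion_le
    _ ≤ ∑ _x ∈ S, (12 * κ * P + 1) ^ k := Finset.sum_le_sum hb
    _ = S.card * (12 * κ * P + 1) ^ k := by rw [Finset.sum_const, nsmul_eq_mul]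
    _ ≤ 2 * P ^ 2 * (12 * κ * P + 1) ^ k := mul_le_mul_of_nonneg_right hScard (by positivity)

end Pool.Agent.H53.TPS
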