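import Pool.Agent.H53.TPS.Defs

/-!
# TPS Sumset: multiples of a small difference are short sums of differences

`Pr h κ` is any predicate closed under addition (`ha`), monotone in `κ` (`hm`) and true for the differences (`hd`).
Proof.  (1) `δ P ≥ 8`, so `|RR| ≥ 2`, and two elements `r < r'` of `RR ⊆ (P, 2P]` have `q := r' - r ≤ (P - 1)/(|RR| - 1) ≤ 2/δ`.  So `Pr q e0`, `Pr (-q) e0`.
(2) Let `X` be a set of largest cardinality of multiples `x ≤ P` of `q` such that the sets `x + RR` (`x ∈ X`) are pairwise disjoint; all `x + RR ⊆ (P, 3P]`, so `|X| δ P ≤ 2 P`, `|X| ≤ 2/δ`.  By maximality every `y = m q ≤ P` has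
`y + r = x + r'` for some `x ∈ X`, `r, r' ∈ RR` (otherwise `X ∪ {y}`; if `y ∈ X` take `r = r'`): choose `c m := x`; `y - x = r' - r`.
(3) For `m` with `(m+1) q ≤ P`: `c (m+1) - c m = (m+1) q - (r₁' - r₁) - m q + (r₂' - r₂) = q + (r₁ - r₁') + (r₂' - r₂)`: `Pr (c (m+1) - c m) (3 e0)`, and in the same way `Pr (c m - c (m+1)) (3 e0)`.
So the relation `x ~ x'` (`x ≠ x'` and both `Pr (x' - x) (3 e0)`, `Pr (x - x') (3 e0)`) defines a graph on `X` in which `c m` is reachable from `c 0`; a path has at most `|X| - 1` steps (`SimpleGraph.Walk.toPath`, `SimpleGraph.Walk.IsPath.length_lt`), so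
`Pr (c m - c 0) (3 (|X| - 1) e0)` (if `c m ≠ c 0`).
(4) `c 0 = 0 - (difference)`, `m q = (m q - c m) + (c m - c 0) + c 0`: `Pr (m q) ((3 (|X| - 1) + 2) e0)`, and `3 |X| ≤ 6/δ`, so `≤ 8/δ e0` (`hm`, `0 ≤ e0`).
-/

set_option autoImplicit false

namespace Pool.Agent.H53.TPS

open Finset

/-- two elements of `RR` with a small difference -/
private theorem Sumset_gap (P : ℕ) (δ : ℝ) (RR : Finset ℕ) (hδ : 0 < δ)
    (hRR : ∀ r ∈ RR, P < r ∧ r ≤ 2 * P) (hc : δ * P ≤ RR.card) (hP : 8 ≤ δ * P) :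
    ∃ r ∈ RR, ∃ r' ∈ RR, r < r' ∧ ((r' - r : ℕ) : ℝ) * δ ≤ 2 := by
  by_contra hcon
  push Not at hcon
  obtain ⟨K, hK⟩ : ∃ K : ℕ, K = ⌊2 / δ⌋₊ := ⟨_, rfl⟩
  have hK1 : (2 : ℝ) / δ < K + 1 := by
    rw [hK]
    exact Nat.lt_floor_add_one _
  have hK2 : (K : ℝ) ≤ 2 / δ := by
    rw [hK]
    exact Nat.floor_le (by positivity)
  have hmono : ∀ r ∈ RR, ∀ r' ∈ RR, r < r' → (r - P - 1) / (K + 1) < (r' - P - 1) / (K + 1) := by
    intro r hr r' hr' h
    have h1 := hcon r hr r' hr' h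
    have h2 : K + 1 ≤ r' - r := by
      have h3 : (K : ℝ) < ((r' - r : ℕ) : ℝ) := by
        refine lt_of_le_of_lt hK2 ?_
        rw [div_lt_iff₀ hδ]
        exact h1
      have h4 : K < r' - r := by exact_mod_cast h3
      omega
    have h5 : r - P - 1 + (K + 1) ≤ r' - P - 1 := by
      have := (hRR r hr).1
      omega
    have h6 : (r - P - 1 + (K + 1)) / (K + 1) ≤ (r' - P - 1) / (K + 1) :=
      Nat.div_le_div_right h5
    rw [Nat.add_div_right _ (show 0 < K + 1 by omega)] at h6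
    omega
  have hinj : Set.InjOn (fun r : ℕ => (r - P - 1) / (K + 1)) (RR : Set ℕ) := by
    intro r hr r' hr' he
    by_contra hne
    rcases lt_or_gt_of_ne hne with h | h
    · exact absurd he (ne_of_lt (hmono r hr r' hr' h))
    · exact absurd he (ne_of_gt (hmono r' hr' r hr h))
  have hmap : ∀ r ∈ RR, (fun r : ℕ => (r - P - 1) / (K + 1)) r ∈ range (P / (K + 1) + 1) := by
    intro r hr
    rw [mem_range, Nat.lt_succ_iff]
    apply Nat.div_le_div_right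
    have := hRR r hr
    omega
  have hcard := card_le_card_of_injOn _ hmap hinj
  rw [card_range] at hcard
  have h7 : ((P / (K + 1) : ℕ) : ℝ) ≤ P / ((K : ℝ) + 1) := by
    have := @Nat.cast_div_le ℝ _ _ _ P (K + 1)
    push_cast at this
    exact this
  have h8 : (P : ℝ) / ((K : ℝ) + 1) ≤ P * δ / 2 := by
    rw [div_le_div_iff₀ (by positivity) (by norm_num)]
    have h9 : 2 ≤ δ * ((K : ℝ) + 1) := by
      rw [div_lt_iff₀ hδ] at hK1
      linarith
    have hP0 : (0 : ℝ) ≤ P := Nat.cast_nonneg P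
    nlinarith [mul_le_mul_of_nonneg_left h9 hP0]
  have h10 : (RR.card : ℝ) ≤ ((P / (K + 1) : ℕ) : ℝ) + 1 := by exact_mod_cast hcard
  nlinarith

/-- a maximal family of disjoint translates -/
private theorem Sumset_max (P q : ℕ) (RR : Finset ℕ) (hne : RR.Nonempty)
    (hRR : ∀ r ∈ RR, P < r ∧ r ≤ 2 * P) :
    ∃ X : Finset ℕ, X.card * RR.card ≤ 2 * P ∧ ∀ y : ℕ, y ≤ P → q ∣ y →
      ∃ x ∈ X, ∃ r ∈ RR, ∃ r' ∈ RR, y + r = x + r' := by
  classical
  obtain ⟨F, hF⟩ : ∃ F : Finset (Finset ℕ), F = ((range (P + 1)).powerset).filter fun X =>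
      ∀ x ∈ X, ∀ y ∈ X, x ≠ y → Disjoint (RR.image (x + ·)) (RR.image (y + ·)) := ⟨_, rfl⟩
  have hFne : F.Nonempty := by
    refine ⟨∅, ?_⟩
    rw [hF, mem_filter, mem_powerset]
    exact ⟨empty_subset _, by simp⟩
  obtain ⟨X, hX, hmax⟩ := exists_max_image F card hFne
  have hX' := hX
  rw [hF, mem_filter, mem_powerset] at hX
  obtain ⟨hXP, hXd⟩ := hX
  refine ⟨X, ?_, ?_⟩
  · have h1 : (X.biUnion fun x => RR.image (x + ·)).card = X.card * RR.card := by
      rw [card_biUnion]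
      · rw [sum_congr rfl (fun x _ => card_image_of_injective RR (add_right_injective x)),
          sum_const, smul_eq_mul]
      · intro x hx y hy hxy
        exact hXd x hx y hy hxy
    have h2 : (X.biUnion fun x => RR.image (x + ·)) ⊆ Ioc P (3 * P) := by
      intro z hz
      rw [mem_biUnion] at hz
      obtain ⟨x, hx, hz⟩ := hz
      rw [mem_image] at hz
      obtain ⟨r, hr, rfl⟩ := hz
      have h3 := mem_range.1 (hXP hx)
      have h4 := hRR r hr
      rw [mem_Ioc]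
      omega
    have h3 := card_le_card h2
    rw [h1, Nat.card_Ioc] at h3
    omega
  · intro y hy _
    by_contra hcon
    push Not at hcon
    obtain ⟨r0, hr0⟩ := hne
    have hyX : y ∉ X := fun h => hcon y h r0 hr0 r0 hr0 rfl
    have hdis : ∀ x ∈ X, Disjoint (RR.image (y + ·)) (RR.image (x + ·)) := by
      intro x hx
      rw [disjoint_left]
      intro z hz hz'
      rw [mem_image] at hz hz'
      obtain ⟨r, hr, h1⟩ := hz
      obtain ⟨r', hr', h2⟩ := hz'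
      exact hcon x hx r hr r' hr' (h1.trans h2.symm)
    have hins : insert y X ∈ F := by
      rw [hF, mem_filter, mem_powerset]
      refine ⟨?_, ?_⟩
      · rw [insert_subset_iff]
        exact ⟨mem_range.2 (by omega), hXP⟩
      · intro x hx x' hx' hxx
        rw [mem_insert] at hx hx'
        rcases hx with rfl | hx <;> rcases hx' with rfl | hx'
        · exact absurd rfl hxx
        · exact hdis x' hx'
        · exact (hdis x hx).symm
        · exact hXd x hx x' hx' hxx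
    have h1 := hmax _ hins
    rw [card_insert_of_notMem hyX] at h1
    omega

/-- the path in the graph: loop erasure -/
private theorem Sumset_chain (e0 : ℝ) (Pr : ℤ → ℝ → Prop) (he0 : 0 ≤ e0)
    (ha : ∀ h h' : ℤ, ∀ κ κ' : ℝ, Pr h κ → Pr h' κ' → Pr (h + h') (κ + κ'))
    (hm : ∀ h : ℤ, ∀ κ κ' : ℝ, κ ≤ κ' → Pr h κ → Pr h κ') (h0 : Pr 0 e0) (c : ℕ → ℕ) (m : ℕ)
    (hs : ∀ i < m, Pr ((c (i + 1) : ℤ) - c i) (3 * e0)) :
    ∀ (n : ℕ) (X : Finset ℕ), X.card ≤ n → ∀ j ≤ m, (∀ i, j ≤ i → i ≤ m → c i ∈ X) →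
      Pr ((c m : ℤ) - c j) (3 * n * e0 - 2 * e0) := by
  classical
  intro n
  induction n with
  | zero =>
    intro X hX j hj h
    have h1 := h j le_rfl hj
    have h2 : X = ∅ := card_eq_zero.1 (Nat.le_zero.1 hX)
    rw [h2] at h1
    exact absurd h1 (notMem_empty _)
  | succ n ih =>
    intro X hX j hj h
    have hne : ((Icc j m).filter fun i => c i = c j).Nonempty :=
      ⟨j, mem_filter.2 ⟨mem_Icc.2 ⟨le_rfl, hj⟩, rfl⟩⟩
    obtain ⟨i, hi, hmax⟩ := exists_max_image _ id hne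
    rw [mem_filter, mem_Icc] at hi
    obtain ⟨⟨hji, him⟩, hcij⟩ := hi
    rcases him.eq_or_lt with rfl | him
    · rw [hcij, sub_self]
      refine hm 0 e0 _ ?_ h0
      push_cast
      have : (0 : ℝ) ≤ n * e0 := by positivity
      nlinarith
    · have h1 : (X.erase (c j)).card ≤ n := by
        rw [card_erase_of_mem (h j le_rfl hj)]
        omega
      have h2 := ih (X.erase (c j)) h1 (i + 1) him (by
        intro i' h3 h4
        rw [mem_erase]
        refine ⟨fun h5 => ?_, h i' (by omega) h4⟩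
        have h6 := hmax i' (mem_filter.2 ⟨mem_Icc.2 ⟨by omega, h4⟩, h5⟩)
        simp only [id] at h6
        omega)
      have h3 := ha _ _ _ _ h2 (hs i him)
      rw [hcij] at h3
      have h4 : ((c m : ℤ) - c (i + 1)) + ((c (i + 1) : ℤ) - c j) = (c m : ℤ) - c j := by ring
      have h5 : (3 * (n : ℝ) * e0 - 2 * e0) + 3 * e0 = 3 * ((n + 1 : ℕ) : ℝ) * e0 - 2 * e0 := by
        push_cast
        ring
      rw [h4, h5] at h3
      exact h3

theorem sumset (P : ℕ) (δ e0 : ℝ) (RR : Finset ℕ) (Pr : ℤ → ℝ → Prop) (hδ : 0 < δ) (hδ1 : δ ≤ 1) (he0 : 0 ≤ e0)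
    (hRR : ∀ r ∈ RR, P < r ∧ r ≤ 2 * P) (hc : δ * P ≤ RR.card) (hP : 8 ≤ δ * P)
    (hd : ∀ r ∈ RR, ∀ r' ∈ RR, Pr ((r : ℤ) - r') e0) (ha : ∀ h h' : ℤ, ∀ κ κ' : ℝ, Pr h κ → Pr h' κ' → Pr (h + h') (κ + κ'))
    (hm : ∀ h : ℤ, ∀ κ κ' : ℝ, κ ≤ κ' → Pr h κ → Pr h κ') :
    ∃ q : ℕ, 1 ≤ q ∧ q * δ ≤ 2 ∧ ∀ m : ℕ, m * q ≤ P → Pr (((m * q : ℕ) : ℤ)) (8 / δ * e0) := by
  obtain ⟨r1, hr1, r2, hr2, hlt, hq⟩ := Sumset_gap P δ RR hδ hRR hc hP
  obtain ⟨q, hqd⟩ : ∃ q : ℕ, q = r2 - r1 := ⟨_, rfl⟩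
  rw [← hqd] at hq
  have hq1 : 1 ≤ q := by omega
  have hqz : (q : ℤ) = (r2 : ℤ) - r1 := by
    rw [hqd]
    push_cast [Nat.cast_sub hlt.le]
    ring
  have hPq : Pr (q : ℤ) e0 := by
    rw [hqz]
    exact hd r2 hr2 r1 hr1
  refine ⟨q, hq1, hq, ?_⟩
  obtain ⟨X, hX, hc0⟩ := Sumset_max P q RR ⟨r1, hr1⟩ hRR
  have h1 : ∀ m : ℕ, ∃ x : ℕ, m * q ≤ P → x ∈ X ∧ Pr (((m * q : ℕ) : ℤ) - x) e0 ∧
      Pr ((x : ℤ) - ((m * q : ℕ) : ℤ)) e0 := by
    intro m
    by_cases hmP : m * q ≤ P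
    · obtain ⟨x, hx, r, hr, r', hr', he⟩ := hc0 (m * q) hmP (dvd_mul_left q m)
      refine ⟨x, fun _ => ⟨hx, ?_, ?_⟩⟩
      · have h2 : ((m * q : ℕ) : ℤ) - x = (r' : ℤ) - r := by
          have : ((m * q : ℕ) : ℤ) + r = x + r' := by exact_mod_cast he
          linarith
        rw [h2]
        exact hd r' hr' r hr
      · have h2 : (x : ℤ) - ((m * q : ℕ) : ℤ) = (r : ℤ) - r' := by
          have : ((m * q : ℕ) : ℤ) + r = x + r' := by exact_mod_cast he
          linarith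
        rw [h2]
        exact hd r hr r' hr'
    · exact ⟨0, fun h => absurd h hmP⟩
  choose c hcm using h1
  have h00 : Pr 0 e0 := by
    have h2 := hd r1 hr1 r1 hr1
    rwa [sub_self] at h2
  intro m hmP
  have hle : ∀ i ≤ m, i * q ≤ P := fun i hi => le_trans (Nat.mul_le_mul_right q hi) hmP
  have hs : ∀ i < m, Pr ((c (i + 1) : ℤ) - c i) (3 * e0) := by
    intro i hi
    have h2 := (hcm (i + 1) (hle _ hi)).2.2
    have h3 := (hcm i (hle _ hi.le)).2.1
    have h4 := ha _ _ _ _ (ha _ _ _ _ h2 hPq) h3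
    have h5 : ((c (i + 1) : ℤ) - (((i + 1) * q : ℕ) : ℤ)) + (q : ℤ) +
        (((i * q : ℕ) : ℤ) - c i) = (c (i + 1) : ℤ) - c i := by
      push_cast
      ring
    have h6 : e0 + e0 + e0 = 3 * e0 := by ring
    rw [h5, h6] at h4
    exact h4
  have h2 := Sumset_chain e0 Pr he0 ha hm h00 c m hs X.card X le_rfl 0 (Nat.zero_le m)
    (fun i _ hi => (hcm i (hle i hi)).1)
  have h3 := (hcm m hmP).2.1
  have h4 := (hcm 0 (by rw [zero_mul]; exact Nat.zero_le P)).2.2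
  have h5 := ha _ _ _ _ (ha _ _ _ _ h3 h2) h4
  have h6 : (((m * q : ℕ) : ℤ) - c m) + ((c m : ℤ) - c 0) + ((c 0 : ℤ) - ((0 * q : ℕ) : ℤ)) =
      ((m * q : ℕ) : ℤ) := by
    push_cast
    ring
  rw [h6] at h5
  refine hm _ _ _ ?_ h5
  have hP0 : (0 : ℝ) < P := by
    by_contra hcon
    have : (P : ℝ) = 0 := le_antisymm (not_lt.1 hcon) (Nat.cast_nonneg P)
    rw [this] at hP
    linarith
  have h7 : (X.card : ℝ) * δ ≤ 2 := by
    have h8 : (X.card : ℝ) * RR.card ≤ 2 * P := by exact_mod_cast hX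
    have h9 : (X.card : ℝ) * (δ * P) ≤ 2 * P :=
      le_trans (mul_le_mul_of_nonneg_left hc (Nat.cast_nonneg _)) h8
    have h10 : ((X.card : ℝ) * δ) * P ≤ 2 * P := by linarith
    exact le_of_mul_le_mul_right h10 hP0
  have h8 : (X.card : ℝ) ≤ 2 / δ := by
    rw [le_div_iff₀ hδ]
    exact h7
  have h9 : e0 + (3 * (X.card : ℝ) * e0 - 2 * e0) + e0 = 3 * X.card * e0 := by ring
  rw [h9]
  have h10 : 3 * (X.card : ℝ) ≤ 8 / δ := by
    have h11 : 8 / δ = 4 * (2 / δ) := by ring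
    have h12 : 0 < 2 / δ := by positivity
    rw [h11]
    linarith
  exact mul_le_mul_of_nonneg_right h10 he0

end Pool.Agent.H53.TPS
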