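import Pool.Agent.H53.TPS.HU
import Pool.Agent.H53.TPS.Sumset

/-!
# TPS KT: many common neighbours of a good tuple determine a common frequency

Proof.  `Pr h κ := ∃ b, ∀ j, nz (p_j b - h a_j) ≤ κ`; for `r, r' ∈ RR` the number `b_r - b_r'` shows `Pr (r - r') (2 d)`; closed under addition (add the `b`).  `sumset` with `e0 = 2 d`: `q ≤ 2/δ`, `Pr (m q) κ1` for `m q ≤ P`, `κ1 = 16 d/δ`.
Let `M = P/q` (natural division; `q ≤ 2/δ ≤ P`, so `M ≥ 1` and `M ≥ P/(2 q)`), `b m` (`m ≤ M`) with `nz (p_j (b m) - m q a_j) ≤ κ1` for all `j`.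
For `m + m' ≤ M`: `nz (p_j (b(m+m') - b m - b m')) ≤ 3 κ1`, so by `GoodT` (`good_mono` with `3 κ1 ≤ 2500 d/δ^2`) `nz (b(m+m') - b m - b m') ≤ ε := 3 κ1/P`.  Hence (induction on `m`, `nz (b 0) ≤ ε`) `nz (b m - m b(1)) ≤ (m + 1) ε ≤ 2 M ε ≤ 6 κ1`
(`M ≤ P`).  Let `e m := b m - m b(1) - round (b m - m b(1))`, `|e m| ≤ 6 κ1`; then `nz (e(m+m') - e m - e m') ≤ ε` (differs from the above by an integer) and `|e(m+m') - e m - e m'| ≤ 18 κ1 < 1/2`, so `|e(m+m') - e m - e m'| ≤ ε` (`nz_eq_abs`).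
`hu`: `|e m - m s| ≤ 3 ε`, `s = e M/M`; `w' = b 1 + s`: `nz (b m - m w') ≤ 3 ε`.
`nz (m (p_j w' - q a_j)) ≤ nz (p_j b m - m q a_j) + p_j 3 ε ≤ κ1 + 18 κ1 = 19 κ1 < 1/4`, so by `nz_mult` `M nz (p_j w' - q a_j) ≤ 19 κ1`, `nz (p_j w' - q a_j) ≤ 38 κ1 q/P`.
For `r ∈ RR`: `p_j (q b_r - r w') = q (p_j b_r - r a_j) - r (p_j w' - q a_j)`: `nz ≤ q d + 2P 38 κ1 q/P ≤ 77 κ1 q =: κ2 ≤ 2500 d/δ^2`; GoodT: `nz (q b_r - r w') ≤ κ2/P`: `q b_r = r w' + c_r + f`, `c_r ∈ ℤ`, `|f| ≤ κ2/P`.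
Pigeonhole: `r` is a prime `> P ≥ q`, so invertible mod `q`: `t_r ∈ {0..q-1}` with `c_r ≡ r t_r mod q`; some `t` is `t_r` for `≥ |RR|/q ≥ δ^2 P/2` of the `r`: `R1`.  `w = (w' + t)/q`: `b_r - r w = (c_r - r t)/q + f/q`, `nz ≤ κ2/(q P) = 77 κ1/P = 1232 d/(δ P)`.
-/

set_option autoImplicit false

namespace Pool.Agent.H53.TPS

open Finset
open Pool.Agent.H53.MID (nz)

/-- differences of the frequencies -/
private theorem KT_pr {k : ℕ} (P : ℕ) (δ d : ℝ) (p : Fin k → ℕ) (a : Fin k → ℝ) (RR : Finset ℕ)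
    (b : ℕ → ℝ) (hδ : 0 < δ) (hδ1 : δ ≤ 1) (hd : 0 ≤ d) (hRR : ∀ r ∈ RR, r.Prime ∧ P < r ∧ r ≤ 2 * P)
    (hc : δ * P ≤ RR.card) (hP : 8 ≤ δ * P) (hrel : ∀ j, ∀ r ∈ RR, nz (p j * b r - r * a j) ≤ d) :
    ∃ q : ℕ, 1 ≤ q ∧ q * δ ≤ 2 ∧ ∀ m : ℕ, m * q ≤ P →
      ∃ B : ℝ, ∀ j, nz (p j * B - ((m * q : ℕ) : ℝ) * a j) ≤ 16 * d / δ := by
  obtain ⟨q, hq1, hq2, hq3⟩ := sumset P δ (2 * d) RR
    (fun h κ => ∃ B : ℝ, ∀ j, nz (p j * B - (h : ℝ) * a j) ≤ κ) hδ hδ1 (by positivity)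
    (fun r hr => (hRR r hr).2) hc hP
    (fun r hr r' hr' => ⟨b r - b r', fun j => by
      have h1 := Pool.Agent.H53.MID.nz_sub (p j * b r - r * a j) (p j * b r' - r' * a j)
      have h2 := hrel j r hr
      have h3 := hrel j r' hr'
      have h4 : (p j : ℝ) * (b r - b r') - (((r : ℤ) - (r' : ℤ) : ℤ) : ℝ) * a j =
          (p j * b r - r * a j) - (p j * b r' - r' * a j) := by
        push_cast
        ring
      rw [h4]
      linarith⟩)
    (fun h h' κ κ' => by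
      rintro ⟨B, hB⟩ ⟨B', hB'⟩
      refine ⟨B + B', fun j => ?_⟩
      have h1 := Pool.Agent.H53.MID.nz_add (p j * B - (h : ℝ) * a j) (p j * B' - (h' : ℝ) * a j)
      have h2 := hB j
      have h3 := hB' j
      have h4 : (p j : ℝ) * (B + B') - ((h + h' : ℤ) : ℝ) * a j =
          (p j * B - (h : ℝ) * a j) + (p j * B' - (h' : ℝ) * a j) := by
        push_cast
        ring
      rw [h4]
      linarith)
    (fun h κ κ' hκ => by
      rintro ⟨B, hB⟩
      exact ⟨B, fun j => (hB j).trans hκ⟩)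
  refine ⟨q, hq1, hq2, fun m hm => ?_⟩
  obtain ⟨B, hB⟩ := hq3 m hm
  refine ⟨B, fun j => ?_⟩
  have h1 := hB j
  have h2 : 8 / δ * (2 * d) = 16 * d / δ := by ring
  rw [h2] at h1
  rw [Int.cast_natCast] at h1
  exact h1

/-- an approximately additive function modulo one is approximately linear -/
private theorem KT_lin (M : ℕ) (hM : 1 ≤ M) (B : ℕ → ℝ) (ε κ : ℝ) (hε : (M + 1) * ε ≤ κ) (hε0 : 0 ≤ ε) (hκ : 3 * κ < 1 / 2)
    (h : ∀ m m' : ℕ, m + m' ≤ M → nz (B (m + m') - B m - B m') ≤ ε) :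
    ∃ w : ℝ, ∀ m ≤ M, nz (B m - m * w) ≤ 3 * ε := by
  have h0 : ∀ m ≤ M, nz (B m - m * B 1) ≤ (m + 1) * ε := by
    intro m
    induction m with
    | zero =>
      intro _
      have h1 := h 0 0 (Nat.zero_le _)
      rw [show B (0 + 0) - B 0 - B 0 = -(B 0) by simp, Pool.Agent.H53.MID.nz_neg] at h1
      simpa using h1
    | succ m ih =>
      intro hm
      have h1 := ih (by omega)
      have h2 := h m 1 hm
      have h3 := Pool.Agent.H53.MID.nz_add (B (m + 1) - B m - B 1) (B m - m * B 1)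
      have h4 : B (m + 1) - ((m + 1 : ℕ) : ℝ) * B 1 = (B (m + 1) - B m - B 1) + (B m - m * B 1) := by
        push_cast
        ring
      rw [h4]
      push_cast
      linarith
  have h5 : ∀ m ≤ M, nz (B m - m * B 1) ≤ κ := by
    intro m hm
    refine (h0 m hm).trans (le_trans ?_ hε)
    have : (m : ℝ) ≤ M := by exact_mod_cast hm
    exact mul_le_mul_of_nonneg_right (by linarith) hε0
  set e : ℕ → ℝ := fun m => B m - m * B 1 - round (B m - m * B 1) with he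
  have h6 : ∀ m ≤ M, |e m| ≤ κ := fun m hm => h5 m hm
  have h7 : ∀ m m' : ℕ, m + m' ≤ M → |e (m + m') - e m - e m'| ≤ ε := by
    intro m m' hmm
    have h8 := h m m' hmm
    have h9 : |e (m + m') - e m - e m'| < 1 / 2 := by
      have a1 := abs_le.1 (h6 (m + m') hmm)
      have a2 := abs_le.1 (h6 m (by omega))
      have a3 := abs_le.1 (h6 m' (by omega))
      rw [abs_lt]
      constructor <;> linarith [a1.1, a1.2, a2.1, a2.2, a3.1, a3.2]
    rw [← Pool.Agent.H53.MID.nz_eq_abs _ h9]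
    have h10 : e (m + m') - e m - e m' = (B (m + m') - B m - B m') -
        ((round (B (m + m') - ((m + m' : ℕ) : ℝ) * B 1) - round (B m - m * B 1) -
          round (B m' - m' * B 1) : ℤ) : ℝ) := by
      simp only [he]
      push_cast
      ring
    rw [h10, Pool.Agent.H53.MID.nz_sub_int]
    exact h8
  have h11 := hu M hM e ε h7
  refine ⟨B 1 + e M / M, fun m hm => ?_⟩
  have h12 : B m - m * (B 1 + e M / M) = (e m - m * (e M / M)) + ((round (B m - m * B 1) : ℤ) : ℝ) := by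
    simp only [he]
    ring
  rw [h12, Pool.Agent.H53.MID.nz_add_int]
  exact (Pool.Agent.H53.MID.nz_le_abs _).trans (h11 m hm)

/-- `c ≡ r t` can be solved modulo `q` -/
private theorem KT_inv (q r : ℕ) (hq : 1 ≤ q) (hr : Nat.Coprime r q) (c : ℤ) :
    ∃ t ∈ Finset.range q, ∃ u : ℤ, c - r * t = q * u := by
  have : NeZero q := ⟨by omega⟩
  set x : ZMod q := (c : ZMod q) * (ZMod.unitOfCoprime r hr)⁻¹.val with hx
  refine ⟨x.val, Finset.mem_range.2 (ZMod.val_lt x), ?_⟩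
  have h1 : (((c - r * (x.val : ℤ) : ℤ)) : ZMod q) = 0 := by
    push_cast
    rw [ZMod.natCast_zmod_val, hx]
    have h2 : (r : ZMod q) * (ZMod.unitOfCoprime r hr)⁻¹.val = 1 := by
      have h3 := (ZMod.unitOfCoprime r hr).mul_inv
      rw [ZMod.coe_unitOfCoprime] at h3
      exact h3
    calc (c : ZMod q) - r * (c * (ZMod.unitOfCoprime r hr)⁻¹.val)
        = c - c * (r * (ZMod.unitOfCoprime r hr)⁻¹.val) := by ring
      _ = 0 := by rw [h2]; ring
  rw [ZMod.intCast_zmod_eq_zero_iff_dvd] at h1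
  exact h1

theorem kt {k : ℕ} (hk : 1 ≤ k) (P : ℕ) (δ d : ℝ) (p : Fin k → ℕ) (a : Fin k → ℝ) (RR : Finset ℕ) (b : ℕ → ℝ)
    (hδ : 0 < δ) (hδ1 : δ ≤ 1) (hd : 0 ≤ d) (hp : ∀ j, P < p j ∧ p j ≤ 2 * P) (hRR : ∀ r ∈ RR, r.Prime ∧ P < r ∧ r ≤ 2 * P)
    (hc : δ * P ≤ RR.card) (hP : 8 ≤ δ * P) (hrel : ∀ j, ∀ r ∈ RR, nz (p j * b r - r * a j) ≤ d)
    (hgood : GoodT P (2500 * d / δ ^ 2) p) (hsmall : 2500 * d / δ ^ 2 ≤ 1 / 10) :
    ∃ (w : ℝ) (R1 : Finset ℕ), R1 ⊆ RR ∧ δ ^ 2 * P / 2 ≤ R1.card ∧ ∀ r ∈ R1, nz (b r - r * w) ≤ 1232 * d / (δ * P) := by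
  classical
  obtain ⟨q, hq1, hq2, hq3⟩ := KT_pr P δ d p a RR b hδ hδ1 hd hRR hc hP hrel
  have hP0 : (0 : ℝ) < P := by
    by_contra hcon
    have h1 : (P : ℝ) ≤ 0 := not_lt.1 hcon
    have h2 : δ * P ≤ 0 := mul_nonpos_of_nonneg_of_nonpos hδ.le h1
    linarith
  have hP8 : (8 : ℝ) ≤ P := by
    have h1 : δ * P ≤ 1 * P := mul_le_mul_of_nonneg_right hδ1 hP0.le
    linarith
  have hP1 : 1 ≤ P := by
    have : (1 : ℝ) ≤ P := by linarith
    exact_mod_cast this
  have hq0 : (0 : ℝ) < q := by exact_mod_cast hq1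
  -- `4 q ≤ P`
  have hqP : (4 : ℝ) * q ≤ P := by
    have h1 : 4 * (q * δ) ≤ δ * P := by linarith
    have h2 : δ * (4 * q) ≤ δ * P := by linarith
    exact le_of_mul_le_mul_left h2 hδ
  have hqP' : 4 * q ≤ P := by exact_mod_cast hqP
  set κ1 : ℝ := 16 * d / δ with hκ1
  have hκ10 : 0 ≤ κ1 := by positivity
  -- everything in terms of `D = d / δ ^ 2`
  have hdδ : d / δ ≤ d / δ ^ 2 := by
    apply div_le_div_of_nonneg_left hd (by positivity)
    nlinarith
  have hD0 : 0 ≤ d / δ ^ 2 := by positivity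
  have hDs : 2500 * (d / δ ^ 2) ≤ 1 / 10 := by
    have : 2500 * (d / δ ^ 2) = 2500 * d / δ ^ 2 := by ring
    linarith
  have hκ1D : κ1 ≤ 16 * (d / δ ^ 2) := by
    have : κ1 = 16 * (d / δ) := by rw [hκ1]; ring
    linarith
  have hdκ : d ≤ κ1 := by
    rw [hκ1, le_div_iff₀ hδ]
    nlinarith
  have hκlt : 2500 * d / δ ^ 2 < 1 / 4 := by linarith
  have hgm : ∀ κ' : ℝ, κ' ≤ 2500 * (d / δ ^ 2) → GoodT P κ' p := fun κ' hκ' =>
    good_mono hk P hP1 p hp _ κ' hκlt (by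
      have : 2500 * (d / δ ^ 2) = 2500 * d / δ ^ 2 := by ring
      linarith) hgood
  -- `M`
  set M : ℕ := P / q with hM
  have hMq : M * q ≤ P := Nat.div_mul_le_self P q
  have hMq' : P < (M + 1) * q := by
    have := Nat.lt_div_mul_add (a := P) (b := q) (by omega)
    rw [hM, add_mul, one_mul]
    exact this
  have hM1 : 1 ≤ M := by
    rw [hM, Nat.one_le_div_iff (by omega)]
    omega
  have hMP : M ≤ P := Nat.div_le_self P q
  have hM0 : (0 : ℝ) < M := by exact_mod_cast hM1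
  have hMPr : (M : ℝ) ≤ P := by exact_mod_cast hMP
  have hM1r : (1 : ℝ) ≤ M := by exact_mod_cast hM1
  have h2Mq : (P : ℝ) ≤ 2 * M * q := by
    have h1 : (P : ℝ) < (M + 1) * q := by exact_mod_cast hMq'
    nlinarith
  have hex : ∀ m : ℕ, ∃ B : ℝ, m ≤ M → ∀ j, nz (p j * B - ((m * q : ℕ) : ℝ) * a j) ≤ κ1 := by
    intro m
    by_cases hm : m ≤ M
    · obtain ⟨B, hB⟩ := hq3 m ((Nat.mul_le_mul_right q hm).trans hMq)
      exact ⟨B, fun _ => hB⟩
    · exact ⟨0, fun h => absurd h hm⟩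
  choose B hB using hex
  set ε : ℝ := 3 * κ1 / P with hε
  have hε0 : 0 ≤ ε := by positivity
  have hεP : P * ε = 3 * κ1 := by
    rw [hε]
    field_simp
  have hadd : ∀ m m' : ℕ, m + m' ≤ M → nz (B (m + m') - B m - B m') ≤ ε := by
    intro m m' hmm
    refine hgm (3 * κ1) (by linarith) _ fun j => ?_
    have h1 := hB (m + m') hmm j
    have h2 := hB m (by omega) j
    have h3 := hB m' (by omega) j
    have h4 : (p j : ℝ) * (B (m + m') - B m - B m') =
        ((p j * B (m + m') - (((m + m') * q : ℕ) : ℝ) * a j) - (p j * B m - ((m * q : ℕ) : ℝ) * a j)) -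
          (p j * B m' - ((m' * q : ℕ) : ℝ) * a j) := by
      push_cast
      ring
    rw [h4]
    have h5 := Pool.Agent.H53.MID.nz_sub
      ((p j * B (m + m') - (((m + m') * q : ℕ) : ℝ) * a j) - (p j * B m - ((m * q : ℕ) : ℝ) * a j))
      (p j * B m' - ((m' * q : ℕ) : ℝ) * a j)
    have h6 := Pool.Agent.H53.MID.nz_sub
      (p j * B (m + m') - (((m + m') * q : ℕ) : ℝ) * a j) (p j * B m - ((m * q : ℕ) : ℝ) * a j)
    linarith
  obtain ⟨w', hw'⟩ := KT_lin M hM1 B ε (6 * κ1) (by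
    have h1 : ((M : ℝ) + 1) * ε ≤ (2 * P) * ε := mul_le_mul_of_nonneg_right (by linarith) hε0
    linarith) hε0 (by linarith) hadd
  -- the relation between `w'` and `q a_j`
  have hrel2 : ∀ j, nz (p j * w' - q * a j) ≤ 38 * κ1 * q / P := by
    intro j
    have hpj : (p j : ℝ) ≤ 2 * P := by exact_mod_cast (hp j).2
    have hpj0 : (0 : ℝ) ≤ p j := Nat.cast_nonneg _
    have h1 : ∀ m : ℕ, 1 ≤ m → m ≤ M → nz (m * (p j * w' - q * a j)) ≤ 19 * κ1 := by
      intro m _ hm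
      have h2 := hB m hm j
      have h3 := hw' m hm
      have h4 := Pool.Agent.H53.MID.nz_nat_mul (p j) (B m - m * w')
      have h5 : (m : ℝ) * (p j * w' - q * a j) =
          (p j * B m - ((m * q : ℕ) : ℝ) * a j) - p j * (B m - m * w') := by
        push_cast
        ring
      rw [h5]
      have h6 := Pool.Agent.H53.MID.nz_sub (p j * B m - ((m * q : ℕ) : ℝ) * a j) (p j * (B m - m * w'))
      have h7 : (p j : ℝ) * nz (B m - m * w') ≤ (2 * P) * (3 * ε) :=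
        mul_le_mul hpj h3 (Pool.Agent.H53.MID.nz_nonneg _) (by positivity)
      have h8 : (2 * (P : ℝ)) * (3 * ε) = 18 * κ1 := by
        linear_combination 6 * hεP
      linarith
    have h9 := nz_mult M hM1 (p j * w' - q * a j) (19 * κ1) (by linarith) h1
    rw [le_div_iff₀ hP0]
    have h10 := Pool.Agent.H53.MID.nz_nonneg (p j * w' - q * a j)
    calc nz (p j * w' - q * a j) * P ≤ nz (p j * w' - q * a j) * (2 * M * q) :=
          mul_le_mul_of_nonneg_left h2Mq h10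
      _ = 2 * q * (M * nz (p j * w' - q * a j)) := by ring
      _ ≤ 2 * q * (19 * κ1) := mul_le_mul_of_nonneg_left h9 (by positivity)
      _ = 38 * κ1 * q := by ring
  have hrel3 : ∀ r ∈ RR, nz (q * b r - r * w') ≤ 77 * κ1 * q / P := by
    intro r hr
    have hr2 : (r : ℝ) ≤ 2 * P := by exact_mod_cast (hRR r hr).2.2
    have hκ2 : 77 * κ1 * q ≤ 2500 * (d / δ ^ 2) := by
      have h1 : κ1 * q = 16 * (d / δ ^ 2) * (q * δ) := by
        rw [hκ1]
        field_simp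
      have h2 : 16 * (d / δ ^ 2) * (q * δ) ≤ 16 * (d / δ ^ 2) * 2 :=
        mul_le_mul_of_nonneg_left hq2 (by positivity)
      nlinarith
    refine hgm (77 * κ1 * q) hκ2 _ fun j => ?_
    have h3 : (p j : ℝ) * (q * b r - r * w') = q * (p j * b r - r * a j) - r * (p j * w' - q * a j) := by
      ring
    rw [h3]
    have h4 := Pool.Agent.H53.MID.nz_sub (q * (p j * b r - r * a j)) (r * (p j * w' - q * a j))
    have h5 := Pool.Agent.H53.MID.nz_nat_mul q (p j * b r - r * a j)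
    have h6 := Pool.Agent.H53.MID.nz_nat_mul r (p j * w' - q * a j)
    have h7 : (q : ℝ) * nz (p j * b r - r * a j) ≤ q * κ1 :=
      mul_le_mul_of_nonneg_left ((hrel j r hr).trans hdκ) hq0.le
    have h8 : (r : ℝ) * nz (p j * w' - q * a j) ≤ (2 * P) * (38 * κ1 * q / P) :=
      mul_le_mul hr2 (hrel2 j) (Pool.Agent.H53.MID.nz_nonneg _) (by positivity)
    have h9 : (2 * (P : ℝ)) * (38 * κ1 * q / P) = 76 * κ1 * q := by
      field_simp
      ring
    linarith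
  -- the pigeonhole principle
  have hcop : ∀ r ∈ RR, Nat.Coprime r q := by
    intro r hr
    obtain ⟨h1, h2, -⟩ := hRR r hr
    rw [Nat.Prime.coprime_iff_not_dvd h1]
    intro h3
    have := Nat.le_of_dvd (by omega) h3
    omega
  have hex2 : ∀ r : ℕ, ∃ t : ℕ, r ∈ RR → t ∈ Finset.range q ∧
      ∃ u : ℤ, round (q * b r - r * w') - (r : ℤ) * (t : ℤ) = q * u := by
    intro r
    by_cases hr : r ∈ RR
    · obtain ⟨t, ht, hu⟩ := KT_inv q r hq1 (hcop r hr) (round (q * b r - r * w'))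
      exact ⟨t, fun _ => ⟨ht, hu⟩⟩
    · exact ⟨0, fun h => absurd h hr⟩
  choose t ht using hex2
  obtain ⟨t0, ht0, hcard⟩ : ∃ t0 ∈ Finset.range q,
      RR.card ≤ q * (RR.filter fun r => t r = t0).card := by
    by_contra hcon
    push Not at hcon
    have h1 : RR.card = ∑ t0 ∈ Finset.range q, (RR.filter fun r => t r = t0).card :=
      Finset.card_eq_sum_card_fiberwise fun r hr => (ht r hr).1
    have h2 : q * ∑ t0 ∈ Finset.range q, (RR.filter fun r => t r = t0).card < q * RR.card := by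
      rw [Finset.mul_sum]
      calc ∑ t0 ∈ Finset.range q, q * (RR.filter fun r => t r = t0).card
          < ∑ t0 ∈ Finset.range q, RR.card :=
            Finset.sum_lt_sum_of_nonempty (Finset.nonempty_range_iff.2 (by omega)) hcon
        _ = q * RR.card := by rw [Finset.sum_const, Finset.card_range, smul_eq_mul]
    rw [← h1] at h2
    exact lt_irrefl _ h2
  refine ⟨(w' + t0) / q, RR.filter fun r => t r = t0, Finset.filter_subset _ _, ?_, ?_⟩
  · have h1 : (RR.card : ℝ) ≤ q * ((RR.filter fun r => t r = t0).card : ℝ) := by exact_mod_cast hcard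
    have h2 : δ * P ≤ q * ((RR.filter fun r => t r = t0).card : ℝ) := hc.trans h1
    have h3 : δ * (δ * P) ≤ δ * (q * ((RR.filter fun r => t r = t0).card : ℝ)) :=
      mul_le_mul_of_nonneg_left h2 hδ.le
    have h4 : (q * δ) * ((RR.filter fun r => t r = t0).card : ℝ) ≤
        2 * ((RR.filter fun r => t r = t0).card : ℝ) :=
      mul_le_mul_of_nonneg_right hq2 (Nat.cast_nonneg _)
    nlinarith
  · intro r hr
    obtain ⟨hr1, hr2⟩ := Finset.mem_filter.1 hr
    obtain ⟨-, u, hu⟩ := ht r hr1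
    rw [hr2] at hu
    have h1 := hrel3 r hr1
    have h2 : b r - r * ((w' + t0) / q) =
        (q * b r - r * w' - round (q * b r - r * w')) / q + ((u : ℤ) : ℝ) := by
      have h3 : ((round (q * b r - r * w') : ℤ) : ℝ) = r * t0 + q * u := by
        have h4 : round (q * b r - r * w') = (r : ℤ) * (t0 : ℤ) + q * u := by linarith
        rw [h4]
        push_cast
        ring
      rw [h3]
      field_simp
      ring
    rw [h2, Pool.Agent.H53.MID.nz_add_int]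
    refine (Pool.Agent.H53.MID.nz_le_abs _).trans ?_
    rw [abs_div, abs_of_pos hq0, div_le_iff₀ hq0]
    have h5 : |q * b r - r * w' - round (q * b r - r * w')| ≤ 77 * κ1 * q / P := h1
    refine h5.trans (le_of_eq ?_)
    rw [hκ1]
    field_simp
    ring

end Pool.Agent.H53.TPS
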