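import Pool.Agent.H53.TPS.Defs

/-!
# TPS Tup: a tuple with many common neighbours outside a small exceptional set

Proof.  `deg u = #{v ∈ V : (v, u) ∈ E}`, `∑_{u ∈ V} deg u = |E| ≥ δ P^2`.  Power mean (`inner_le_nnorm_mul_nnorm`, or `Finset.inner_mul_le..`: `inner_le`; in Mathlib `Real.inner_le_nnorm_mul_nnorm`, `inv_mul_sum_pow_le`/`Finset.pow_sum_div_card_le_sum_pow`):
`∑_u deg(u)^k ≥ |E|^k/|V|^(k-1) ≥ δ^k P^(k+1)/b^(k-1)` (`|V| ≤ b P`; `|V| ≥ 1` since `E` is nonempty).  `∑_u deg(u)^k = ∑_{v : Fin k → V} codeg(v)`, `codeg v = #{u ∈ V : ∀ j, (v j, u) ∈ E}` (expand: `Finset.sum_pow'`/`Finset.prod_univ_sum`, or count the pairs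
`(u, v)`: `Fintype.card_piFinset`).  The tuples with `pr ∘ v ∈ Bad` are at most `|Bad| b^k` (`hfib`), each with `codeg ≤ |V| ≤ b P`: contribution `≤ |Bad| b^(k+1) P ≤ δ^k P^(k+1)/(2 b^(k-1))` by `hBad`.  The others are at most `|V|^k ≤ (b P)^k`
and contribute `≥ δ^k P^(k+1)/(2 b^(k-1))`: one of them has `codeg ≥ δ^k P/(2 b^(2k-1)) ≥ δ^k P/(2 b^(2k))`.
-/

set_option autoImplicit false

namespace Pool.Agent.H53.TPS

open Finset

private theorem Tup_expand {ι : Type*} [DecidableEq ι] (k : ℕ) (V : Finset ι) (E : Finset (ι × ι)) :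
    ∑ u ∈ V, ((V.filter (fun w => (w, u) ∈ E)).card : ℝ) ^ k
      = ∑ v ∈ Fintype.piFinset (fun _ : Fin k => V),
          ((V.filter (fun u => ∀ j, (v j, u) ∈ E)).card : ℝ) := by
  have h1 : ∀ u ∈ V, ((V.filter (fun w => (w, u) ∈ E)).card : ℝ) ^ k
      = ∑ v ∈ Fintype.piFinset (fun _ : Fin k => V), ∏ j, (if (v j, u) ∈ E then (1 : ℝ) else 0) := by
    intro u _
    have e1 : ((V.filter (fun w => (w, u) ∈ E)).card : ℝ)
        = ∑ w ∈ V, (if (w, u) ∈ E then (1 : ℝ) else 0) := by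
      rw [Finset.card_filter]
      push_cast
      rfl
    rw [e1, Finset.sum_pow']
  rw [Finset.sum_congr rfl h1, Finset.sum_comm]
  refine Finset.sum_congr rfl (fun v _ => ?_)
  rw [Finset.card_filter]
  push_cast
  refine Finset.sum_congr rfl (fun u _ => ?_)
  by_cases h : ∀ j, (v j, u) ∈ E
  · rw [if_pos h]
    exact Finset.prod_eq_one (fun j _ => if_pos (h j))
  · rw [if_neg h]
    push Not at h
    obtain ⟨j, hj⟩ := h
    exact Finset.prod_eq_zero (Finset.mem_univ j) (if_neg hj)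

private theorem Tup_deg {ι : Type*} [DecidableEq ι] (V : Finset ι) (E : Finset (ι × ι)) (hE : E ⊆ V ×ˢ V) :
    ∑ u ∈ V, ((V.filter (fun w => (w, u) ∈ E)).card : ℝ) = (E.card : ℝ) := by
  have h1 : ∀ u ∈ V, ((V.filter (fun w => (w, u) ∈ E)).card : ℝ)
      = ∑ w ∈ V, (if (w, u) ∈ E then (1 : ℝ) else 0) := by
    intro u _
    rw [Finset.card_filter]
    push_cast
    rfl
  rw [Finset.sum_congr rfl h1, Finset.sum_comm, ← Finset.sum_product', ← Finset.sum_filter]
  have h2 : (V ×ˢ V).filter (fun x : ι × ι => (x.1, x.2) ∈ E) = E := by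
    ext x
    simp only [Finset.mem_filter]
    exact ⟨fun h => h.2, fun h => ⟨hE h, h⟩⟩
  rw [h2]
  simp

private theorem Tup_bad {ι : Type*} [DecidableEq ι] (k : ℕ) (V : Finset ι) (pr : ι → ℕ)
    (Bad : Finset (Fin k → ℕ)) (b : ℝ)
    (hfib : ∀ p : ℕ, ((V.filter (fun u => pr u = p)).card : ℝ) ≤ b) :
    (((Fintype.piFinset (fun _ : Fin k => V)).filter (fun v => (fun j => pr (v j)) ∈ Bad)).card : ℝ)
      ≤ Bad.card * b ^ k := by
  have h1 : ((Fintype.piFinset (fun _ : Fin k => V)).filter (fun v => (fun j => pr (v j)) ∈ Bad)).card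
      ≤ ∑ q ∈ Bad, (Fintype.piFinset (fun j : Fin k => V.filter (fun u => pr u = q j))).card := by
    refine (Finset.card_le_card ?_).trans Finset.card_biUnion_le
    intro v hv
    rw [Finset.mem_filter, Fintype.mem_piFinset] at hv
    rw [Finset.mem_biUnion]
    refine ⟨fun j => pr (v j), hv.2, ?_⟩
    rw [Fintype.mem_piFinset]
    intro j
    rw [Finset.mem_filter]
    exact ⟨hv.1 j, rfl⟩
  have h2 : ∀ q ∈ Bad, ((Fintype.piFinset (fun j : Fin k => V.filter (fun u => pr u = q j))).card : ℝ)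
      ≤ b ^ k := by
    intro q _
    rw [Fintype.card_piFinset]
    push_cast
    calc ∏ j : Fin k, ((V.filter (fun u => pr u = q j)).card : ℝ)
        ≤ ∏ _j : Fin k, b := Finset.prod_le_prod (fun _ _ => Nat.cast_nonneg _) (fun j _ => hfib (q j))
      _ = b ^ k := by rw [Finset.prod_const, Finset.card_univ, Fintype.card_fin]
  calc (((Fintype.piFinset (fun _ : Fin k => V)).filter (fun v => (fun j => pr (v j)) ∈ Bad)).card : ℝ)
      ≤ ((∑ q ∈ Bad, (Fintype.piFinset (fun j : Fin k => V.filter (fun u => pr u = q j))).card : ℕ) : ℝ) := by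
        exact_mod_cast h1
    _ = ∑ q ∈ Bad, ((Fintype.piFinset (fun j : Fin k => V.filter (fun u => pr u = q j))).card : ℝ) := by
        push_cast
        rfl
    _ ≤ ∑ _q ∈ Bad, b ^ k := Finset.sum_le_sum h2
    _ = Bad.card * b ^ k := by rw [Finset.sum_const, nsmul_eq_mul]

theorem tup {ι : Type*} [DecidableEq ι] (k : ℕ) (hk : 1 ≤ k) (V : Finset ι) (pr : ι → ℕ) (E : Finset (ι × ι))
    (Bad : Finset (Fin k → ℕ)) (b P δ : ℝ) (hb : 1 ≤ b) (hP : 0 < P) (hδ : 0 < δ) (hV : (V.card : ℝ) ≤ b * P)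
    (hfib : ∀ p : ℕ, ((V.filter (fun u => pr u = p)).card : ℝ) ≤ b) (hE : E ⊆ V ×ˢ V) (hcard : δ * P ^ 2 ≤ E.card)
    (hBad : 2 * b ^ (2 * k) * (Bad.card : ℝ) ≤ δ ^ k * P ^ k) :
    ∃ v : Fin k → ι, (∀ j, v j ∈ V) ∧ (fun j => pr (v j)) ∉ Bad ∧
      δ ^ k * P ≤ 2 * b ^ (2 * k) * ((V.filter (fun u => ∀ j, (v j, u) ∈ E)).card : ℝ) := by
  classical
  obtain ⟨m, rfl⟩ : ∃ m, k = m + 1 := ⟨k - 1, by omega⟩
  have hb0 : 0 < b := lt_of_lt_of_le one_pos hb
  have hE0 : 0 < (E.card : ℝ) := lt_of_lt_of_le (by positivity) hcard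
  have hVne : V.Nonempty := by
    have hEne : E.Nonempty := by
      rw [← Finset.card_pos]
      exact_mod_cast hE0
    obtain ⟨x, hx⟩ := hEne
    exact ⟨x.1, (Finset.mem_product.mp (hE hx)).1⟩
  have hV0 : 0 < (V.card : ℝ) := by
    have := hVne.card_pos
    exact_mod_cast this
  by_contra hcon
  push Not at hcon
  set W : Finset (Fin (m + 1) → ι) := Fintype.piFinset (fun _ : Fin (m + 1) => V) with hW
  set cd : (Fin (m + 1) → ι) → ℝ := fun v => ((V.filter (fun u => ∀ j, (v j, u) ∈ E)).card : ℝ) with hcd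
  -- lower bound
  have hlow : δ ^ (m + 1) * P ^ (m + 2) / b ^ m ≤ ∑ v ∈ W, cd v := by
    have h1 := pow_sum_div_card_le_sum_pow (s := V) (f := fun u => ((V.filter (fun w => (w, u) ∈ E)).card : ℝ))
      (fun u _ => Nat.cast_nonneg _) m
    rw [Tup_deg V E hE, Tup_expand (m + 1) V E] at h1
    refine le_trans ?_ h1
    rw [div_le_div_iff₀ (by positivity) (by positivity)]
    calc δ ^ (m + 1) * P ^ (m + 2) * (V.card : ℝ) ^ m
        ≤ δ ^ (m + 1) * P ^ (m + 2) * (b * P) ^ m := by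
          apply mul_le_mul_of_nonneg_left _ (by positivity)
          exact pow_le_pow_left₀ hV0.le hV m
      _ = (δ * P ^ 2) ^ (m + 1) * b ^ m := by ring
      _ ≤ (E.card : ℝ) ^ (m + 1) * b ^ m := by
          apply mul_le_mul_of_nonneg_right _ (by positivity)
          exact pow_le_pow_left₀ (by positivity) hcard (m + 1)
  -- upper bound
  have hsplit := Finset.sum_filter_add_sum_filter_not W (fun v => (fun j => pr (v j)) ∈ Bad) cd
  have hB : ∑ v ∈ W.filter (fun v => (fun j => pr (v j)) ∈ Bad), cd v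
      ≤ (Bad.card * b ^ (m + 1)) * (b * P) := by
    calc ∑ v ∈ W.filter (fun v => (fun j => pr (v j)) ∈ Bad), cd v
        ≤ ∑ _v ∈ W.filter (fun v => (fun j => pr (v j)) ∈ Bad), b * P := by
          refine Finset.sum_le_sum (fun v _ => ?_)
          refine le_trans ?_ hV
          have h9 : (V.filter (fun u => ∀ j, (v j, u) ∈ E)).card ≤ V.card :=
            Finset.card_le_card (Finset.filter_subset _ _)
          exact Nat.cast_le.mpr h9
      _ = ((W.filter (fun v => (fun j => pr (v j)) ∈ Bad)).card : ℝ) * (b * P) := by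
          rw [Finset.sum_const, nsmul_eq_mul]
      _ ≤ (Bad.card * b ^ (m + 1)) * (b * P) := by
          apply mul_le_mul_of_nonneg_right _ (by positivity)
          exact Tup_bad (m + 1) V pr Bad b hfib
  have hWc : (W.card : ℝ) ≤ (b * P) ^ (m + 1) := by
    rw [hW, Fintype.card_piFinset]
    push_cast
    rw [Finset.prod_const, Finset.card_univ, Fintype.card_fin]
    exact pow_le_pow_left₀ hV0.le hV (m + 1)
  have hG : 2 * b ^ (2 * (m + 1)) * ∑ v ∈ W.filter (fun v => ¬ (fun j => pr (v j)) ∈ Bad), cd v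
      < (b * P) ^ (m + 1) * (δ ^ (m + 1) * P) := by
    rcases (W.filter (fun v => ¬ (fun j => pr (v j)) ∈ Bad)).eq_empty_or_nonempty with h0 | h0
    · rw [h0, Finset.sum_empty, mul_zero]
      positivity
    · rw [Finset.mul_sum]
      have h1 : ∑ v ∈ W.filter (fun v => ¬ (fun j => pr (v j)) ∈ Bad), 2 * b ^ (2 * (m + 1)) * cd v
          < ∑ _v ∈ W.filter (fun v => ¬ (fun j => pr (v j)) ∈ Bad), δ ^ (m + 1) * P := by
        refine Finset.sum_lt_sum_of_nonempty h0 (fun v hv => ?_)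
        rw [Finset.mem_filter, hW, Fintype.mem_piFinset] at hv
        exact hcon v hv.1 hv.2
      refine lt_of_lt_of_le h1 ?_
      rw [Finset.sum_const, nsmul_eq_mul]
      apply mul_le_mul_of_nonneg_right _ (by positivity)
      refine le_trans ?_ hWc
      exact_mod_cast Finset.card_le_card (Finset.filter_subset _ _)
  have hbp : (1 : ℝ) ≤ b ^ (m + 1) := one_le_pow₀ hb
  have hbm : (0 : ℝ) < b ^ m := by positivity
  -- multiply by 2 b^(2(m+1))
  have hA : 2 * b ^ (2 * (m + 1)) * (δ ^ (m + 1) * P ^ (m + 2) / b ^ m)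
      = 2 * b ^ (m + 2) * (δ ^ (m + 1) * P ^ (m + 2)) := by
    rw [mul_div_assoc', div_eq_iff hbm.ne']
    ring
  have hBB : 2 * b ^ (2 * (m + 1)) * ((Bad.card * b ^ (m + 1)) * (b * P))
      ≤ b ^ (m + 2) * (δ ^ (m + 1) * P ^ (m + 2)) := by
    calc 2 * b ^ (2 * (m + 1)) * ((Bad.card * b ^ (m + 1)) * (b * P))
        = (2 * b ^ (2 * (m + 1)) * (Bad.card : ℝ)) * (b ^ (m + 2) * P) := by ring
      _ ≤ (δ ^ (m + 1) * P ^ (m + 1)) * (b ^ (m + 2) * P) := by
          apply mul_le_mul_of_nonneg_right hBad (by positivity)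
      _ = b ^ (m + 2) * (δ ^ (m + 1) * P ^ (m + 2)) := by ring
  have hGG : (b * P) ^ (m + 1) * (δ ^ (m + 1) * P) ≤ b ^ (m + 2) * (δ ^ (m + 1) * P ^ (m + 2)) := by
    calc (b * P) ^ (m + 1) * (δ ^ (m + 1) * P)
        = b ^ (m + 1) * (δ ^ (m + 1) * P ^ (m + 2)) := by ring
      _ ≤ b ^ (m + 2) * (δ ^ (m + 1) * P ^ (m + 2)) := by
          apply mul_le_mul_of_nonneg_right _ (by positivity)
          exact pow_le_pow_right₀ hb (by omega)
  have hfin : 2 * b ^ (2 * (m + 1)) * (δ ^ (m + 1) * P ^ (m + 2) / b ^ m)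
      ≤ 2 * b ^ (2 * (m + 1)) * ∑ v ∈ W, cd v :=
    mul_le_mul_of_nonneg_left hlow (by positivity)
  rw [hA, ← hsplit, mul_add] at hfin
  have hB2 : 2 * b ^ (2 * (m + 1)) * ∑ v ∈ W.filter (fun v => (fun j => pr (v j)) ∈ Bad), cd v
      ≤ 2 * b ^ (2 * (m + 1)) * ((Bad.card * b ^ (m + 1)) * (b * P)) :=
    mul_le_mul_of_nonneg_left hB (by positivity)
  linarith

end Pool.Agent.H53.TPS
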