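import Pool.Agent.H53.MID.Edges
import Pool.Agent.H53.TPS.KT
import Pool.Agent.H53.TPS.BadT
import Pool.Agent.H53.TPS.Tup

/-!
# TPS ClimbT: one step to a larger scale, for all `η ≤ N^(-ε)`

Proof (compare `Pool.Agent.H53.MID.climb`, file `H53/MID/Climb.lean`, complete).  `edges` gives `D1` and `F''`.  For `M ∈ F''` apply `tup` to `V = VM C P F M`, `pr = Prod.fst`, `E = EM C P F R M`, `b = 4C+3`, `δ1 := δ^2/D1` (`VM_fib`, `VM_card`), `k`,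
`Bad = BadS k P κ`, `κ = 2500 d/δ3^2`, `d = 2 η`, `δ2 = δ1^k/(2 b^(2k))`, `δ3 = δ2/b`.  `badS_card` (`k = (k-1) + 1`): `|Bad| ≤ 2 P^2 (12 κ P + 1)^(k-1) ≤ 2^k P^2 ((12 κ P)^(k-1) + 1)`, so `hBad` follows from `2^(k+1) b^(2k) 2 (12 κ)^(k-1) P ≤ δ1^k` and
`2^(k+1) b^(2k) 2 P^2 ≤ δ1^k P^k`; the first from `D η^(k-1) P ≤ δ^e` (`κ = 5000 η/δ3^2`), the second from `k ≥ 3`, `D ≤ δ^e P` (`D`, `e` large; `δ ≤ 1`).
We get `v_j = (p_j, K_j)`, the tuple `p` is `GoodT P κ` (its entries are primes of `(P, 2P]`), and `U` = the common neighbours `u = (r, K)`, `|U| ≥ δ2 P`.  An edge `(v_j, u) ∈ EM` gives (with its `G`) `nz (r α(K_j) - α'(G)) ≤ η`, `nz (p_j α(K) - α'(G)) ≤ η`, so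
`nz (p_j α(K) - r α(K_j)) ≤ 2 η = d`.  For every `r` in the image `RR` of `U` under `Prod.fst` choose `K_r` with `(r, K_r) ∈ U`; `|RR| ≥ |U|/b ≥ δ3 P`.  `kt` with `a_j = α(K_j)`, `b_r = α(K_r)`, `δ = δ3` (`8 ≤ δ3 P`, `κ ≤ 1/10` from `D η ≤ δ^e`):
`w` and `R1 ⊆ RR`, `|R1| ≥ δ3^2 P/2`, `nz (α(K_r) - r w) ≤ 2464 η/(δ3 P)`.  Put `α''(M) = w`, triples `(M, r, K_r)`, `r ∈ R1`; `|K_r r - M P| ≤ (2C+1) P` by the definition of `VM`.
-/

set_option autoImplicit false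

namespace Pool.Agent.H53.TPS

open Finset
open Pool.Agent.H53.MID

private theorem ClimbT_edge (C : ℝ) (n P : ℕ) (η : ℝ) (F F' : Finset ℕ) (α α' : ℕ → ℝ)
    (R : Finset (ℕ × ℕ × ℕ)) (h : Rel C n P η F F' α α' R) (M : ℕ) (v u : ℕ × ℕ)
    (he : (v, u) ∈ EM C P F R M) :
    nz ((v.1 : ℝ) * α u.2 - (u.1 : ℝ) * α v.2) ≤ 2 * η := by
  classical
  unfold EM at he
  rw [Finset.mem_filter] at he
  obtain ⟨_, _, G, h1, h2⟩ := he
  have f1 := h.freq _ h1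
  have f2 := h.freq _ h2
  simp only at f1 f2
  have f3 : nz (α' G - (u.1 : ℝ) * α v.2) ≤ η := by
    rw [← nz_neg]
    have : -(α' G - (u.1 : ℝ) * α v.2) = (u.1 : ℝ) * α v.2 - α' G := by ring
    rw [this]
    exact f1
  calc nz ((v.1 : ℝ) * α u.2 - (u.1 : ℝ) * α v.2)
      ≤ nz ((v.1 : ℝ) * α u.2 - α' G) + nz (α' G - (u.1 : ℝ) * α v.2) := nz_triangle _ _ _
    _ ≤ η + η := add_le_add f2 f3
    _ = 2 * η := by ring

private theorem ClimbT_vm (C : ℝ) (P : ℕ) (F : Finset ℕ) (M : ℕ) (v : ℕ × ℕ) (hv : v ∈ VM C P F M) :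
    v.1.Prime ∧ (P < v.1 ∧ v.1 ≤ 2 * P) ∧ v.2 ∈ F ∧ |(v.2 : ℝ) * v.1 - M * P| ≤ (2 * C + 1) * P := by
  unfold VM at hv
  rw [Finset.mem_filter, Finset.mem_product, Finset.mem_filter, Finset.mem_Ioc] at hv
  exact ⟨hv.1.1.2, hv.1.1.1, hv.1.2, hv.2⟩

private theorem ClimbT_one (C b δ1 δ3 : ℝ) (hC : 1 ≤ C) (hb : b = 4 * C + 3) (k : ℕ) (hk : 3 ≤ k) (n P : ℕ) (η : ℝ)
    (F F' : Finset ℕ) (α α' : ℕ → ℝ) (R : Finset (ℕ × ℕ × ℕ)) (h : Rel C n P η F F' α α' R)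
    (hη : 0 ≤ η) (hP : 1 ≤ P) (hδ1 : 0 < δ1) (hδ3 : 0 < δ3) (hδ31 : δ3 ≤ 1)
    (hδδ : δ1 ^ k = δ3 * b * (2 * b ^ (2 * k)))
    (hκ : 2500 * (2 * η) / δ3 ^ 2 ≤ 1 / 10) (h8 : 8 ≤ δ3 * P)
    (hBad : 2 * b ^ (2 * k) * ((BadS k P (2500 * (2 * η) / δ3 ^ 2)).card : ℝ) ≤ δ1 ^ k * (P : ℝ) ^ k)
    (M : ℕ) (hcard : δ1 * (P : ℝ) ^ 2 ≤ (EM C P F R M).card) :
    ∃ (w : ℝ) (U : Finset (ℕ × ℕ)), U ⊆ VM C P F M ∧
      (∀ u ∈ U, nz ((u.1 : ℝ) * w - α u.2) ≤ 1232 * (2 * η) / (δ3 * P)) ∧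
      δ3 ^ 2 * P / 2 ≤ (U.card : ℝ) := by
  classical
  have hPr : (0 : ℝ) < P := by exact_mod_cast hP
  have hb1 : (1 : ℝ) ≤ b := by linarith
  have hb0 : (0 : ℝ) < b := by linarith
  have hEsub : EM C P F R M ⊆ VM C P F M ×ˢ VM C P F M := by
    unfold EM
    exact Finset.filter_subset _ _
  obtain ⟨v, hv, hgood, hU⟩ := tup k (by omega) (VM C P F M) (Prod.fst : ℕ × ℕ → ℕ) (EM C P F R M)
    (BadS k P (2500 * (2 * η) / δ3 ^ 2)) b P δ1 hb1 hPr hδ1 (by rw [hb]; exact VM_card C hC P F M hP)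
    (fun p => by rw [hb]; exact VM_fib C hC P F M p hP) hEsub hcard hBad
  set U0 := (VM C P F M).filter (fun u => ∀ j, (v j, u) ∈ EM C P F R M) with hU0
  have hU0mem : ∀ u ∈ U0, u ∈ VM C P F M ∧ ∀ j, (v j, u) ∈ EM C P F R M := by
    intro u hu
    rw [hU0, Finset.mem_filter] at hu
    exact hu
  obtain ⟨RR, hRRdef⟩ : ∃ RR : Finset ℕ, RR = U0.image Prod.fst := ⟨_, rfl⟩
  have hex : ∀ r : ℕ, r ∈ RR → ∃ K : ℕ, (r, K) ∈ U0 := by
    intro r hr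
    rw [hRRdef, Finset.mem_image] at hr
    obtain ⟨u, hu, rfl⟩ := hr
    exact ⟨u.2, hu⟩
  choose! Kf hKf using hex
  have hcardU0 : (U0.card : ℝ) ≤ b * RR.card := by
    have h1 : U0.card = ∑ r ∈ RR, (U0.filter (fun u => u.1 = r)).card := by
      apply Finset.card_eq_sum_card_fiberwise
      intro u hu
      rw [Finset.mem_coe, hRRdef]
      exact Finset.mem_image_of_mem _ hu
    rw [h1]
    push_cast
    calc ∑ r ∈ RR, ((U0.filter (fun u => u.1 = r)).card : ℝ) ≤ ∑ _r ∈ RR, b := by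
          apply Finset.sum_le_sum
          intro r _
          have h2 : ((U0.filter (fun u => u.1 = r)).card : ℝ) ≤
              (((VM C P F M).filter (fun u => u.1 = r)).card : ℝ) := by
            exact_mod_cast Finset.card_le_card (Finset.filter_subset_filter _ (Finset.filter_subset _ _))
          refine h2.trans ?_
          rw [hb]
          exact VM_fib C hC P F M r hP
      _ = b * RR.card := by rw [Finset.sum_const, nsmul_eq_mul, mul_comm]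
  have hcRR : δ3 * P ≤ (RR.card : ℝ) := by
    have hBpos : 0 < 2 * b ^ (2 * k) := by positivity
    have h1 : δ3 * b * (2 * b ^ (2 * k)) * P ≤ 2 * b ^ (2 * k) * (U0.card : ℝ) := by
      rw [← hδδ]; exact hU
    have h2 : δ3 * b * P ≤ (U0.card : ℝ) := by
      have h3 : 2 * b ^ (2 * k) * (δ3 * b * P) ≤ 2 * b ^ (2 * k) * (U0.card : ℝ) := by
        refine le_trans (le_of_eq ?_) h1
        ring
      exact le_of_mul_le_mul_left h3 hBpos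
    have h4 : b * (δ3 * P) ≤ b * RR.card := by
      refine le_trans (le_of_eq ?_) (h2.trans hcardU0)
      ring
    exact le_of_mul_le_mul_left h4 hb0
  have hRRp : ∀ r ∈ RR, r.Prime ∧ P < r ∧ r ≤ 2 * P := by
    intro r hr
    obtain ⟨a1, a2, -, -⟩ := ClimbT_vm C P F M _ (hU0mem _ (hKf r hr)).1
    exact ⟨a1, a2.1, a2.2⟩
  have hpj : ∀ j, P < (v j).1 ∧ (v j).1 ≤ 2 * P := fun j => (ClimbT_vm C P F M _ (hv j)).2.1
  have hgoodT : GoodT P (2500 * (2 * η) / δ3 ^ 2) (fun j => (v j).1) := by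
    by_contra hcon
    apply hgood
    rw [mem_BadS]
    refine ⟨fun j => ?_, hcon⟩
    obtain ⟨a1, a2, -, -⟩ := ClimbT_vm C P F M _ (hv j)
    exact ⟨a2.1, a2.2, a1⟩
  obtain ⟨w, R1, hR1, hR1c, hR1f⟩ := kt (k := k) (by omega) P δ3 (2 * η) (fun j => (v j).1)
    (fun j => α (v j).2) RR (fun r => α (Kf r)) hδ3 hδ31 (by positivity) hpj hRRp hcRR h8
    (fun j r hr => ClimbT_edge C n P η F F' α α' R h M (v j) (r, Kf r) ((hU0mem _ (hKf r hr)).2 j))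
    hgoodT hκ
  refine ⟨w, R1.image (fun r => (r, Kf r)), ?_, ?_, ?_⟩
  · intro u hu
    rw [Finset.mem_image] at hu
    obtain ⟨r, hr, rfl⟩ := hu
    exact (hU0mem _ (hKf r (hR1 hr))).1
  · intro u hu
    rw [Finset.mem_image] at hu
    obtain ⟨r, hr, rfl⟩ := hu
    have h1 := hR1f r hr
    rw [← nz_neg]
    have h2 : -(((r, Kf r) : ℕ × ℕ).1 * w - α ((r, Kf r) : ℕ × ℕ).2) = α (Kf r) - r * w := by
      simp only
      ring
    rw [h2]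
    exact h1
  · rw [Finset.card_image_of_injOn]
    · exact hR1c
    · intro r _ r' _ he
      exact (Prod.mk.inj he).1

private theorem ClimbT_pow (x : ℝ) (hx : 0 ≤ x) (m : ℕ) : (x + 1) ^ m ≤ 2 ^ m * (x ^ m + 1) := by
  rcases le_total x 1 with h | h
  · calc (x + 1) ^ m ≤ 2 ^ m := pow_le_pow_left₀ (by linarith) (by linarith) m
      _ ≤ 2 ^ m * (x ^ m + 1) := by
          have h1 : 0 ≤ x ^ m := by positivity
          have h2 : (0 : ℝ) < 2 ^ m := by positivity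
          nlinarith
  · calc (x + 1) ^ m ≤ (2 * x) ^ m := pow_le_pow_left₀ (by linarith) (by linarith) m
      _ = 2 ^ m * x ^ m := by rw [mul_pow]
      _ ≤ 2 ^ m * (x ^ m + 1) := by
          have h2 : (0 : ℝ) < 2 ^ m := by positivity
          nlinarith

/-- the bound for the bad tuples -/
private theorem ClimbT_bad (b δ1 κ : ℝ) (k' P : ℕ) (hk : 2 ≤ k') (hb : 1 ≤ b) (hδ1 : 0 < δ1) (hκ0 : 0 ≤ κ)
    (hκ : κ ≤ 1 / 10) (hP : 1 ≤ P)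
    (h1 : 2 ^ (k' + 3) * b ^ (2 * (k' + 1)) * ((12 * κ) ^ k' * P) ≤ δ1 ^ (k' + 1))
    (h2 : 2 ^ (k' + 3) * b ^ (2 * (k' + 1)) ≤ δ1 ^ (k' + 1) * P) :
    2 * b ^ (2 * (k' + 1)) * ((BadS (k' + 1) P κ).card : ℝ) ≤ δ1 ^ (k' + 1) * (P : ℝ) ^ (k' + 1) := by
  have hPr : (1 : ℝ) ≤ P := by exact_mod_cast hP
  have hP0 : (0 : ℝ) < P := by linarith
  have hB0 : 0 < b ^ (2 * (k' + 1)) := by positivity
  have hc := badS_card k' P κ hP hκ0 hκ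
  have hp := ClimbT_pow (12 * κ * P) (by positivity) k'
  have e1 : 2 * b ^ (2 * (k' + 1)) * ((BadS (k' + 1) P κ).card : ℝ) ≤
      2 * b ^ (2 * (k' + 1)) * (2 * P ^ 2 * (2 ^ k' * ((12 * κ * P) ^ k' + 1))) := by
    apply mul_le_mul_of_nonneg_left _ (by positivity)
    refine hc.trans ?_
    exact mul_le_mul_of_nonneg_left hp (by positivity)
  refine e1.trans ?_
  have e2 : 2 * b ^ (2 * (k' + 1)) * (2 * P ^ 2 * (2 ^ k' * ((12 * κ * P) ^ k' + 1))) =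
      (2 ^ (k' + 3) * b ^ (2 * (k' + 1)) * ((12 * κ) ^ k' * P)) * (P : ℝ) ^ (k' + 1) / 2 +
      (2 ^ (k' + 3) * b ^ (2 * (k' + 1))) * (P : ℝ) ^ 2 / 2 := by
    rw [mul_pow (12 * κ) (P : ℝ) k']
    ring
  rw [e2]
  have e3 : (2 ^ (k' + 3) * b ^ (2 * (k' + 1)) * ((12 * κ) ^ k' * P)) * (P : ℝ) ^ (k' + 1) ≤
      δ1 ^ (k' + 1) * (P : ℝ) ^ (k' + 1) := mul_le_mul_of_nonneg_right h1 (by positivity)
  have e4 : (2 ^ (k' + 3) * b ^ (2 * (k' + 1))) * (P : ℝ) ^ 2 ≤ δ1 ^ (k' + 1) * (P : ℝ) ^ (k' + 1) := by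
    calc (2 ^ (k' + 3) * b ^ (2 * (k' + 1))) * (P : ℝ) ^ 2 ≤ (δ1 ^ (k' + 1) * P) * (P : ℝ) ^ 2 :=
          mul_le_mul_of_nonneg_right h2 (by positivity)
      _ = δ1 ^ (k' + 1) * (P : ℝ) ^ 3 := by ring
      _ ≤ δ1 ^ (k' + 1) * (P : ℝ) ^ (k' + 1) := by
          apply mul_le_mul_of_nonneg_left _ (by positivity)
          exact pow_le_pow_right₀ hPr (by omega)
  linarith

theorem climb_t (C : ℝ) (hC : 1 ≤ C) (k : ℕ) (hk : 3 ≤ k) : ∃ (D : ℝ) (e : ℕ), C ≤ D ∧ ∀ (n P : ℕ) (δ η : ℝ) (F F' : Finset ℕ)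
    (α α' : ℕ → ℝ) (R : Finset (ℕ × ℕ × ℕ)), Rel C n P η F F' α α' R → 0 < δ → δ ≤ 1 → 0 ≤ η → D * η ≤ δ ^ e →
    D * η ^ (k - 1) * P ≤ δ ^ e → D ≤ δ ^ e * P → 1 ≤ n → δ * n * P ≤ R.card →
    ∃ (F'' : Finset ℕ) (α'' : ℕ → ℝ) (R'' : Finset (ℕ × ℕ × ℕ)), Rel D n P (D * η / (δ ^ e * P)) F'' F α'' α R'' ∧
      δ ^ e / D * n ≤ F''.card ∧
      ∀ M ∈ F'', δ ^ e / D * P ≤ ((R''.filter (fun t => t.1 = M)).card : ℝ) := by
  classical
  obtain ⟨D1, hCD1, hedges⟩ := edges C hC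
  have hD1pos : 0 < D1 := by linarith
  have hD1one : 1 ≤ D1 := by linarith
  obtain ⟨b, hb⟩ : ∃ b : ℝ, b = 4 * C + 3 := ⟨_, rfl⟩
  have hb1 : (1 : ℝ) ≤ b := by linarith
  have hb0 : (0 : ℝ) < b := by linarith
  obtain ⟨k', rfl⟩ : ∃ k' : ℕ, k = k' + 1 := ⟨k - 1, by omega⟩
  have hk' : 2 ≤ k' := by omega
  simp only [Nat.add_sub_cancel]
  obtain ⟨A, hA⟩ : ∃ A : ℝ, A = 2 * D1 ^ (k' + 1) * b ^ (2 * (k' + 1)) * b := ⟨_, rfl⟩
  have hA0 : 0 < A := by rw [hA]; positivity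
  have hA1 : 1 ≤ A := by
    have h1 : (1 : ℝ) ≤ D1 ^ (k' + 1) := one_le_pow₀ hD1one
    have h2 : (1 : ℝ) ≤ b ^ (2 * (k' + 1)) := one_le_pow₀ hb1
    rw [hA]
    have h3 : (1 : ℝ) ≤ D1 ^ (k' + 1) * b ^ (2 * (k' + 1)) := one_le_mul_of_one_le_of_one_le h1 h2
    have h4 : (1 : ℝ) ≤ D1 ^ (k' + 1) * b ^ (2 * (k' + 1)) * b := one_le_mul_of_one_le_of_one_le h3 hb1
    linarith
  obtain ⟨X1, hX1⟩ : ∃ X : ℝ, X = 2 ^ (k' + 3) * b ^ (2 * (k' + 1)) * 60000 ^ k' * D1 ^ (k' + 1) * A ^ (2 * k') :=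
    ⟨_, rfl⟩
  obtain ⟨X2, hX2⟩ : ∃ X : ℝ, X = 2 ^ (k' + 3) * b ^ (2 * (k' + 1)) * D1 ^ (k' + 1) := ⟨_, rfl⟩
  have hX1p : 0 < X1 := by rw [hX1]; positivity
  have hX2p : 0 < X2 := by rw [hX2]; positivity
  have hA2p : 0 < A ^ 2 := by positivity
  obtain ⟨D, hD⟩ : ∃ D : ℝ, D = X1 + X2 + 50000 * A ^ 2 + 2464 * A + D1 + (2 * C + 1) := ⟨_, rfl⟩
  obtain ⟨e, he⟩ : ∃ e : ℕ, e = 2 * (k' + 1) + 4 * (k' + 1) * k' + 4 := ⟨_, rfl⟩
  have hDp : 0 < D := by rw [hD]; positivity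
  have hDC : 2 * C + 1 ≤ D := by rw [hD]; linarith
  have hDD1 : D1 ≤ D := by rw [hD]; linarith
  have hCD : C ≤ D := by linarith
  refine ⟨D, e, hCD, ?_⟩
  intro n P δ η F F' α α' R hRel hδ hδ1 hη hDη hDη2 hDP hn hcard
  have hδe : 0 < δ ^ e := by positivity
  have hPpos : 1 ≤ P := by
    rcases Nat.eq_zero_or_pos P with h0 | h0
    · subst h0
      simp only [Nat.cast_zero, mul_zero] at hDP
      linarith
    · exact h0
  have hPr : (0 : ℝ) < P := by exact_mod_cast hPpos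
  have hpw : ∀ j : ℕ, j ≤ e → δ ^ e ≤ δ ^ j := fun j hj => pow_le_pow_of_le_one hδ.le hδ1 hj
  obtain ⟨F'', hF1, hF2, hF3⟩ := hedges n P δ η F F' α α' R hRel hδ hδ1
    ((hDD1.trans hDP).trans (mul_le_mul_of_nonneg_right (hpw 4 (by omega)) hPr.le)) hn hcard
  -- parameters
  obtain ⟨δ1, hδ1def⟩ : ∃ x : ℝ, x = δ ^ 2 / D1 := ⟨_, rfl⟩
  obtain ⟨δ3, hδ3def⟩ : ∃ x : ℝ, x = δ ^ (2 * (k' + 1)) / A := ⟨_, rfl⟩
  have hδ1pos : 0 < δ1 := by rw [hδ1def]; positivity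
  have hδ3pos : 0 < δ3 := by rw [hδ3def]; positivity
  have hδ3one : δ3 ≤ 1 := by
    rw [hδ3def, div_le_one hA0]
    exact (pow_le_one₀ hδ.le hδ1).trans hA1
  have hδ1k : δ1 ^ (k' + 1) = δ ^ (2 * (k' + 1)) / D1 ^ (k' + 1) := by
    rw [hδ1def, div_pow, ← pow_mul]
  have hD1k : 0 < D1 ^ (k' + 1) := by positivity
  have hBk : 0 < b ^ (2 * (k' + 1)) := by positivity
  have hδδ : δ1 ^ (k' + 1) = δ3 * b * (2 * b ^ (2 * (k' + 1))) := by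
    rw [hδ1k, hδ3def, hA]
    field_simp
  have hδ3sq : δ3 ^ 2 = δ ^ (4 * (k' + 1)) / A ^ 2 := by
    rw [hδ3def, div_pow, ← pow_mul]
    congr 2
    ring
  have hee : 4 * (k' + 1) ≤ e := by
    rw [he]
    nlinarith
  have h50 : 50000 * η ≤ δ3 ^ 2 := by
    rw [hδ3sq, le_div_iff₀ hA2p]
    have h1 : 50000 * A ^ 2 ≤ D := by rw [hD]; linarith
    calc 50000 * η * A ^ 2 = (50000 * A ^ 2) * η := by ring
      _ ≤ D * η := mul_le_mul_of_nonneg_right h1 hη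
      _ ≤ δ ^ e := hDη
      _ ≤ δ ^ (4 * (k' + 1)) := hpw _ hee
  have hδ3sqp : 0 < δ3 ^ 2 := by positivity
  have hκ : 2500 * (2 * η) / δ3 ^ 2 ≤ 1 / 10 := by
    rw [div_le_iff₀ hδ3sqp]
    linarith
  have hκ0 : 0 ≤ 2500 * (2 * η) / δ3 ^ 2 := by positivity
  have h8 : 8 ≤ δ3 * P := by
    rw [hδ3def, div_mul_eq_mul_div, le_div_iff₀ hA0]
    have h1 : 8 * A ≤ D := by rw [hD]; linarith
    exact (h1.trans hDP).trans (mul_le_mul_of_nonneg_right (hpw _ (by omega)) hPr.le)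
  have hbad1 : 2 ^ (k' + 3) * b ^ (2 * (k' + 1)) * ((12 * (2500 * (2 * η) / δ3 ^ 2)) ^ k' * P) ≤
      δ1 ^ (k' + 1) := by
    have e1 : (12 * (2500 * (2 * η) / δ3 ^ 2)) ^ k' = 60000 ^ k' * η ^ k' * A ^ (2 * k') / δ ^ (4 * (k' + 1) * k') := by
      have : 12 * (2500 * (2 * η) / δ3 ^ 2) = 60000 * η * A ^ 2 / δ ^ (4 * (k' + 1)) := by
        rw [hδ3sq]
        field_simp
        ring
      rw [this, div_pow, mul_pow, mul_pow, ← pow_mul, ← pow_mul]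
    rw [e1, hδ1k]
    have hd1 : 0 < δ ^ (4 * (k' + 1) * k') := by positivity
    have hd2 : 0 < δ ^ (2 * (k' + 1)) := by positivity
    rw [le_div_iff₀ hD1k]
    have e2 : 2 ^ (k' + 3) * b ^ (2 * (k' + 1)) *
        (60000 ^ k' * η ^ k' * A ^ (2 * k') / δ ^ (4 * (k' + 1) * k') * P) * D1 ^ (k' + 1) =
        (X1 * η ^ k' * P) / δ ^ (4 * (k' + 1) * k') := by
      rw [hX1]
      field_simp
    rw [e2, div_le_iff₀ hd1, ← pow_add]
    have h1 : X1 ≤ D := by rw [hD]; linarith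
    calc X1 * η ^ k' * P ≤ D * η ^ k' * P := by
          apply mul_le_mul_of_nonneg_right _ hPr.le
          exact mul_le_mul_of_nonneg_right h1 (by positivity)
      _ ≤ δ ^ e := hDη2
      _ ≤ δ ^ (2 * (k' + 1) + 4 * (k' + 1) * k') := hpw _ (by omega)
  have hbad2 : 2 ^ (k' + 3) * b ^ (2 * (k' + 1)) ≤ δ1 ^ (k' + 1) * P := by
    rw [hδ1k, div_mul_eq_mul_div, le_div_iff₀ hD1k, ← hX2]
    have h1 : X2 ≤ D := by rw [hD]; linarith
    exact (h1.trans hDP).trans (mul_le_mul_of_nonneg_right (hpw _ (by omega)) hPr.le)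
  have hBad := ClimbT_bad b δ1 (2500 * (2 * η) / δ3 ^ 2) k' P hk' hb1 hδ1pos hκ0 hκ hPpos hbad1 hbad2
  have hone : ∀ M : ℕ, M ∈ F'' → ∃ (w : ℝ) (U : Finset (ℕ × ℕ)), U ⊆ VM C P F M ∧
      (∀ u ∈ U, nz ((u.1 : ℝ) * w - α u.2) ≤ 1232 * (2 * η) / (δ3 * P)) ∧
      δ3 ^ 2 * P / 2 ≤ (U.card : ℝ) := by
    intro M hM
    exact ClimbT_one C b δ1 δ3 hC hb (k' + 1) hk n P η F F' α α' R hRel hη hPpos hδ1pos hδ3pos hδ3one hδδ hκ h8
      hBad M (by rw [hδ1def]; exact hF3 M hM)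
  choose! w U hU1 hU2 hU3 using hone
  have hmem : ∀ t : ℕ × ℕ × ℕ, t ∈ F''.biUnion (fun M => (U M).image (fun u => (M, u.1, u.2))) ↔
      t.1 ∈ F'' ∧ (t.2.1, t.2.2) ∈ U t.1 := by
    intro t
    rw [Finset.mem_biUnion]
    constructor
    · rintro ⟨M, hM, ht⟩
      rw [Finset.mem_image] at ht
      obtain ⟨u, hu, rfl⟩ := ht
      exact ⟨hM, hu⟩
    · rintro ⟨hM, ht⟩
      refine ⟨t.1, hM, ?_⟩
      rw [Finset.mem_image]
      exact ⟨(t.2.1, t.2.2), ht, rfl⟩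
  refine ⟨F'', w, F''.biUnion (fun M => (U M).image (fun u => (M, u.1, u.2))), ?_, ?_, ?_⟩
  · refine ⟨?_, ?_, ?_, ?_, ?_, ?_, ?_⟩
    · intro t ht
      exact ((hmem t).1 ht).1
    · intro t ht
      obtain ⟨hM, hu⟩ := (hmem t).1 ht
      exact (ClimbT_vm C P F t.1 _ (hU1 t.1 hM hu)).2.2.1
    · intro t ht
      obtain ⟨hM, hu⟩ := (hmem t).1 ht
      obtain ⟨a1, a2, -, -⟩ := ClimbT_vm C P F t.1 _ (hU1 t.1 hM hu)
      exact ⟨a1, a2.1, a2.2⟩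
    · intro t ht
      obtain ⟨hM, hu⟩ := (hmem t).1 ht
      obtain ⟨-, -, -, a4⟩ := ClimbT_vm C P F t.1 _ (hU1 t.1 hM hu)
      refine a4.trans ?_
      exact mul_le_mul_of_nonneg_right hDC hPr.le
    · intro t ht
      obtain ⟨hM, hu⟩ := (hmem t).1 ht
      refine (hU2 t.1 hM _ hu).trans ?_
      have hd2 : 0 < δ ^ (2 * (k' + 1)) := by positivity
      have e1 : 1232 * (2 * η) / (δ3 * P) = 2464 * A * η / (δ ^ (2 * (k' + 1)) * P) := by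
        rw [hδ3def]
        field_simp
        ring
      rw [e1]
      have h1 : 2464 * A ≤ D := by rw [hD]; linarith
      have h2 : 2464 * A * η ≤ D * η := mul_le_mul_of_nonneg_right h1 hη
      have h3 : δ ^ e * P ≤ δ ^ (2 * (k' + 1)) * P := mul_le_mul_of_nonneg_right (hpw _ (by omega)) hPr.le
      exact div_le_div₀ (by positivity) h2 (by positivity) h3
    · intro M hM
      obtain ⟨a1, a2⟩ := hF2 M hM
      refine ⟨le_trans ?_ a1, a2.trans ?_⟩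
      · exact div_le_div_of_nonneg_left (Nat.cast_nonneg n) hD1pos hDD1
      · exact mul_le_mul_of_nonneg_right hDD1 (Nat.cast_nonneg n)
    · intro K hK
      obtain ⟨a1, a2⟩ := hRel.rngF K hK
      refine ⟨le_trans ?_ a1, a2.trans ?_⟩
      · exact div_le_div_of_nonneg_left (Nat.cast_nonneg n) (by linarith) hCD
      · exact mul_le_mul_of_nonneg_right hCD (Nat.cast_nonneg n)
  · refine le_trans ?_ hF1
    apply mul_le_mul_of_nonneg_right _ (Nat.cast_nonneg n)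
    exact div_le_div₀ (by positivity) (hpw 2 (by omega)) hD1pos hDD1
  · intro M hM
    have hinj : (U M).card ≤ ((F''.biUnion (fun M => (U M).image (fun u => (M, u.1, u.2)))).filter
        (fun t => t.1 = M)).card := by
      refine Finset.card_le_card_of_injOn (fun u => (M, u.1, u.2)) ?_ ?_
      · intro u hu
        rw [Finset.mem_coe, Finset.mem_filter]
        refine ⟨(hmem _).2 ⟨hM, ?_⟩, rfl⟩
        exact hu
      · intro u _ u' _ he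
        simp only [Prod.mk.injEq, true_and] at he
        exact Prod.ext he.1 he.2
    have h3 := hU3 M hM
    have h4 : δ ^ e / D * P ≤ δ3 ^ 2 * P / 2 := by
      rw [hδ3sq]
      have h5 : δ ^ e / D ≤ δ ^ (4 * (k' + 1)) / (2 * A ^ 2) := by
        have h6 : 2 * A ^ 2 ≤ D := by rw [hD]; linarith
        exact div_le_div₀ (by positivity) (hpw _ hee) (by positivity) h6
      calc δ ^ e / D * P ≤ δ ^ (4 * (k' + 1)) / (2 * A ^ 2) * P := mul_le_mul_of_nonneg_right h5 hPr.le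
        _ = δ ^ (4 * (k' + 1)) / A ^ 2 * P / 2 := by
            field_simp
    calc δ ^ e / D * P ≤ δ3 ^ 2 * P / 2 := h4
      _ ≤ (U M).card := h3
      _ ≤ _ := by exact_mod_cast hinj

end Pool.Agent.H53.TPS
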