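import Pool.Agent.H53.TPS.TowerT
import Pool.Agent.H53.TPS.TopT

/-!
# TPS CombT: the combinatorial theorem for `η P ≤ N^(-ε)`

Proof (compare `Pool.Agent.H53.MID.comb`, file `H53/MID/Comb.lean`, complete).  `tower_t C k J` gives `D_J, e_J` for `J ≤ Jm + 1`: `D1` = sum of the `D_J` (and `C`), `e1` = sum of the `e_J`; `Desc P J D1 (D1 η/δ^e1)` (monotone).
`top_t D1` (its `η` is `η1 := η/δ^e1`) gives `D'`; `ρ = δ^e1/D1`.  `J` = the least natural number `≥ 1` with `D' n ≤ ρ P^J`; as `n ≤ P^Jm` and `D' ≤ ρ P` (from `D ≤ δ^e P`), `J ≤ Jm + 1`.  If `J ≥ 2` then `ρ P^(J-1) < D' n`, so `P^J ≤ D' n P/ρ`; if `J = 1` then `P^J = P ≤ n P`.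
So `D' η1 P^J ≤ D'^2 η P n/(δ^e1 ρ) ≤ ρ n` from `D (η P) ≤ δ^e` with `D, e` large.  `top_t` gives `d, b, T, F1` with `d ρ ≤ D'`, `|T| ρ ≤ D' η1 n^2`, `ρ^2 n ≤ D' |F1|`, `nz(...) ρ ≤ D' η1`.  Everything is monotone in `D` and `e` as `δ ≤ 1`.
-/

set_option autoImplicit false

namespace Pool.Agent.H53.TPS

open Finset
open Pool.Agent.H53.MID

/-- the least level `J = j + 1` with `D' n ≤ ρ P^J` -/
private theorem CombT_exists_level (n P Jm : ℕ) (D' ρ : ℝ) (hn : 1 ≤ n) (h : n ≤ P ^ Jm) (hD' : 1 ≤ D')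
    (hρ : 0 < ρ) (hρ1 : ρ ≤ 1) (hDP : D' ≤ ρ * P) :
    ∃ j : ℕ, j ≤ Jm ∧ D' * n ≤ ρ * (P : ℝ) ^ (j + 1) ∧ ρ * (P : ℝ) ^ (j + 1) ≤ D' * n * P := by
  classical
  have hn1 : (1 : ℝ) ≤ n := by exact_mod_cast hn
  have hP0 : (0 : ℝ) ≤ P := Nat.cast_nonneg P
  have hex : ∃ j : ℕ, D' * n ≤ ρ * (P : ℝ) ^ (j + 1) := by
    refine ⟨Jm, ?_⟩
    have h1 : (n : ℝ) ≤ (P : ℝ) ^ Jm := by exact_mod_cast h
    calc D' * n ≤ (ρ * P) * (P : ℝ) ^ Jm := mul_le_mul hDP h1 (by positivity) (by positivity)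
      _ = ρ * (P : ℝ) ^ (Jm + 1) := by ring
  refine ⟨Nat.find hex, ?_, Nat.find_spec hex, ?_⟩
  · apply Nat.find_min' hex
    have h1 : (n : ℝ) ≤ (P : ℝ) ^ Jm := by exact_mod_cast h
    calc D' * n ≤ (ρ * P) * (P : ℝ) ^ Jm := mul_le_mul hDP h1 (by positivity) (by positivity)
      _ = ρ * (P : ℝ) ^ (Jm + 1) := by ring
  · rcases Nat.eq_zero_or_pos (Nat.find hex) with h0 | h0
    · rw [h0]
      have h5 : (P : ℝ) ^ (0 + 1) = P := by ring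
      rw [h5]
      have h6 : 1 ≤ D' * n := one_le_mul_of_one_le_of_one_le hD' hn1
      exact mul_le_mul_of_nonneg_right (hρ1.trans h6) hP0
    · obtain ⟨i, hi⟩ : ∃ i, Nat.find hex = i + 1 := ⟨Nat.find hex - 1, by omega⟩
      rw [hi]
      have h1 : ¬ D' * n ≤ ρ * (P : ℝ) ^ (i + 1) := Nat.find_min hex (by omega)
      push Not at h1
      have h4 : ρ * (P : ℝ) ^ (i + 1 + 1) = (ρ * (P : ℝ) ^ (i + 1)) * P := by ring
      rw [h4]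
      exact mul_le_mul_of_nonneg_right h1.le hP0

theorem comb_t (C : ℝ) (hC : 1 ≤ C) (k : ℕ) (hk : 3 ≤ k) (Jm : ℕ) : ∃ (D : ℝ) (e : ℕ), 1 ≤ D ∧ ∀ (n P : ℕ) (δ η : ℝ)
    (F0 G0 : Finset ℕ) (α β : ℕ → ℝ) (R0 : Finset (ℕ × ℕ × ℕ)), Rel C n P (η * P) F0 G0 α β R0 → 0 < δ → δ ≤ 1 →
    0 ≤ η → D * (η * P) ≤ δ ^ e → D * (η * P) ^ (k - 1) * P ≤ δ ^ e → D ≤ δ ^ e * P → 1 ≤ n → n ≤ P ^ Jm →
    δ * n * P ≤ R0.card →
    ∃ (d : ℕ) (b : ℕ) (T : ℝ) (F1 : Finset ℕ), 1 ≤ d ∧ d * δ ^ e ≤ D ∧ |T| * δ ^ e ≤ D * η * (n : ℝ) ^ 2 ∧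
      F1 ⊆ F0 ∧ δ ^ e * n ≤ D * F1.card ∧ ∀ i ∈ F1, nz (α i - b / d - T / i) * δ ^ e ≤ D * η := by
  classical
  have htow := fun j : ℕ => tower_t C hC k hk (j + 1) (by omega)
  choose Dt et hDt htow using htow
  obtain ⟨D1, hD1⟩ : ∃ D1 : ℝ, D1 = C + ∑ j ∈ range (Jm + 1), Dt j := ⟨_, rfl⟩
  obtain ⟨e1, he1⟩ : ∃ e1 : ℕ, e1 = ∑ j ∈ range (Jm + 1), et j := ⟨_, rfl⟩
  have hsum0 : 0 ≤ ∑ j ∈ range (Jm + 1), Dt j :=
    Finset.sum_nonneg fun j _ => le_trans zero_le_one (hDt j)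
  have hD1C : C ≤ D1 := by rw [hD1]; linarith
  have hD11 : 1 ≤ D1 := hC.trans hD1C
  have hDtj : ∀ j ≤ Jm, Dt j ≤ D1 := by
    intro j hj
    have h1 : Dt j ≤ ∑ j ∈ range (Jm + 1), Dt j :=
      Finset.single_le_sum (f := Dt) (fun j _ => le_trans zero_le_one (hDt j))
        (Finset.mem_range.mpr (by omega))
    rw [hD1]; linarith
  have hetj : ∀ j ≤ Jm, et j ≤ e1 := by
    intro j hj
    rw [he1]
    exact Finset.single_le_sum (f := et) (fun j _ => Nat.zero_le _) (Finset.mem_range.mpr (by omega))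
  obtain ⟨D', hD'1, htop⟩ := top_t D1 hD11
  have hD10 : 0 < D1 := lt_of_lt_of_le zero_lt_one hD11
  have hD'0 : 0 < D' := lt_of_lt_of_le zero_lt_one hD'1
  have hD1sq : 1 ≤ D1 ^ 2 := one_le_pow₀ hD11
  have hD'sq : 1 ≤ D' ^ 2 := one_le_pow₀ hD'1
  have hD1le : D1 ≤ D1 ^ 2 := by nlinarith
  have hD'le : D' ≤ D' ^ 2 := by nlinarith
  obtain ⟨D, hDdef⟩ : ∃ D : ℝ, D = D1 ^ 2 * D' ^ 2 := ⟨_, rfl⟩
  have hD1D'2 : D1 ^ 2 * D' ≤ D := by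
    rw [hDdef]; exact mul_le_mul_of_nonneg_left hD'le (by positivity)
  have hD1D' : D1 * D' ≤ D := by
    refine le_trans ?_ hD1D'2
    exact mul_le_mul_of_nonneg_right hD1le hD'0.le
  have hD1D : D1 ≤ D := by
    refine le_trans ?_ hD1D'
    exact le_mul_of_one_le_right hD10.le hD'1
  have hDone : 1 ≤ D := hD11.trans hD1D
  refine ⟨D, 3 * e1, hDone, ?_⟩
  intro n P δ η F0 G0 α β R0 hR hδ0 hδ1 hη hηP hηP2 hDP hn hnP hR0
  have hδe1 : δ ^ (3 * e1) ≤ 1 := pow_le_one₀ hδ0.le hδ1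
  have hδe0 : 0 < δ ^ (3 * e1) := by positivity
  have hδ10 : 0 < δ ^ e1 := by positivity
  have hδ11 : δ ^ e1 ≤ 1 := pow_le_one₀ hδ0.le hδ1
  have hδ31 : δ ^ (3 * e1) ≤ δ ^ e1 := pow_le_pow_of_le_one hδ0.le hδ1 (by omega)
  have hδ32 : δ ^ (3 * e1) ≤ δ ^ (2 * e1) := pow_le_pow_of_le_one hδ0.le hδ1 (by omega)
  have hPr : D ≤ (P : ℝ) := by
    have : δ ^ (3 * e1) * (P : ℝ) ≤ 1 * P := mul_le_mul_of_nonneg_right hδe1 (Nat.cast_nonneg P)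
    linarith
  have hP1 : (1 : ℝ) ≤ P := by linarith
  have hP0 : (0 : ℝ) ≤ P := by linarith
  have hP1n : 1 ≤ P := by exact_mod_cast hP1
  obtain ⟨ρ, hρ⟩ : ∃ ρ : ℝ, ρ = δ ^ e1 / D1 := ⟨_, rfl⟩
  have hρ0 : 0 < ρ := by rw [hρ]; positivity
  have hρD : ρ * D1 = δ ^ e1 := by rw [hρ]; field_simp
  have hρ1 : ρ ≤ 1 := by
    rw [hρ, div_le_one hD10]; linarith
  obtain ⟨η1, hη1⟩ : ∃ η1 : ℝ, η1 = η / δ ^ e1 := ⟨_, rfl⟩
  have hη10 : 0 ≤ η1 := by rw [hη1]; positivity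
  have hη1δ : η1 * δ ^ e1 = η := by rw [hη1]; field_simp
  have hD'P : D' ≤ ρ * P := by
    have h1 : D ≤ δ ^ e1 * P := hDP.trans (mul_le_mul_of_nonneg_right hδ31 hP0)
    rw [← hρD] at h1
    have h2 : D1 * D' ≤ D1 * (ρ * P) := by nlinarith
    exact le_of_mul_le_mul_left h2 hD10
  obtain ⟨j, hj, hlo, hhi⟩ := CombT_exists_level n P Jm D' ρ hn hnP hD'1 hρ0 hρ1 hD'P
  have hδj : δ ^ (3 * e1) ≤ δ ^ et j := pow_le_pow_of_le_one hδ0.le hδ1 (by have := hetj j hj; omega)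
  have hδj1 : δ ^ e1 ≤ δ ^ et j := pow_le_pow_of_le_one hδ0.le hδ1 (hetj j hj)
  have hDjD : Dt j ≤ D := (hDtj j hj).trans hD1D
  have hηP0 : 0 ≤ η * P := mul_nonneg hη hP0
  obtain ⟨K, w, S, hK1, hK2, hdesc, hS⟩ := htow j n P δ η F0 G0 α β R0 hR hδ0 hδ1 hη
    (by
      refine le_trans ?_ (hηP.trans hδj)
      exact mul_le_mul_of_nonneg_right hDjD hηP0)
    (by
      refine le_trans ?_ (hηP2.trans hδj)
      refine mul_le_mul_of_nonneg_right ?_ hP0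
      exact mul_le_mul_of_nonneg_right hDjD (pow_nonneg hηP0 _))
    (by
      have h2 : δ ^ (3 * e1) * (P : ℝ) ≤ δ ^ et j * P := mul_le_mul_of_nonneg_right hδj hP0
      linarith) hn hR0
  have hDj0 : 0 < Dt j := lt_of_lt_of_le zero_lt_one (hDt j)
  have hn0 : (0 : ℝ) ≤ n := Nat.cast_nonneg n
  have hPJ0 : (0 : ℝ) ≤ (P : ℝ) ^ (j + 1) := by positivity
  have hdesc' : Desc P (j + 1) D1 (D1 * η1) F0 α K w S := by
    refine ⟨hdesc.mem, hdesc.lo, hdesc.hi, ?_, ?_⟩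
    · intro t ht
      exact (hdesc.pos t ht).trans (mul_le_mul_of_nonneg_right (hDtj j hj) hPJ0)
    · intro t ht
      refine (hdesc.freq t ht).trans ?_
      rw [hη1, ← mul_div_assoc]
      exact div_le_div₀ (mul_nonneg hD10.le hη) (mul_le_mul_of_nonneg_right (hDtj j hj) hη) hδ10 hδj1
  have hkey : D' * η1 * (P : ℝ) ^ (j + 1) ≤ ρ * n := by
    have h1 : D1 ^ 2 * D' ^ 2 * (η * P) ≤ δ ^ (3 * e1) := by rw [← hDdef]; exact hηP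
    have h2 : δ ^ (3 * e1) = (ρ * D1) ^ 2 * δ ^ e1 := by
      rw [hρD]; ring
    rw [h2, ← hη1δ] at h1
    have h3 : (D1 ^ 2 * δ ^ e1) * (D' ^ 2 * (η1 * P)) ≤ (D1 ^ 2 * δ ^ e1) * ρ ^ 2 := by
      linarith [show D1 ^ 2 * D' ^ 2 * (η1 * δ ^ e1 * P) = (D1 ^ 2 * δ ^ e1) * (D' ^ 2 * (η1 * P)) by ring,
        show (ρ * D1) ^ 2 * δ ^ e1 = (D1 ^ 2 * δ ^ e1) * ρ ^ 2 by ring]
    have h4 : D' ^ 2 * (η1 * P) ≤ ρ ^ 2 := le_of_mul_le_mul_left h3 (by positivity)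
    have h5 : ρ * (D' * η1 * (P : ℝ) ^ (j + 1)) ≤ ρ * (ρ * n) := by
      calc ρ * (D' * η1 * (P : ℝ) ^ (j + 1)) = (D' * η1) * (ρ * (P : ℝ) ^ (j + 1)) := by ring
        _ ≤ (D' * η1) * (D' * n * P) := mul_le_mul_of_nonneg_left hhi (by positivity)
        _ = (D' ^ 2 * (η1 * P)) * n := by ring
        _ ≤ ρ ^ 2 * n := mul_le_mul_of_nonneg_right h4 hn0
        _ = ρ * (ρ * n) := by ring
    exact le_of_mul_le_mul_left h5 hρ0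
  obtain ⟨d, b, T, F1, hd1, hd2, hT, hF1, hF2, hi⟩ := htop n P (j + 1) K ρ η1 w F0 α S hn hP1n hρ0 hρ1 hη10
    (by
      intro i hi
      obtain ⟨h1, h2⟩ := hR.rngF i hi
      constructor
      · refine le_trans ?_ h1
        exact div_le_div_of_nonneg_left hn0 (lt_of_lt_of_le zero_lt_one hC) hD1C
      · exact h2.trans (mul_le_mul_of_nonneg_right hD1C hn0))
    (by
      refine le_trans ?_ hK1
      exact div_le_div_of_nonneg_left hn0 hDj0 (hDtj j hj))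
    (hK2.trans (mul_le_mul_of_nonneg_right (hDtj j hj) hn0))
    hlo hkey hdesc' (by
      refine le_trans ?_ hS
      refine mul_le_mul_of_nonneg_right ?_ hPJ0
      rw [hρ]
      exact div_le_div₀ (by positivity) hδj1 hDj0 (hDtj j hj))
  have hδ2 : δ ^ (2 * e1) = δ ^ e1 * (ρ * D1) := by
    rw [two_mul, pow_add, ← hρD]
  refine ⟨d, b, T, F1, hd1, ?_, ?_, hF1, ?_, ?_⟩
  · have h0 : (0 : ℝ) ≤ d := Nat.cast_nonneg d
    calc (d : ℝ) * δ ^ (3 * e1) ≤ d * δ ^ e1 := mul_le_mul_of_nonneg_left hδ31 h0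
      _ = (d * ρ) * D1 := by rw [← hρD]; ring
      _ ≤ D' * D1 := mul_le_mul_of_nonneg_right hd2 hD10.le
      _ = D1 * D' := by ring
      _ ≤ D := hD1D'
  · have h0 : (0 : ℝ) ≤ |T| := abs_nonneg T
    calc |T| * δ ^ (3 * e1) ≤ |T| * δ ^ (2 * e1) := mul_le_mul_of_nonneg_left hδ32 h0
      _ = (|T| * ρ) * (D1 * δ ^ e1) := by rw [hδ2]; ring
      _ ≤ (D' * η1 * (n : ℝ) ^ 2) * (D1 * δ ^ e1) := mul_le_mul_of_nonneg_right hT (by positivity)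
      _ = (D1 * D') * ((η1 * δ ^ e1) * (n : ℝ) ^ 2) := by ring
      _ = (D1 * D') * (η * (n : ℝ) ^ 2) := by rw [hη1δ]
      _ ≤ D * (η * (n : ℝ) ^ 2) := mul_le_mul_of_nonneg_right hD1D' (by positivity)
      _ = D * η * (n : ℝ) ^ 2 := by ring
  · calc δ ^ (3 * e1) * (n : ℝ) ≤ δ ^ (2 * e1) * n := mul_le_mul_of_nonneg_right hδ32 hn0
      _ = (ρ ^ 2 * n) * D1 ^ 2 := by rw [two_mul, pow_add, ← hρD]; ring
      _ ≤ (D' * F1.card) * D1 ^ 2 := mul_le_mul_of_nonneg_right hF2 (by positivity)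
      _ = (D1 ^ 2 * D') * F1.card := by ring
      _ ≤ D * F1.card := mul_le_mul_of_nonneg_right hD1D'2 (Nat.cast_nonneg _)
  · intro i hiF
    have h0 := nz_nonneg (α i - b / d - T / i)
    calc nz (α i - b / d - T / i) * δ ^ (3 * e1)
        ≤ nz (α i - b / d - T / i) * δ ^ (2 * e1) := mul_le_mul_of_nonneg_left hδ32 h0
      _ = (nz (α i - b / d - T / i) * ρ) * (D1 * δ ^ e1) := by rw [hδ2]; ring
      _ ≤ (D' * η1) * (D1 * δ ^ e1) := mul_le_mul_of_nonneg_right (hi i hiF) (by positivity)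
      _ = (D1 * D') * (η1 * δ ^ e1) := by ring
      _ = (D1 * D') * η := by rw [hη1δ]
      _ ≤ D * η := mul_le_mul_of_nonneg_right hD1D' hη

end Pool.Agent.H53.TPS
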