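import Pool.Agent.H53.MID.Defs

/-!
# TPS Defs (project TP, part 1: type II sums with a prime factor `P ≤ H N^(-ε)`)

* `GoodT P κ p` (`p : Fin k → ℕ` a tuple of primes of `(P, 2P]`): if all `nz (p_j t) ≤ κ` then `nz t ≤ κ/P`.
* `FpS S f m = ∑_{p ∈ S, p ∣ m} f(m/p)` (`S` a set of primes of `(P, 2P]`).
* `ccS S f a T m = FpS S f m · ee(-m a) · ee(-T log m)`.
* `PlS S d l s = ∑_{p ∈ S, p ≡ l (d)} ee(-s log p)`.
* `Maj L C2 H α`: `α` is a major frequency: `nz (α - b/d) ≤ L^C2/H` for some `b/d`, `d ≤ L^C2`.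
* `pI u v`: the primes of `(u, v]`.
-/

set_option autoImplicit false

namespace Pool.Agent.H53.TPS

open Finset
open Pool.Agent.H91.PK (ee)
open Pool.Agent.H53.MID (nz)

/-- a tuple of primes that determines small frequencies -/
def GoodT {k : ℕ} (P : ℕ) (κ : ℝ) (p : Fin k → ℕ) : Prop :=
  ∀ t : ℝ, (∀ j, nz (p j * t) ≤ κ) → nz t ≤ κ / P

/-- the convolution of the indicator of `S` with `f` -/
noncomputable def FpS (S : Finset ℕ) (f : ℕ → ℝ) (m : ℕ) : ℝ := ∑ p ∈ S.filter (fun p => p ∣ m), f (m / p)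

/-- the twisted coefficients -/
noncomputable def ccS (S : Finset ℕ) (f : ℕ → ℝ) (a T : ℝ) (m : ℕ) : ℂ :=
  (FpS S f m : ℂ) * ee (-(m * a)) * ee (-(T * Real.log m))

/-- the elements of `S` in a residue class -/
noncomputable def PlS (S : Finset ℕ) (d l : ℕ) (s : ℝ) : ℂ :=
  ∑ p ∈ S.filter (fun p => p % d = l % d), ee (-(s * Real.log p))

/-- major frequencies -/
def Maj (L : ℝ) (C2 H : ℕ) (α : ℝ) : Prop := ∃ d b : ℕ, 1 ≤ d ∧ (d : ℝ) ≤ L ^ C2 ∧ nz (α - b / d) ≤ L ^ C2 / H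

/-- the primes of `(u, v]` -/
def pI (u v : ℕ) : Finset ℕ := (Ioc u v).filter Nat.Prime

end Pool.Agent.H53.TPS
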