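import Pool.Agent.H53.MID.Fac

/-!
# TPS DefsF: twisted Siegel-Walfisz condition for a general coefficient function `f` on `(N/(16P), 12N/P]`
-/

set_option autoImplicit false

namespace Pool.Agent.H53.TPS

open Finset
open Pool.Agent.H91.PK (ee)

/-- all twisted sums of `f` over `(N/(16P), 12N/P]` with small denominators and small `t` are small -/
def SWf (f : ℕ → ℝ) (N P C' m k : ℕ) : Prop := ∀ (c b : ℕ) (t : ℝ), 1 ≤ c → (c : ℝ) ≤ Real.log N ^ C' → |t| ≤ Real.log N ^ m →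
  ‖∑ n ∈ Ioc (N / (16 * P)) (12 * N / P), (f n : ℂ) * ee (-((n : ℝ) * ((b : ℝ) / c))) * ee (-(t * Real.log n))‖
    ≤ (N / P : ℝ) / Real.log N ^ k

end Pool.Agent.H53.TPS
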