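import Pool.Agent.H53.TPS.Defs

/-!
# TPS HU: stability of approximately additive functions, and multiples of a frequency

`hu`: `g m = e m - m (e M/M)`: `g M = 0`, `|g (m + m') - g m - g m'| ≤ ε` for `m + m' ≤ M`.  Let `G = max_{m ≤ M} |g m|`, attained at `m₀`.  If `2 m₀ ≤ M`: `|g (2 m₀)| ≥ 2 G - ε`, so `2 G - ε ≤ G`.  If `2 m₀ > M`: `m₁ = M - m₀`, `2 m₁ ≤ M`,
`|g m₁| ≥ |g m₀| - |g M| - ε = G - ε`, `|g (2 m₁)| ≥ 2 (G - ε) - ε`, so `2 G - 3 ε ≤ G`.  In all cases `G ≤ 3 ε`.  (`ε ≥ 0`: take `m = m' = 0`... `|e 0| ≤ ε`.)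
`nz_mult`: let `n0 = round t`, `s = t - n0`, `|s| = nz t ≤ κ < 1/4` (`m = 1`).  Induction on `m ≤ M`: `m |s| ≤ κ`: if `(m-1) |s| ≤ κ` then `m |s| ≤ 2 κ < 1/2`, so `m |s| = |m s| = nz (m s) = nz (m t) ≤ κ` (`nz_eq_abs`, `nz_add_int`).
`good_mono`: `nz (p_j t) ≤ κ' ≤ κ` gives `nz t ≤ κ/P`; `t = n0 + s`, `|s| ≤ κ/P`, `|p_j s| ≤ 2 κ < 1/2`, so `p_j |s| = nz (p_j t) ≤ κ'`, `|s| ≤ κ'/p_j ≤ κ'/P`.
-/

set_option autoImplicit false

namespace Pool.Agent.H53.TPS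

open Finset
open Pool.Agent.H53.MID (nz)

private theorem HU_split (t : ℝ) (m : ℕ) : nz (m * t) = nz (m * (t - round t)) := by
  have h := Pool.Agent.H53.MID.nz_add_int ((m : ℝ) * (t - round t)) (m * round t)
  rw [← h]
  congr 1
  push_cast
  ring

theorem hu (M : ℕ) (hM : 1 ≤ M) (e : ℕ → ℝ) (ε : ℝ) (h : ∀ m m' : ℕ, m + m' ≤ M → |e (m + m') - e m - e m'| ≤ ε) :
    ∀ m ≤ M, |e m - m * (e M / M)| ≤ 3 * ε := by
  have hM0 : (M : ℝ) ≠ 0 := by
    have : (1 : ℝ) ≤ M := by exact_mod_cast hM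
    linarith
  have hε : 0 ≤ ε := (abs_nonneg _).trans (h 0 0 (Nat.zero_le _))
  set g : ℕ → ℝ := fun m => e m - m * (e M / M) with hg
  have hgM : g M = 0 := by
    simp only [hg]
    field_simp
    ring
  have hadd : ∀ m m' : ℕ, m + m' ≤ M → |g (m + m') - g m - g m'| ≤ ε := by
    intro m m' hm
    have h1 : g (m + m') - g m - g m' = e (m + m') - e m - e m' := by
      simp only [hg]
      push_cast
      ring
    rw [h1]
    exact h m m' hm
  obtain ⟨m₀, hm₀, hmax⟩ := Finset.exists_max_image (Finset.range (M + 1)) (fun m => |g m|)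
    ⟨0, Finset.mem_range.2 (Nat.succ_pos M)⟩
  have hm₀' : m₀ ≤ M := Nat.lt_succ_iff.1 (Finset.mem_range.1 hm₀)
  have hmax' : ∀ m ≤ M, |g m| ≤ |g m₀| := fun m hm =>
    hmax m (Finset.mem_range.2 (Nat.lt_succ_iff.2 hm))
  have key : |g m₀| ≤ 3 * ε := by
    by_cases h2 : m₀ + m₀ ≤ M
    · have h3 := hadd m₀ m₀ h2
      have h4 := hmax' _ h2
      have h5 : 2 * |g m₀| ≤ |g (m₀ + m₀)| + |g (m₀ + m₀) - g m₀ - g m₀| := by
        have h6 : 2 * |g m₀| = |g (m₀ + m₀) - (g (m₀ + m₀) - g m₀ - g m₀)| := by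
          rw [← abs_two, ← abs_mul]
          congr 1
          ring
        rw [h6]
        exact abs_sub _ _
      linarith
    · obtain ⟨m₁, hm₁⟩ : ∃ m₁, m₀ + m₁ = M := ⟨M - m₀, by omega⟩
      have h3 := hadd m₀ m₁ hm₁.le
      rw [hm₁, hgM] at h3
      have h4 : m₁ + m₁ ≤ M := by omega
      have h5 := hadd m₁ m₁ h4
      have h6 := hmax' _ h4
      have h7 : |g m₀| ≤ |g m₁| + |0 - g m₀ - g m₁| := by
        have h8 : |g m₀| = |-(g m₁) - (0 - g m₀ - g m₁)| := by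
          congr 1
          ring
        rw [h8]
        refine (abs_sub _ _).trans ?_
        rw [abs_neg]
      have h9 : 2 * |g m₁| ≤ |g (m₁ + m₁)| + |g (m₁ + m₁) - g m₁ - g m₁| := by
        have h10 : 2 * |g m₁| = |g (m₁ + m₁) - (g (m₁ + m₁) - g m₁ - g m₁)| := by
          rw [← abs_two, ← abs_mul]
          congr 1
          ring
        rw [h10]
        exact abs_sub _ _
      linarith
  intro m hm
  exact (hmax' m hm).trans key

theorem nz_mult (M : ℕ) (hM : 1 ≤ M) (t κ : ℝ) (hκ : κ < 1 / 4) (h : ∀ m : ℕ, 1 ≤ m → m ≤ M → nz (m * t) ≤ κ) :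
    M * nz t ≤ κ := by
  have h1 : nz t ≤ κ := by
    have := h 1 le_rfl hM
    rwa [Nat.cast_one, one_mul] at this
  have key : ∀ m : ℕ, 1 ≤ m → m ≤ M → (m : ℝ) * nz t ≤ κ := by
    intro m hm
    induction m, hm using Nat.le_induction with
    | base => intro _; rwa [Nat.cast_one, one_mul]
    | succ m hm ih =>
      intro hmM
      have h2 := ih (by omega)
      have h3 := h (m + 1) (by omega) hmM
      rw [HU_split] at h3
      have h4 : |((m + 1 : ℕ) : ℝ) * (t - round t)| = ((m + 1 : ℕ) : ℝ) * nz t := by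
        rw [abs_mul, Nat.abs_cast]
        rfl
      have h5 : ((m + 1 : ℕ) : ℝ) * nz t < 1 / 2 := by
        push_cast
        linarith
      rw [Pool.Agent.H53.MID.nz_eq_abs _ (by rw [h4]; exact h5), h4] at h3
      exact h3
  exact key M hM le_rfl

theorem good_mono {k : ℕ} (hk : 1 ≤ k) (P : ℕ) (hP : 1 ≤ P) (p : Fin k → ℕ) (hp : ∀ j, P < p j ∧ p j ≤ 2 * P) (κ κ' : ℝ)
    (hκ : κ < 1 / 4) (hκ' : κ' ≤ κ) (h : GoodT P κ p) : GoodT P κ' p := by
  intro t ht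
  have h1 : nz t ≤ κ / P := h t fun j => (ht j).trans hκ'
  have hP0 : (0 : ℝ) < P := by exact_mod_cast hP
  have hj := ht ⟨0, hk⟩
  obtain ⟨hp1, hp2⟩ := hp ⟨0, hk⟩
  set q := p ⟨0, hk⟩ with hq
  have hq1 : (P : ℝ) ≤ q := by exact_mod_cast hp1.le
  have hq2 : (q : ℝ) ≤ 2 * P := by exact_mod_cast hp2
  have hn := Pool.Agent.H53.MID.nz_nonneg t
  rw [HU_split] at hj
  have h4 : |(q : ℝ) * (t - round t)| = q * nz t := by
    rw [abs_mul, Nat.abs_cast]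
    rfl
  have h5 : (q : ℝ) * nz t < 1 / 2 := by
    have h6 : (P : ℝ) * nz t ≤ κ := by
      rw [le_div_iff₀ hP0] at h1
      linarith
    have h7 : (q : ℝ) * nz t ≤ 2 * P * nz t := mul_le_mul_of_nonneg_right hq2 hn
    linarith
  rw [Pool.Agent.H53.MID.nz_eq_abs _ (by rw [h4]; exact h5), h4] at hj
  rw [le_div_iff₀ hP0]
  have h8 : (P : ℝ) * nz t ≤ q * nz t := mul_le_mul_of_nonneg_right hq1 hn
  linarith

end Pool.Agent.H53.TPS
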