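import Pool.Agent.H53.TPS.ClimbT
import Pool.Agent.H53.MID.Chain

/-!
# TPS TowerT: `J` steps up

Proof: that of `Pool.Agent.H53.MID.tower` (file `H53/MID/Tower.lean`, complete; copy and adapt) with `climb_t` in place of `climb`.  Induction on `j ≥ 1` of the statement: there are `D ≥ 1`, `e` such that for all data there are
`F, F', α_j, α', R` with `Rel D n P (D η P/(δ^e P^j)) F F' α_j α' R`, `δ^e/D n P ≤ |R|`, `F ≠ ∅`, and for every `K ∈ F` a set `S K` with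
`Desc P j D (D η/δ^e) F0 α K (α_j K) (S K)` and `δ^e/D P^j ≤ |S K|` (here `F0, α` is level 0, the given relation is `Rel C n P (η P) F0 G0 α β R0`).
`j = 1`: `climb_t` (its `η` is `η P`) gives `F'', α'', R''` with `Rel D1 n P (D1 η/δ^e1) F'' F0 α'' α R''`; `S M = {(p, i) : (M, p, i) ∈ R''}`.
`j → j+1`: `climb_t` with `C := D_j`, `δ := δ^e/D_j` (`≤ 1`), `η := η_j = D_j η P/(δ^e P^j)` (`j ≥ 1`, `P ≥ 1`: `η_j ≤ D_j η/δ^e`; since `D ≤ δ^e P` (large `D`, `e`) we have `η_j ≤ η P`, and the conditions `D' η_j ≤ δ_j^e'`, `D' η_j^(k-1) P ≤ δ_j^e'` follow from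
`D η P ≤ δ^e`, `D (η P)^(k-1) P ≤ δ^e` with `D, e` large), then `chain_step` with `T = {(p, K) : (M,p,K) ∈ R''}`, `η' = η_(j+1) = D' η_j/(δ_j^e' P)`: `(2P)^j η' ≤ D'' η/δ^e''`.
All constants (`D`, `e`) depend only on `C`, `k` and `j`; `D ≤ δ^e P` gives all the largeness conditions (enlarge `D`, `e`; `δ ≤ 1`).
-/

set_option autoImplicit false

namespace Pool.Agent.H53.TPS

open Finset
open Pool.Agent.H53.MID

private theorem TowerT_relmono {C C' : ℝ} {n P : ℕ} {η η' : ℝ} {F F' : Finset ℕ} {α α' : ℕ → ℝ}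
    {R : Finset (ℕ × ℕ × ℕ)} (h : Rel C n P η F F' α α' R) (hC : 1 ≤ C) (hCC : C ≤ C') (hη : η ≤ η') :
    Rel C' n P η' F F' α α' R where
  memF := h.memF
  memF' := h.memF'
  prime := h.prime
  pos := fun t ht => (h.pos t ht).trans (mul_le_mul_of_nonneg_right hCC (Nat.cast_nonneg P))
  freq := fun t ht => (h.freq t ht).trans hη
  rngF := fun K hK => ⟨(div_le_div_of_nonneg_left (Nat.cast_nonneg n) (by linarith) hCC).trans
    (h.rngF K hK).1, (h.rngF K hK).2.trans (mul_le_mul_of_nonneg_right hCC (Nat.cast_nonneg n))⟩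
  rngF' := fun K hK => ⟨(div_le_div_of_nonneg_left (Nat.cast_nonneg n) (by linarith) hCC).trans
    (h.rngF' K hK).1, (h.rngF' K hK).2.trans (mul_le_mul_of_nonneg_right hCC (Nat.cast_nonneg n))⟩

private theorem TowerT_descmono {P j : ℕ} {D D' τ τ' : ℝ} {F0 : Finset ℕ} {α : ℕ → ℝ} {K : ℕ} {w : ℝ}
    {S : Finset (ℕ × ℕ)} (h : Desc P j D τ F0 α K w S) (hD : D ≤ D') (hτ : τ ≤ τ') :
    Desc P j D' τ' F0 α K w S where
  mem := h.mem
  lo := h.lo
  hi := h.hi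
  pos := fun t ht => (h.pos t ht).trans (mul_le_mul_of_nonneg_right hD (by positivity))
  freq := fun t ht => (h.freq t ht).trans hτ

private theorem TowerT_sum {F'' : Finset ℕ} {R : Finset (ℕ × ℕ × ℕ)} (hF : ∀ t ∈ R, t.1 ∈ F'') {a b : ℝ}
    (hb : 0 ≤ b) (ha : a ≤ F''.card)
    (hR : ∀ M ∈ F'', b ≤ ((R.filter (fun t => t.1 = M)).card : ℝ)) : a * b ≤ R.card := by
  have h1 : R.card = ∑ M ∈ F'', (R.filter (fun t => t.1 = M)).card :=
    Finset.card_eq_sum_card_fiberwise hF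
  rw [h1, Nat.cast_sum]
  calc a * b ≤ F''.card * b := mul_le_mul_of_nonneg_right ha hb
    _ = ∑ _M ∈ F'', b := by rw [Finset.sum_const, nsmul_eq_mul]
    _ ≤ _ := Finset.sum_le_sum hR

private noncomputable def TowerT_T (R : Finset (ℕ × ℕ × ℕ)) (M : ℕ) : Finset (ℕ × ℕ) :=
  (R.filter (fun t => t.1 = M)).image Prod.snd

private theorem TowerT_memT {R : Finset (ℕ × ℕ × ℕ)} {M : ℕ} {t : ℕ × ℕ} (h : t ∈ TowerT_T R M) :
    (M, t) ∈ R := by
  obtain ⟨x, hx, rfl⟩ := Finset.mem_image.1 h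
  obtain ⟨h1, h2⟩ := Finset.mem_filter.1 hx
  rw [← h2]
  exact h1

private theorem TowerT_cardT (R : Finset (ℕ × ℕ × ℕ)) (M : ℕ) :
    (TowerT_T R M).card = (R.filter (fun t => t.1 = M)).card := by
  apply Finset.card_image_of_injOn
  intro x hx y hy hxy
  have h1 := (Finset.mem_filter.1 hx).2
  have h2 := (Finset.mem_filter.1 hy).2
  exact Prod.ext (h1.trans h2.symm) hxy

private def TowerT_Q (C : ℝ) (k : ℕ) (j : ℕ) : Prop := ∃ (D : ℝ) (e : ℕ), 1 ≤ D ∧ ∀ (n P : ℕ) (δ η : ℝ)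
    (F0 G0 : Finset ℕ) (α β : ℕ → ℝ) (R0 : Finset (ℕ × ℕ × ℕ)), Rel C n P (η * P) F0 G0 α β R0 → 0 < δ → δ ≤ 1 →
    0 ≤ η → D * (η * P) ≤ δ ^ e → D * (η * P) ^ (k - 1) * P ≤ δ ^ e → D ≤ δ ^ e * P → 1 ≤ n → δ * n * P ≤ R0.card →
    ∃ (F F' : Finset ℕ) (αj α' : ℕ → ℝ) (R : Finset (ℕ × ℕ × ℕ)),
      Rel D n P (D * (η * P) / (δ ^ e * (P : ℝ) ^ j)) F F' αj α' R ∧ δ ^ e / D * n * P ≤ R.card ∧ F.Nonempty ∧
      ∃ S : ℕ → Finset (ℕ × ℕ), ∀ K ∈ F, Desc P j D (D * η / δ ^ e) F0 α K (αj K) (S K) ∧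
        δ ^ e / D * (P : ℝ) ^ j ≤ (S K).card

private theorem TowerT_base (C : ℝ) (hC : 1 ≤ C) (k : ℕ) (hk : 3 ≤ k) : TowerT_Q C k 1 := by
  obtain ⟨D1, e1, hD1, hcl⟩ := climb_t C hC k hk
  have hD1' : 1 ≤ D1 := hC.trans hD1
  have hD1p : 0 < D1 := by linarith
  refine ⟨D1 ^ 2, e1 * 2, by nlinarith, ?_⟩
  intro n P δ η F0 G0 α β R0 hR hδ hδ1 hη hηP hηk hDP hn hcard
  rw [pow_mul] at hηP hηk hDP ⊢
  set A : ℝ := δ ^ e1 with hA
  have hA0 : 0 < A := pow_pos hδ e1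
  have hA1 : A ≤ 1 := pow_le_one₀ hδ.le hδ1
  have hA2 : A ^ 2 ≤ A := by nlinarith
  have hA2p : 0 < A ^ 2 := by positivity
  have hP0 : (0 : ℝ) ≤ P := Nat.cast_nonneg P
  have hDD : D1 ≤ D1 ^ 2 := by nlinarith
  have hP : (0 : ℝ) < P := by
    rcases hP0.lt_or_eq with h | h
    · exact h
    · rw [← h, mul_zero] at hDP
      nlinarith
  have h1 : D1 ≤ A * P := by
    have h2 : A ^ 2 * P ≤ A * P := mul_le_mul_of_nonneg_right hA2 hP0
    linarith
  have hηP' : D1 * (η * P) ≤ A := by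
    have h2 : D1 * (η * P) ≤ D1 ^ 2 * (η * P) := mul_le_mul_of_nonneg_right hDD (by positivity)
    linarith
  have hηk' : D1 * (η * P) ^ (k - 1) * P ≤ A := by
    have h2 : D1 * (η * P) ^ (k - 1) * P ≤ D1 ^ 2 * (η * P) ^ (k - 1) * P :=
      mul_le_mul_of_nonneg_right (mul_le_mul_of_nonneg_right hDD (by positivity)) hP0
    linarith
  obtain ⟨F, αj, R, hrel, hF, hRM⟩ := hcl n P δ (η * P) F0 G0 α β R0 hR hδ hδ1 (by positivity)
    hηP' hηk' h1 hn hcard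
  rw [← hA] at hrel hF hRM
  have hinv : D1 / A ≤ D1 ^ 2 / A ^ 2 := div_le_div₀ (by positivity) hDD hA2p hA2
  have he : D1 * (η * P) / (A * P) ≤ D1 ^ 2 * (η * P) / (A ^ 2 * (P : ℝ) ^ 1) := by
    rw [pow_one, mul_div_mul_comm, mul_div_mul_comm]
    exact mul_le_mul_of_nonneg_right hinv (by positivity)
  have he2 : D1 * (η * P) / (A * P) ≤ D1 ^ 2 * η / A ^ 2 := by
    have h3 : D1 * (η * P) / (A * P) = D1 / A * η := by field_simp
    rw [h3, mul_div_right_comm]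
    exact mul_le_mul_of_nonneg_right hinv hη
  have hn' : (1 : ℝ) ≤ n := by exact_mod_cast hn
  refine ⟨F, F0, αj, α, R, TowerT_relmono hrel hD1' hDD he, ?_, ?_, TowerT_T R, ?_⟩
  · have h2 := TowerT_sum hrel.memF (a := A / D1 * n) (b := A / D1 * P) (by positivity) hF hRM
    have h3 : A / D1 * n * (A / D1 * P) = A ^ 2 / D1 ^ 2 * n * P := by
      field_simp
    rw [h3] at h2
    exact h2
  · rw [← Finset.card_pos]
    have h2 : (0 : ℝ) < F.card := lt_of_lt_of_le (by positivity) hF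
    exact_mod_cast h2
  · intro K hK
    constructor
    · refine ⟨?_, ?_, ?_, ?_, ?_⟩
      · intro t ht
        exact hrel.memF' _ (TowerT_memT ht)
      · intro t ht
        have h2 := (hrel.prime _ (TowerT_memT ht)).2.1
        rw [pow_one]
        exact_mod_cast h2.le
      · intro t ht
        have h2 := (hrel.prime _ (TowerT_memT ht)).2.2
        rw [pow_one]
        exact_mod_cast h2
      · intro t ht
        have h2 := hrel.pos _ (TowerT_memT ht)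
        rw [pow_one]
        exact h2.trans (mul_le_mul_of_nonneg_right hDD hP0)
      · intro t ht
        exact (hrel.freq _ (TowerT_memT ht)).trans he2
    · rw [TowerT_cardT, pow_one]
      refine le_trans ?_ (hRM K hK)
      refine mul_le_mul_of_nonneg_right ?_ hP0
      exact div_le_div₀ hA0.le hA2 hD1p hDD

private theorem TowerT_step (C : ℝ) (k : ℕ) (hk : 3 ≤ k) (j : ℕ) (hj : 1 ≤ j) (h : TowerT_Q C k j) :
    TowerT_Q C k (j + 1) := by
  obtain ⟨B, e, hB, hQ⟩ := h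
  obtain ⟨D2, e2, hBD, hcl⟩ := climb_t B hB k hk
  have hD2 : 1 ≤ D2 := hB.trans hBD
  set K0 : ℝ := (j + 1) * (2 * D2 + 1) with hK0
  have hj0 : (0 : ℝ) ≤ j := Nat.cast_nonneg j
  have hK01 : 1 ≤ K0 := by
    rw [hK0]
    nlinarith
  have h2j : (1 : ℝ) ≤ 2 ^ (j + 1) := one_le_pow₀ (by norm_num)
  set E : ℕ := 2 * e2 + 1 with hE
  set X : ℝ := B ^ E * D2 ^ 2 * K0 with hX
  set D : ℝ := 3 * X * 2 ^ (j + 1) with hD
  have hBE : 1 ≤ B ^ E := one_le_pow₀ hB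
  have hD22 : 1 ≤ D2 ^ 2 := one_le_pow₀ hD2
  have hBp : 0 < B := by linarith
  have hD2p : 0 < D2 := by linarith
  have hK0p : 0 < K0 := by linarith
  have hX1 : 1 ≤ X := one_le_mul_of_one_le_of_one_le (one_le_mul_of_one_le_of_one_le hBE hD22) hK01
  have hXp : 0 < X := by linarith
  -- comparisons of the constants
  have c4 : D2 ≤ D2 ^ 2 := by nlinarith
  have x1 : ∀ s : ℕ, s ≤ E → B ^ s * D2 ^ 2 * K0 ≤ X := by
    intro s hs
    rw [hX]
    exact mul_le_mul_of_nonneg_right (mul_le_mul_of_nonneg_right (pow_le_pow_right₀ hB hs)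
      (by positivity)) hK0p.le
  have x2 : ∀ s : ℕ, s ≤ E → B ^ s * D2 * K0 ≤ X := by
    intro s hs
    refine le_trans ?_ (x1 s hs)
    exact mul_le_mul_of_nonneg_right (mul_le_mul_of_nonneg_left c4 (by positivity)) hK0p.le
  have x3 : ∀ s : ℕ, s ≤ E → B ^ s * D2 ≤ X := by
    intro s hs
    refine le_trans ?_ (x2 s hs)
    exact le_mul_of_one_le_right (by positivity) hK01
  have x4 : ∀ s : ℕ, s ≤ E → B ^ s * D2 ^ 2 ≤ X := by
    intro s hs
    refine le_trans ?_ (x1 s hs)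
    exact le_mul_of_one_le_right (by positivity) hK01
  have x5 : B ≤ X := by
    have h3 := x3 1 (by omega)
    rw [pow_one] at h3
    have h4 : B ≤ B * D2 := le_mul_of_one_le_right hBp.le hD2
    linarith
  have x6 : D2 ≤ X := by
    have h3 := x3 0 (by omega)
    rw [pow_zero, one_mul] at h3
    exact h3
  have hXD : 3 * X ≤ D := by
    rw [hD]
    nlinarith
  have hXD' : X ≤ D := by linarith
  have c7 : 2 * B + D2 ≤ D := by linarith
  have c8 : B ≤ D := by linarith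
  have c9 : D2 ≤ D := by linarith
  have c11 : (2 : ℝ) ^ (j + 1) < D := by
    rw [hD]
    nlinarith
  have hD1 : 1 ≤ D := by linarith
  have hDp : 0 < D := by linarith
  refine ⟨D, e * E, hD1, ?_⟩
  intro n P δ η F0 G0 α β R0 hR hδ hδ1 hη hηP hηk hDP hn hcard
  rw [pow_mul] at hηP hηk hDP ⊢
  set A : ℝ := δ ^ e with hA
  have hA0 : 0 < A := pow_pos hδ e
  have hA1 : A ≤ 1 := pow_le_one₀ hδ.le hδ1
  have hAE : ∀ s : ℕ, s ≤ E → A ^ E ≤ A ^ s := fun s hs => pow_le_pow_of_le_one hA0.le hA1 hs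
  have hAE1 : A ^ E ≤ A := by
    calc A ^ E ≤ A ^ 1 := hAE 1 (by omega)
      _ = A := pow_one A
  have hAEp : 0 < A ^ E := by positivity
  have hAEo : A ^ E ≤ 1 := pow_le_one₀ hA0.le hA1
  have hP0 : (0 : ℝ) ≤ P := Nat.cast_nonneg P
  have hP : (0 : ℝ) < P := by
    rcases hP0.lt_or_eq with h | h
    · exact h
    · rw [← h, mul_zero] at hDP
      linarith
  have hDP1 : D ≤ P := hDP.trans (by nlinarith)
  have hP2 : (2 : ℝ) ^ (j + 1) < P := by linarith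
  have hP2' : 2 ^ (j + 1) < P := by exact_mod_cast hP2
  have hP1 : (1 : ℝ) ≤ P := by linarith
  have hηP0 : 0 ≤ η * P := by positivity
  have hηk0 : 0 ≤ (η * P) ^ (k - 1) * P := by positivity
  obtain ⟨F, F', αj, α', R, hrel, hRc, hFn, S, hS⟩ := hQ n P δ η F0 G0 α β R0 hR hδ hδ1 hη
    (by
      have h3 : B * (η * P) ≤ D * (η * P) := mul_le_mul_of_nonneg_right c8 hηP0
      linarith)
    (by
      have h3 : B * ((η * P) ^ (k - 1) * P) ≤ D * ((η * P) ^ (k - 1) * P) :=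
        mul_le_mul_of_nonneg_right c8 hηk0
      linarith)
    (by
      have h3 : A ^ E * P ≤ A * P := mul_le_mul_of_nonneg_right hAE1 hP0
      linarith) hn hcard
  rw [← hA] at hrel hRc hS
  have hn' : (1 : ℝ) ≤ n := by exact_mod_cast hn
  have hAB : 0 < A / B := by positivity
  have hAB1 : A / B ≤ 1 := by
    rw [div_le_one hBp]
    linarith
  have hPjp : (0 : ℝ) < (P : ℝ) ^ j := by positivity
  have hPPj : (P : ℝ) ≤ (P : ℝ) ^ j := by
    calc (P : ℝ) = (P : ℝ) ^ 1 := (pow_one _).symm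
      _ ≤ (P : ℝ) ^ j := pow_le_pow_right₀ hP1 hj
  set ηj : ℝ := B * (η * P) / (A * (P : ℝ) ^ j) with hηj
  have hηj0 : 0 ≤ ηj := by positivity
  have hηj1 : ηj ≤ η * P := by
    rw [hηj, div_le_iff₀ (by positivity)]
    have h3 : B ≤ A * P := by
      have h4 : A ^ E * P ≤ A * P := mul_le_mul_of_nonneg_right hAE1 hP0
      linarith
    have h4 : A * P ≤ A * (P : ℝ) ^ j := mul_le_mul_of_nonneg_left hPPj hA0.le
    calc B * (η * P) ≤ A * (P : ℝ) ^ j * (η * P) := mul_le_mul_of_nonneg_right (h3.trans h4) hηP0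
      _ = η * P * (A * (P : ℝ) ^ j) := by ring
  have hBe : 0 < B ^ e2 := by positivity
  have hAe : 0 < A ^ e2 := by positivity
  have key : ∀ Y : ℝ, 0 ≤ Y → D * Y ≤ A ^ E → D2 * Y ≤ (A / B) ^ e2 := by
    intro Y hY hDY
    rw [div_pow, le_div_iff₀ hBe]
    have h3 : B ^ e2 * D2 ≤ D := (x3 e2 (by omega)).trans hXD'
    calc D2 * Y * B ^ e2 = (B ^ e2 * D2) * Y := by ring
      _ ≤ D * Y := mul_le_mul_of_nonneg_right h3 hY
      _ ≤ A ^ E := hDY
      _ ≤ A ^ e2 := hAE e2 (by omega)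
  obtain ⟨F2, α2, R2, hrel2, hF2, hRM⟩ := hcl n P (A / B) ηj F F' αj α' R hrel
    hAB hAB1 hηj0
    (by
      refine le_trans (mul_le_mul_of_nonneg_left hηj1 hD2p.le) (key _ hηP0 hηP))
    (by
      have h3 : ηj ^ (k - 1) ≤ (η * P) ^ (k - 1) := pow_le_pow_left₀ hηj0 hηj1 _
      have h4 := key ((η * P) ^ (k - 1) * P) hηk0 (by linarith)
      calc D2 * ηj ^ (k - 1) * P ≤ D2 * (η * P) ^ (k - 1) * P :=
            mul_le_mul_of_nonneg_right (mul_le_mul_of_nonneg_left h3 hD2p.le) hP0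
        _ = D2 * ((η * P) ^ (k - 1) * P) := by ring
        _ ≤ _ := h4)
    (by
      rw [div_pow, div_mul_eq_mul_div, le_div_iff₀ hBe]
      have h3 : B ^ e2 * D2 ≤ D := (x3 e2 (by omega)).trans hXD'
      have h4 : A ^ E * P ≤ A ^ e2 * P := mul_le_mul_of_nonneg_right (hAE e2 (by omega)) hP0
      linarith) hn hRc
  have hABe : 0 < (A / B) ^ e2 := by positivity
  set η2 : ℝ := D2 * ηj / ((A / B) ^ e2 * P) with hη2
  have hη20 : 0 ≤ η2 := by positivity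
  have hη2e : η2 = (B ^ (e2 + 1) * D2) / A ^ (e2 + 1) * ((η * P) / (P : ℝ) ^ (j + 1)) := by
    rw [hη2, hηj, div_pow, pow_succ B, pow_succ A, pow_succ (P : ℝ)]
    field_simp
  have hE1 : e2 + 1 ≤ E := by omega
  have hcmp : ∀ Z : ℝ, 0 ≤ Z → Z ≤ D → Z / A ^ (e2 + 1) ≤ D / A ^ E := fun Z hZ hZD =>
    div_le_div₀ hDp.le hZD hAEp (hAE _ hE1)
  have he : η2 ≤ D * (η * P) / (A ^ E * (P : ℝ) ^ (j + 1)) := by
    rw [hη2e, mul_div_mul_comm]
    exact mul_le_mul_of_nonneg_right (hcmp _ (by positivity) ((x3 _ hE1).trans hXD')) (by positivity)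
  have hm0 : 0 ≤ A / B * (P : ℝ) ^ j := by positivity
  have hτ : (2 * (P : ℝ)) ^ j * η2 + B * η / A ≤ D * η / A ^ E := by
    have h3 : (2 * (P : ℝ)) ^ j * η2 = (2 ^ j * (B ^ (e2 + 1) * D2)) / A ^ (e2 + 1) * η := by
      rw [hη2e, mul_pow, pow_succ (P : ℝ)]
      field_simp
    have h4 : B * η / A ≤ B / A ^ (e2 + 1) * η := by
      rw [mul_div_right_comm]
      refine mul_le_mul_of_nonneg_right ?_ hη
      refine div_le_div_of_nonneg_left hBp.le (by positivity) ?_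
      calc A ^ (e2 + 1) ≤ A ^ 1 := pow_le_pow_of_le_one hA0.le hA1 (by omega)
        _ = A := pow_one A
    have h5 : 2 ^ j * (B ^ (e2 + 1) * D2) + B ≤ D := by
      have h6 : (2 : ℝ) ^ j * (B ^ (e2 + 1) * D2) ≤ 2 ^ j * X :=
        mul_le_mul_of_nonneg_left (x3 _ hE1) (by positivity)
      have h7 : (1 : ℝ) ≤ 2 ^ j := one_le_pow₀ (by norm_num)
      have h8 : X ≤ 2 ^ j * X := le_mul_of_one_le_left hXp.le h7
      have h9 : D = 6 * (2 ^ j * X) := by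
        rw [hD, pow_succ]
        ring
      have h10 : 0 < 2 ^ j * X := by positivity
      linarith
    have h6 := hcmp _ (by positivity) h5
    calc (2 * (P : ℝ)) ^ j * η2 + B * η / A
        ≤ (2 ^ j * (B ^ (e2 + 1) * D2)) / A ^ (e2 + 1) * η + B / A ^ (e2 + 1) * η := by
          rw [h3]
          linarith
      _ = (2 ^ j * (B ^ (e2 + 1) * D2) + B) / A ^ (e2 + 1) * η := by ring
      _ ≤ D / A ^ E * η := mul_le_mul_of_nonneg_right h6 hη
      _ = D * η / A ^ E := by ring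
  -- the descendants
  have hdesc : ∀ M : ℕ, ∃ S' : Finset (ℕ × ℕ), M ∈ F2 →
      Desc P (j + 1) D (D * η / A ^ E) F0 α M (α2 M) S' ∧ A ^ E / D * (P : ℝ) ^ (j + 1) ≤ S'.card := by
    intro M
    by_cases hM : M ∈ F2
    · obtain ⟨S', hS', hc⟩ := chain_step P j D2 B (B * η / A) η2
        (A / B * (P : ℝ) ^ j) (α2 M) hD2 F0 α M αj S (TowerT_T R2 M) hP2'
        (by
          intro t ht
          have h3 := TowerT_memT ht
          have h4 := hrel2.prime _ h3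
          have h5 := hS t.2 (hrel2.memF' _ h3)
          exact ⟨h4.1, h4.2.1, h4.2.2, hrel2.pos _ h3, hrel2.freq _ h3, h5.1, h5.2⟩) hη20 hm0
      refine ⟨S', fun _ => ⟨TowerT_descmono hS' c7 hτ, ?_⟩⟩
      refine le_trans ?_ hc
      have h6 := hRM M hM
      rw [← TowerT_cardT] at h6
      have h7 : (A / B) ^ e2 / D2 * P * (A / B * (P : ℝ) ^ j) / K0 ≤
          ((TowerT_T R2 M).card : ℝ) * (A / B * (P : ℝ) ^ j) / ((j + 1) * (2 * D2 + 1)) := by
        rw [← hK0]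
        exact div_le_div_of_nonneg_right (mul_le_mul_of_nonneg_right h6 hm0) hK0p.le
      refine le_trans ?_ h7
      have h8 : (A / B) ^ e2 / D2 * P * (A / B * (P : ℝ) ^ j) / K0 =
          A ^ (e2 + 1) / (B ^ (e2 + 1) * D2 * K0) * (P : ℝ) ^ (j + 1) := by
        rw [pow_succ (P : ℝ) j, pow_succ A, pow_succ B, div_pow]
        field_simp
      rw [h8]
      refine mul_le_mul_of_nonneg_right ?_ (by positivity)
      exact div_le_div₀ (by positivity) (hAE _ hE1) (by positivity) ((x2 _ hE1).trans hXD')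
    · exact ⟨∅, fun h => absurd h hM⟩
  choose S2 hS2 using hdesc
  refine ⟨F2, F, α2, αj, R2, TowerT_relmono hrel2 hD2 c9 he, ?_, ?_, S2, hS2⟩
  · have h2 := TowerT_sum hrel2.memF (a := (A / B) ^ e2 / D2 * n) (b := (A / B) ^ e2 / D2 * P)
      (by positivity) hF2 hRM
    have h3 : (A / B) ^ e2 / D2 * n * ((A / B) ^ e2 / D2 * P) =
        A ^ (e2 * 2) / (B ^ (e2 * 2) * D2 ^ 2) * n * P := by
      rw [div_pow, pow_mul A e2 2, pow_mul B e2 2]
      field_simp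
    rw [h3] at h2
    refine le_trans ?_ h2
    refine mul_le_mul_of_nonneg_right (mul_le_mul_of_nonneg_right ?_ (by linarith)) hP0
    exact div_le_div₀ (by positivity) (hAE _ (by omega)) (by positivity)
      ((x4 _ (by omega)).trans hXD')
  · rw [← Finset.card_pos]
    have h2 : (0 : ℝ) < F2.card := lt_of_lt_of_le (by positivity) hF2
    exact_mod_cast h2

private theorem TowerT_all (C : ℝ) (hC : 1 ≤ C) (k : ℕ) (hk : 3 ≤ k) (J : ℕ) (hJ : 1 ≤ J) :
    TowerT_Q C k J := by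
  induction J, hJ using Nat.le_induction with
  | base => exact TowerT_base C hC k hk
  | succ j hj ih => exact TowerT_step C k hk j hj ih

theorem tower_t (C : ℝ) (hC : 1 ≤ C) (k : ℕ) (hk : 3 ≤ k) (J : ℕ) (hJ : 1 ≤ J) : ∃ (D : ℝ) (e : ℕ), 1 ≤ D ∧ ∀ (n P : ℕ) (δ η : ℝ)
    (F0 G0 : Finset ℕ) (α β : ℕ → ℝ) (R0 : Finset (ℕ × ℕ × ℕ)), Rel C n P (η * P) F0 G0 α β R0 → 0 < δ → δ ≤ 1 →
    0 ≤ η → D * (η * P) ≤ δ ^ e → D * (η * P) ^ (k - 1) * P ≤ δ ^ e → D ≤ δ ^ e * P → 1 ≤ n → δ * n * P ≤ R0.card →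
    ∃ (K : ℕ) (w : ℝ) (S : Finset (ℕ × ℕ)), (n : ℝ) / D ≤ K ∧ (K : ℝ) ≤ D * n ∧
      Desc P J D (D * η / δ ^ e) F0 α K w S ∧ δ ^ e / D * (P : ℝ) ^ J ≤ S.card := by
  obtain ⟨D, e, hD, hQ⟩ := TowerT_all C hC k hk J hJ
  refine ⟨D, e, hD, ?_⟩
  intro n P δ η F0 G0 α β R0 hR hδ hδ1 hη hηP hηk hDP hn hcard
  obtain ⟨F, F', αj, α', R, hrel, -, ⟨K, hK⟩, S, hS⟩ := hQ n P δ η F0 G0 α β R0 hR hδ hδ1 hη hηP hηk
    hDP hn hcard
  have hr := hrel.rngF K hK
  obtain ⟨h1, h2⟩ := hS K hK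
  exact ⟨K, αj K, S K, hr.1, hr.2, h1, h2⟩

end Pool.Agent.H53.TPS
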